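import Mathlib

/-!
# The comparison argument for arrays
-/

namespace Pool.Agent.H29.STP

open Finset

/-- shift of a finite sum -/
theorem Arr_shift (f : ℕ → ℝ) (X M : ℕ) :
    ∑ x ∈ range X, (f (x + M) - f x) = ∑ u ∈ range M, (f (X + u) - f u) := by
  have h1 : ∑ x ∈ range X, f (x + M) + ∑ u ∈ range M, f u
      = ∑ u ∈ range M, f (X + u) + ∑ x ∈ range X, f x := by
    have e1 : ∑ u ∈ range M, f u + ∑ x ∈ range X, f (M + x) = ∑ x ∈ range (M + X), f x :=
      (Finset.sum_range_add f M X).symm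
    have e2 : ∑ u ∈ range X, f u + ∑ x ∈ range M, f (X + x) = ∑ x ∈ range (X + M), f x :=
      (Finset.sum_range_add f X M).symm
    have e3 : ∑ x ∈ range X, f (x + M) = ∑ x ∈ range X, f (M + x) := by
      refine Finset.sum_congr rfl ?_
      intro x _
      rw [Nat.add_comm]
    rw [e3]
    rw [Nat.add_comm X M] at e2
    linarith
  rw [Finset.sum_sub_distrib, Finset.sum_sub_distrib]
  linarith

theorem Arr_anti {W : ℕ → ℕ → ℝ} (hWa : ∀ a b, W (a + 1) b ≤ W a b) (a k b : ℕ) :
    W (a + k) b ≤ W a b := by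
  induction k with
  | zero => simp
  | succ k ih => exact le_trans (hWa (a + k) b) ih

theorem Arr_sumG {G Φ : ℕ → ℕ → ℝ} {M : ℕ} (hM : 1 ≤ M)
    (hGΦ : ∀ a b, (49 / 50 / M : ℝ) * G a b ≤ Φ a b - Φ (a + 1) b) (c X b : ℕ) :
    ∑ x ∈ range X, G (x + c) b ≤ (M : ℝ) * (50 / 49) * (Φ c b - Φ (c + X) b) := by
  have hM' : (0 : ℝ) < M := by exact_mod_cast hM
  induction X with
  | zero => simp
  | succ X ih =>
    rw [Finset.sum_range_succ]
    have h := hGΦ (X + c) b
    have h2 : G (X + c) b ≤ (M : ℝ) * (50 / 49) * (Φ (X + c) b - Φ (X + c + 1) b) := by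
      have h3 : G (X + c) b = (M : ℝ) * (50 / 49) * ((49 / 50 / M : ℝ) * G (X + c) b) := by
        field_simp
      rw [h3]
      exact mul_le_mul_of_nonneg_left h (by positivity)
    have e1 : X + c = c + X := Nat.add_comm _ _
    rw [e1] at h2 ⊢
    have e2 : c + X + 1 = c + (X + 1) := by ring
    rw [e2] at h2
    nlinarith [ih, h2]

theorem array_bound {W G Φ : ℕ → ℕ → ℝ} {M : ℕ} (hM : 1 ≤ M)
    (hWG : ∀ a b, W a b - W a (b + 1) ≤ G a b)
    (hGΦ : ∀ a b, (49 / 50 / M : ℝ) * G a b ≤ Φ a b - Φ (a + 1) b)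
    (hG : ∀ a b, 0 ≤ G a b) (hΦ : ∀ a b, 0 ≤ Φ a b)
    (hΦW : ∀ a b, Φ a b ≤ 49 / 50 * W a b)
    (hWΦ : ∀ a b, 49 / 50 * W a b - Φ a b ≤ G a b)
    (hW0 : ∀ a b, 0 ≤ W a b) (hW1 : ∀ a b, W a b ≤ 1) (hWa : ∀ a b, W (a + 1) b ≤ W a b)
    (N H : ℕ) (hH : 1 ≤ H) :
    W (M * (N + 2 * H)) 0 ≤ W 0 N + 2 * N / (H : ℝ) ^ 2 := by
  have hM' : (0 : ℝ) < M := by exact_mod_cast hM
  have hH' : (0 : ℝ) < H := by exact_mod_cast hH
  obtain ⟨X, hX⟩ : ∃ X, X = M * H := ⟨_, rfl⟩
  have anti := fun a k b => Arr_anti hWa a k b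
  -- the key step
  have key : ∀ b c : ℕ,
      ∑ y ∈ range X, ∑ x ∈ range X, W (x + (y + c) + M) b
        - ∑ y ∈ range X, ∑ x ∈ range X, W (x + (y + c)) (b + 1) ≤ 2 * (M : ℝ) ^ 2 := by
    intro b c
    have h1 : ∑ y ∈ range X, ∑ x ∈ range X, W (x + (y + c) + M) b
        - ∑ y ∈ range X, ∑ x ∈ range X, W (x + (y + c)) (b + 1)
        ≤ ∑ y ∈ range X, ((∑ u ∈ range M, (W (y + c) b - W (y + c + u) b))
            + (M : ℝ) * (50 / 49) * G (y + (c + X)) b) := by
      rw [← Finset.sum_sub_distrib]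
      refine Finset.sum_le_sum ?_
      intro y _
      have s1 : ∑ x ∈ range X, (W (x + M + (y + c)) b - W (x + (y + c)) b)
          = ∑ u ∈ range M, (W (X + u + (y + c)) b - W (u + (y + c)) b) :=
        Arr_shift (fun x => W (x + (y + c)) b) X M
      have s2 := Arr_sumG hM hGΦ (y + c) X b
      have s3 : Φ (y + c) b - Φ (y + c + X) b
          ≤ 49 / 50 * W (y + c) b - 49 / 50 * W (y + c + X) b + G (y + c + X) b := by
        have := hΦW (y + c) b
        have := hWΦ (y + c + X) b
        linarith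
      have s4 : ∑ x ∈ range X, G (x + (y + c)) b
          ≤ (M : ℝ) * (W (y + c) b - W (y + c + X) b)
            + (M : ℝ) * (50 / 49) * G (y + c + X) b := by
        refine le_trans s2 ?_
        have := mul_le_mul_of_nonneg_left s3 (by positivity : (0 : ℝ) ≤ (M : ℝ) * (50 / 49))
        refine le_trans this (le_of_eq ?_)
        ring
      have s5 : ∑ x ∈ range X, W (x + (y + c) + M) b
          - ∑ x ∈ range X, W (x + (y + c)) (b + 1)
          ≤ ∑ x ∈ range X, (W (x + M + (y + c)) b - W (x + (y + c)) b)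
            + ∑ x ∈ range X, G (x + (y + c)) b := by
        rw [← Finset.sum_sub_distrib, ← Finset.sum_add_distrib]
        refine Finset.sum_le_sum ?_
        intro x _
        have := hWG (x + (y + c)) b
        have e : x + (y + c) + M = x + M + (y + c) := by ring
        rw [e]
        linarith
      have s6 : ∑ u ∈ range M, (W (X + u + (y + c)) b - W (u + (y + c)) b)
          + (M : ℝ) * (W (y + c) b - W (y + c + X) b)
          ≤ ∑ u ∈ range M, (W (y + c) b - W (y + c + u) b) := by
        have e0 : (M : ℝ) * (W (y + c) b - W (y + c + X) b)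
            = ∑ u ∈ range M, (W (y + c) b - W (y + c + X) b) := by
          rw [Finset.sum_const, Finset.card_range, nsmul_eq_mul]
        rw [e0, ← Finset.sum_add_distrib]
        refine Finset.sum_le_sum ?_
        intro u _
        have e1 : X + u + (y + c) = y + c + X + u := by ring
        have e2 : u + (y + c) = y + c + u := by ring
        rw [e1, e2]
        have := anti (y + c + X) u b
        linarith
      have e3 : y + (c + X) = y + c + X := by ring
      rw [e3]
      rw [s1] at s5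
      linarith
    have h2 : ∑ y ∈ range X, G (y + (c + X)) b ≤ (M : ℝ) := by
      have := Arr_sumG hM hGΦ (c + X) X b
      have a1 := hΦW (c + X) b
      have a2 := hW1 (c + X) b
      have a3 := hΦ (c + X + X) b
      have a4 : Φ (c + X) b - Φ (c + X + X) b ≤ 49 / 50 := by linarith
      have a5 := mul_le_mul_of_nonneg_left a4 (by positivity : (0 : ℝ) ≤ (M : ℝ) * (50 / 49))
      have a6 : (M : ℝ) * (50 / 49) * (49 / 50) = M := by ring
      linarith
    have h3 : ∀ u : ℕ, ∑ y ∈ range X, (W (y + c) b - W (y + c + u) b) ≤ (u : ℝ) := by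
      intro u
      have e : ∑ y ∈ range X, (W (y + u + c) b - W (y + c) b)
          = ∑ v ∈ range u, (W (X + v + c) b - W (v + c) b) :=
        Arr_shift (fun y => W (y + c) b) X u
      have e2 : ∑ y ∈ range X, (W (y + c) b - W (y + c + u) b)
          = - ∑ y ∈ range X, (W (y + u + c) b - W (y + c) b) := by
        rw [← Finset.sum_neg_distrib]
        refine Finset.sum_congr rfl ?_
        intro y _
        have e3 : y + c + u = y + u + c := by ring
        rw [e3]
        ring
      rw [e2, e, ← Finset.sum_neg_distrib]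
      have : ∑ v ∈ range u, -(W (X + v + c) b - W (v + c) b) ≤ ∑ v ∈ range u, (1 : ℝ) := by
        refine Finset.sum_le_sum ?_
        intro v _
        have := hW1 (v + c) b
        have := hW0 (X + v + c) b
        linarith
      refine le_trans this ?_
      simp
    have h4 : ∑ y ∈ range X, ∑ u ∈ range M, (W (y + c) b - W (y + c + u) b)
        ≤ (M : ℝ) ^ 2 / 2 := by
      rw [Finset.sum_comm]
      have : ∑ u ∈ range M, ∑ y ∈ range X, (W (y + c) b - W (y + c + u) b)
          ≤ ∑ u ∈ range M, (u : ℝ) := Finset.sum_le_sum (fun u _ => h3 u)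
      refine le_trans this ?_
      have hg : ∀ m : ℕ, ∑ u ∈ range m, (u : ℝ) ≤ (m : ℝ) ^ 2 / 2 := by
        intro m
        induction m with
        | zero => simp
        | succ m ih =>
          rw [Finset.sum_range_succ]
          push_cast
          nlinarith
      exact hg M
    rw [Finset.sum_add_distrib, ← Finset.mul_sum] at h1
    have h5 := mul_le_mul_of_nonneg_left h2 (by positivity : (0 : ℝ) ≤ (M : ℝ) * (50 / 49))
    nlinarith
  -- the quantities Q
  have step : ∀ b : ℕ, b ≤ N →
      ∑ y ∈ range X, ∑ x ∈ range X, W (x + (y + M * N)) 0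
        ≤ ∑ y ∈ range X, ∑ x ∈ range X, W (x + (y + M * (N - b))) b
          + b * (2 * (M : ℝ) ^ 2) := by
    intro b
    induction b with
    | zero => intro _; simp
    | succ b ih =>
      intro hb
      have ih' := ih (by omega)
      have hk := key b (M * (N - (b + 1)))
      have e : ∀ x y : ℕ, x + (y + M * (N - (b + 1))) + M = x + (y + M * (N - b)) := by
        intro x y
        have : N - b = (N - (b + 1)) + 1 := by omega
        rw [this, Nat.mul_add]
        ring
      simp only [e] at hk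
      push_cast
      linarith
  have hN := step N le_rfl
  have hlow : (X : ℝ) ^ 2 * W (M * (N + 2 * H)) 0
      ≤ ∑ y ∈ range X, ∑ x ∈ range X, W (x + (y + M * N)) 0 := by
    have : ∑ y ∈ range X, ∑ x ∈ range X, W (M * (N + 2 * H)) 0
        ≤ ∑ y ∈ range X, ∑ x ∈ range X, W (x + (y + M * N)) 0 := by
      refine Finset.sum_le_sum (fun y hy => Finset.sum_le_sum (fun x hx => ?_))
      rw [Finset.mem_range] at hx hy
      have e : M * (N + 2 * H) = (x + (y + M * N)) + (2 * X - x - y) := by
        have : M * (N + 2 * H) = M * N + 2 * X := by rw [hX]; ring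
        omega
      rw [e]
      exact anti _ _ _
    refine le_trans (le_of_eq ?_) this
    simp only [Finset.sum_const, Finset.card_range, nsmul_eq_mul]
    ring
  have hup : ∑ y ∈ range X, ∑ x ∈ range X, W (x + (y + M * (N - N))) N
      ≤ (X : ℝ) ^ 2 * W 0 N := by
    have : ∑ y ∈ range X, ∑ x ∈ range X, W (x + (y + M * (N - N))) N
        ≤ ∑ y ∈ range X, ∑ x ∈ range X, W 0 N := by
      refine Finset.sum_le_sum (fun y _ => Finset.sum_le_sum (fun x _ => ?_))
      have := anti 0 (x + (y + M * (N - N))) N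
      simpa using this
    refine le_trans this (le_of_eq ?_)
    simp only [Finset.sum_const, Finset.card_range, nsmul_eq_mul]
    ring
  have hfin : (X : ℝ) ^ 2 * W (M * (N + 2 * H)) 0
      ≤ (X : ℝ) ^ 2 * W 0 N + N * (2 * (M : ℝ) ^ 2) := by linarith
  have hX2 : (X : ℝ) ^ 2 = (M : ℝ) ^ 2 * (H : ℝ) ^ 2 := by
    rw [hX]; push_cast; ring
  have hpos : (0 : ℝ) < (X : ℝ) ^ 2 := by rw [hX2]; positivity
  have hgoal : (X : ℝ) ^ 2 * (W 0 N + 2 * N / (H : ℝ) ^ 2)
      = (X : ℝ) ^ 2 * W 0 N + N * (2 * (M : ℝ) ^ 2) := by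
    rw [hX2]
    field_simp
  rw [← hgoal] at hfin
  exact le_of_mul_le_mul_left hfin hpos

end Pool.Agent.H29.STP
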