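import Mathlib

/-!
# The numerical certificate
-/

namespace Pool.Agent.H29.STP

noncomputable def pc : ℕ → ℝ
  | 0 => 49 / 100
  | 1 => 32 / 100
  | 2 => 26 / 100
  | 3 => 22 / 100
  | 4 => 20 / 100
  | _ => 19 / 100

noncomputable def xc : ℕ → ℝ
  | 0 => 0
  | 1 => 45 / 100
  | 2 => 28 / 100
  | 3 => 23 / 100
  | 4 => 21 / 100
  | _ => 20 / 100

/-- The function `Ψ`. -/
noncomputable def psi (i : ℕ) : ℝ := (1 / 4) ^ i * pc i

/-- The function `X`. -/
noncomputable def chi (i : ℕ) : ℝ := (1 / 4) ^ i * xc i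

theorem psi_zero : psi 0 = 49 / 100 := by
  simp [psi, pc]

lemma pc_tail (i : ℕ) : pc (i + 5) = 19 / 100 := rfl

lemma xc_tail (i : ℕ) : xc (i + 5) = 20 / 100 := rfl

lemma pc_nonneg (i : ℕ) : 0 ≤ pc i := by
  unfold pc
  split <;> norm_num

lemma xc_nonneg (i : ℕ) : 0 ≤ xc i := by
  unfold xc
  split <;> norm_num

theorem psi_nonneg (i : ℕ) : 0 ≤ psi i := by
  have := pc_nonneg i
  unfold psi
  positivity

theorem chi_nonneg (i : ℕ) : 0 ≤ chi i := by
  have := xc_nonneg i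
  unfold chi
  positivity

lemma pc_le (i : ℕ) : pc i ≤ 1 / 2 := by
  unfold pc
  split <;> norm_num

theorem psi_le {i : ℕ} : psi i ≤ (1 / 2) * (1 / 4) ^ i := by
  have h := pc_le i
  have h4 : (0 : ℝ) ≤ (1 / 4) ^ i := by positivity
  unfold psi
  nlinarith

lemma pc_xc_le (i b : ℕ) (hb : b ≤ 2) : pc i + b * xc i ≤ (1 / 2) * 2 ^ b := by
  unfold pc xc
  interval_cases b <;> split <;> norm_num

theorem psi_chi_le {i b : ℕ} (hb : b ≤ 2) :
    psi i + b * chi i ≤ (1 / 2) * ((1 / 4) ^ i * 2 ^ b) := by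
  have h := pc_xc_le i b hb
  have h4 : (0 : ℝ) ≤ (1 / 4) ^ i := by positivity
  unfold psi chi
  nlinarith

theorem psi_chi_le' {i b : ℕ} (hi : 1 ≤ i) (hb : b ≤ 2) : psi i + b * chi i ≤ 49 / 100 := by
  have h : pc i + b * xc i ≤ 49 / 25 := by
    obtain ⟨j, rfl⟩ : ∃ j, i = j + 1 := ⟨i - 1, by omega⟩
    unfold pc xc
    interval_cases b <;> split <;> first | omega | norm_num
  have h4 : (0 : ℝ) ≤ (1 / 4) ^ i := by positivity
  have h5 : ((1 : ℝ) / 4) ^ i ≤ 1 / 4 := by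
    calc ((1 : ℝ) / 4) ^ i ≤ (1 / 4) ^ 1 :=
          pow_le_pow_of_le_one (by norm_num) (by norm_num) hi
      _ = 1 / 4 := by norm_num
  have h6 : 0 ≤ pc i + b * xc i := by
    have := pc_nonneg i
    have := xc_nonneg i
    positivity
  have h7 : psi i + b * chi i = (1 / 4) ^ i * (pc i + b * xc i) := by
    unfold psi chi; ring
  rw [h7]
  calc (1 / 4 : ℝ) ^ i * (pc i + b * xc i) ≤ 1 / 4 * (49 / 25) :=
        mul_le_mul h5 h h6 (by norm_num)
    _ = 49 / 100 := by norm_num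

/-- The inequality for the first row. -/
theorem cert0 {i b : ℕ} (hi : 1 ≤ i) (hb : b ≤ 2) (hbi : b ≤ i) :
    (1 / 4 : ℝ) ^ i * (1 + b / 4) ≤
      (i : ℝ) * (psi (i - 1) - psi i) - (2 * i - b) * psi i := by
  rcases Nat.lt_or_ge i 6 with h6 | h6
  · interval_cases i <;> interval_cases b <;> simp [psi, pc] <;> norm_num
  · obtain ⟨j, rfl⟩ : ∃ j, i = j + 6 := ⟨i - 6, by omega⟩
    have e1 : psi (j + 6 - 1) = (1 / 4 : ℝ) ^ (j + 6) * (4 * (19 / 100)) := by
      have : j + 6 - 1 = j + 5 := rfl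
      rw [this, psi, pc_tail, pow_succ]
      ring
    have e2 : psi (j + 6) = (1 / 4 : ℝ) ^ (j + 6) * (19 / 100) := rfl
    rw [e1, e2]
    have h4 : (0 : ℝ) < (1 / 4) ^ (j + 6) := by positivity
    have key : (1 + (b : ℝ) / 4) ≤ ((j + 6 : ℕ) : ℝ) * (4 * (19 / 100) - 19 / 100) -
        (2 * ((j + 6 : ℕ) : ℝ) - b) * (19 / 100) := by
      have hj : (0 : ℝ) ≤ j := Nat.cast_nonneg j
      push_cast
      interval_cases b <;> norm_num <;> nlinarith
    nlinarith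

/-- The inequality for the second row. -/
theorem cert1 {i b : ℕ} (hi : 1 ≤ i) (hb : b ≤ 2) (hbi : b ≤ i) :
    (1 / 4 : ℝ) ^ i * 2 ^ b - (if i = 1 then (b : ℝ) / 4 else 0) ≤
      ((i : ℝ) - b) * ((psi (i - 1) + b * chi (i - 1)) - (psi i + b * chi i)) +
        (3 / 2 : ℝ) * b * ((psi (i - 1) + ((b : ℝ) - 1) * chi (i - 1)) - (psi i + b * chi i)) -
        (2 * i - b) * (psi i + b * chi i) := by
  rcases Nat.lt_or_ge i 6 with h6 | h6
  · interval_cases i <;> interval_cases b <;> simp [psi, pc, chi, xc] <;> norm_num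
  · obtain ⟨j, rfl⟩ : ∃ j, i = j + 6 := ⟨i - 6, by omega⟩
    have e1 : psi (j + 6 - 1) = (1 / 4 : ℝ) ^ (j + 6) * (4 * (19 / 100)) := by
      have : j + 6 - 1 = j + 5 := rfl
      rw [this, psi, pc_tail, pow_succ]
      ring
    have e2 : psi (j + 6) = (1 / 4 : ℝ) ^ (j + 6) * (19 / 100) := rfl
    have e3 : chi (j + 6 - 1) = (1 / 4 : ℝ) ^ (j + 6) * (4 * (20 / 100)) := by
      have : j + 6 - 1 = j + 5 := rfl
      rw [this, chi, xc_tail, pow_succ]
      ring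
    have e4 : chi (j + 6) = (1 / 4 : ℝ) ^ (j + 6) * (20 / 100) := rfl
    rw [e1, e2, e3, e4, if_neg (by omega)]
    have h4 : (0 : ℝ) < (1 / 4) ^ (j + 6) := by positivity
    have key : (2 : ℝ) ^ b ≤
        ((j + 6 : ℕ) - (b : ℝ)) * ((4 * (19 / 100) + b * (4 * (20 / 100))) -
          (19 / 100 + b * (20 / 100))) +
        (3 / 2 : ℝ) * b * ((4 * (19 / 100) + ((b : ℝ) - 1) * (4 * (20 / 100))) -
          (19 / 100 + b * (20 / 100))) -
        (2 * ((j + 6 : ℕ) : ℝ) - b) * (19 / 100 + b * (20 / 100)) := by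
      have hj : (0 : ℝ) ≤ j := Nat.cast_nonneg j
      push_cast
      interval_cases b <;> norm_num <;> nlinarith
    nlinarith [mul_le_mul_of_nonneg_left key h4.le]

end Pool.Agent.H29.STP
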