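import Pool.Agent.H89.Perc.RSW
import Pool.Agent.H89.Perc.DualityA

/-!
# Crossings of rotated rectangles in critical bond percolation on the square lattice
-/

open MeasureTheory ProbabilityTheory unitInterval

namespace Pool.Agent.H29.STP

open Pool.Agent.H89.Perc

/-- The rotated rectangle: `k = x - y` runs over `[0, 2 n]` and `m = x + y` over `[0, 2 N]`. -/
def RotR (n N : ℕ) : Set Vert :=
  {v | 0 ≤ v.1 - v.2 ∧ v.1 - v.2 ≤ 2 * n ∧ 0 ≤ v.1 + v.2 ∧ v.1 + v.2 ≤ 2 * N}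

/-- There is an open crossing from the side `k = 0` to the side `k = 2 n`. -/
def RotCross (ω : Config) (n N : ℕ) : Prop :=
  ∃ a b : Vert, a.1 - a.2 = 0 ∧ b.1 - b.2 = 2 * n ∧ Conn ω (RotR n N) a b

/-- The rotated rectangle in the dual lattice. -/
def RotD (n N : ℕ) : Set Vert :=
  {v | 0 ≤ v.1 - v.2 ∧ v.1 - v.2 ≤ 2 * n ∧ -1 ≤ v.1 + v.2 ∧ v.1 + v.2 ≤ 2 * N - 1}

end Pool.Agent.H29.STP
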