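import Pool.Agent.H29.STP.Defs
import Pool.Agent.H29.STP.RotDef

/-!
# The double rows and bond percolation on the rotated square lattice: definitions
-/

open MeasureTheory ProbabilityTheory unitInterval

namespace Pool.Agent.H29.STP

open Pool.Agent.H89.Perc

/-- A face with an open (`b = true`) or closed primal bond: bridges (even numbers) are applied if
the bond is open, cuts (odd numbers) if it is closed. -/
def act (b : Bool) (j : ℕ) (s : St) : St := if b = decide (j % 2 = 0) then ev j s else s

/-- The faces `0, ..., m - 1` in this order. -/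
def upRow (β : ℕ → Bool) : ℕ → St → St
  | 0, s => s
  | m + 1, s => act (β m) m (upRow β m s)

/-- The faces `m - 1, ..., 0` in this order. -/
def dnRow (β : ℕ → Bool) : ℕ → St → St
  | 0, s => s
  | m + 1, s => dnRow β m (act (β m) m s)

/-- First row. -/
def row1 (β : ℕ → Bool) (n : ℕ) (s : St) : St := dnRow β (2 * n) (ev (2 * n) (ev (2 * n + 1) s))

/-- Second row. -/
def row2 (β : ℕ → Bool) (n : ℕ) (s : St) : St := ev (2 * n) (upRow β (2 * n) s)

/-- The bond of the face `[k, k + 1] × [m, m + 1]` of the rotated lattice (`k = x - y`,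
`m = x + y`). -/
def rotE (k m : ℕ) : Edge :=
  if (k + m) % 2 = 0 then (((k : ℤ) + m) / 2, ((m : ℤ) - k) / 2, false)
  else (((k : ℤ) + m + 1) / 2, ((m : ℤ) - k - 1) / 2, true)

/-- The state of the front after `N` double rows. -/
def chain (ω : Config) (n : ℕ) : ℕ → St
  | 0 => bot
  | N + 1 => row2 (fun k => ω (rotE k (2 * N + 1))) n
      (row1 (fun k => ω (rotE k (2 * N))) n (chain ω n N))

end Pool.Agent.H29.STP
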