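import Pool.Agent.H29.STP.JLem
import Pool.Agent.H29.STP.ChainDef

/-!
# A crossing of the rotated rectangle kills the chain
-/

namespace Pool.Agent.H29.STP

open Pool.Agent.H89.Perc

/-- A colouring of the columns which is constant on the blocks. -/
def ChainCCol (s : St) (A : ℕ → Prop) : Prop := ∀ x y, s.r x y → (A x ↔ A y)

/-- Going back through a bridge. -/
lemma ChainC_br {k : ℕ} {s : St} {A : ℕ → Prop} (h : ChainCCol (br k s) A) :
    ChainCCol s A ∧ (A k ↔ A (k + 1)) :=
  ⟨fun x y hxy => h x y (Or.inl hxy), h k (k + 1) (Or.inr (Or.inl ⟨s.rfl' _, s.rfl' _⟩))⟩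

/-- Going back through a cut. -/
lemma ChainC_ct {k : ℕ} {s : St} {A : ℕ → Prop} (h : ChainCCol (ct k s) A) :
    ∃ B, ChainCCol s B ∧ ∀ x, x ≠ k → (B x ↔ A x) := by
  classical
  refine ⟨fun x => (x = k ∧ ∃ y, y ≠ k ∧ s.r k y ∧ A y) ∨ (x ≠ k ∧ A x), ?_, ?_⟩
  · have key : ∀ x y, x ≠ k → y ≠ k → s.r x y → (A x ↔ A y) := fun x y hx hy hxy =>
      h x y (Or.inr ⟨hx, hy, hxy⟩)
    have one : ∀ y, y ≠ k → s.r k y → ((∃ y, y ≠ k ∧ s.r k y ∧ A y) ↔ A y) := by
      intro y hy hky
      constructor
      · rintro ⟨z, hz, hkz, hA⟩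
        exact (key z y hz hy (s.trans' _ _ _ (s.symm' _ _ hkz) hky)).1 hA
      · intro hA
        exact ⟨y, hy, hky, hA⟩
    intro x y hxy
    by_cases hx : x = k
    · subst hx
      by_cases hy : y = x
      · subst hy
        exact Iff.rfl
      · have := one y hy hxy
        simp only [hy, ne_eq, not_true_eq_false, false_and, or_false, true_and, false_or,
          not_false_eq_true]
        exact this
    · by_cases hy : y = k
      · subst hy
        have := one x hx (s.symm' _ _ hxy)
        simp only [hx, ne_eq, not_true_eq_false, false_and, or_false, true_and, false_or,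
          not_false_eq_true]
        exact this.symm
      · simp only [hx, hy, ne_eq, false_and, true_and, false_or, not_false_eq_true]
        exact key x y hx hy hxy
  · intro x hx
    simp only [hx, ne_eq, false_and, true_and, false_or, not_false_eq_true]

/-- Going back through a face. -/
lemma ChainC_act {b : Bool} {j : ℕ} {s : St} {A : ℕ → Prop} (h : ChainCCol (act b j s) A) :
    ∃ B, ChainCCol s B ∧ (∀ x, (j % 2 = 0 ∨ x ≠ (j + 1) / 2) → (B x ↔ A x)) ∧
      (b = true → j % 2 = 0 → (A (j / 2) ↔ A (j / 2 + 1))) ∧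
      (b = true → j % 2 = 1 → ∀ x, (B x ↔ A x)) := by
  unfold act at h
  by_cases hj : j % 2 = 0
  · cases b with
    | false =>
      rw [if_neg (by simp [hj])] at h
      exact ⟨A, h, fun _ _ => Iff.rfl, fun hb => absurd hb (by simp),
        fun hb => absurd hb (by simp)⟩
    | true =>
      rw [if_pos (by simp [hj])] at h
      unfold ev at h
      rw [if_pos hj] at h
      obtain ⟨h1, h2⟩ := ChainC_br h
      exact ⟨A, h1, fun _ _ => Iff.rfl, fun _ _ => h2, fun _ _ _ => Iff.rfl⟩
  · have hj1 : j % 2 = 1 := by omega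
    cases b with
    | true =>
      rw [if_neg (by simp [hj1])] at h
      exact ⟨A, h, fun _ _ => Iff.rfl, fun _ h0 => absurd h0 (by omega), fun _ _ _ => Iff.rfl⟩
    | false =>
      rw [if_pos (by simp [hj1])] at h
      unfold ev at h
      rw [if_neg hj] at h
      obtain ⟨B, h1, h2⟩ := ChainC_ct h
      refine ⟨B, h1, fun x hx => h2 x ?_, fun hb => absurd hb (by simp),
        fun hb => absurd hb (by simp)⟩
      rcases hx with hx | hx
      · omega
      · exact hx

/-- Going back through the faces `m - 1, ..., 0`. -/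
lemma ChainC_dn {β : ℕ → Bool} : ∀ (m : ℕ) (s : St) (A : ℕ → Prop),
    ChainCCol (dnRow β m s) A → ∃ B, ChainCCol s B ∧
      (∀ x, (x = 0 ∨ m + 1 ≤ 2 * x) → (B x ↔ A x)) ∧
      (∀ i, 2 * i < m → β (2 * i) = true → (B i ↔ A (i + 1))) ∧
      (∀ i, 2 * i + 1 < m → β (2 * i + 1) = true → (B (i + 1) ↔ A (i + 1)))
  | 0, s, A, h => ⟨A, h, fun _ _ => Iff.rfl, fun i hi => absurd hi (by omega),
      fun i hi => absurd hi (by omega)⟩
  | m + 1, s, A, h => by
    obtain ⟨A1, h1, h2, h3, h4⟩ := ChainC_dn m _ A h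
    obtain ⟨B, k1, k2, k3, k4⟩ := ChainC_act h1
    refine ⟨B, k1, ?_, ?_, ?_⟩
    · intro x hx
      rw [k2 x (by omega), h2 x (by omega)]
    · intro i hi hb
      rcases Nat.lt_or_ge (2 * i) m with h' | h'
      · rw [k2 i (by omega)]
        exact h3 i h' hb
      · have hm : m = 2 * i := by omega
        subst hm
        have e := k3 hb (by omega)
        have e1 : 2 * i / 2 = i := by omega
        rw [e1] at e
        rw [k2 i (by omega), e]
        exact h2 (i + 1) (by omega)
    · intro i hi hb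
      rcases Nat.lt_or_ge (2 * i + 1) m with h' | h'
      · rw [k2 (i + 1) (by omega)]
        exact h4 i h' hb
      · have hm : m = 2 * i + 1 := by omega
        subst hm
        rw [k4 hb (by omega) (i + 1)]
        exact h2 (i + 1) (by omega)

/-- Going back through the faces `0, ..., m - 1`. -/
lemma ChainC_up {β : ℕ → Bool} : ∀ (m : ℕ) (s : St) (A : ℕ → Prop),
    ChainCCol (upRow β m s) A → ∃ B, ChainCCol s B ∧
      (∀ x, (x = 0 ∨ m + 1 ≤ 2 * x) → (B x ↔ A x)) ∧
      (∀ i, 2 * i < m → β (2 * i) = true → (B (i + 1) ↔ A i)) ∧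
      (∀ i, 2 * i + 1 < m → β (2 * i + 1) = true → (B (i + 1) ↔ A (i + 1)))
  | 0, s, A, h => ⟨A, h, fun _ _ => Iff.rfl, fun i hi => absurd hi (by omega),
      fun i hi => absurd hi (by omega)⟩
  | m + 1, s, A, h => by
    obtain ⟨A1, k1, k2, k3, k4⟩ := ChainC_act h
    obtain ⟨B, h1, h2, h3, h4⟩ := ChainC_up m _ A1 k1
    refine ⟨B, h1, ?_, ?_, ?_⟩
    · intro x hx
      rw [h2 x (by omega), k2 x (by omega)]
    · intro i hi hb
      rcases Nat.lt_or_ge (2 * i) m with h' | h'
      · rw [h3 i h' hb]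
        exact k2 i (by omega)
      · have hm : m = 2 * i := by omega
        subst hm
        have e := k3 hb (by omega)
        have e1 : 2 * i / 2 = i := by omega
        rw [e1] at e
        rw [h2 (i + 1) (by omega), k2 (i + 1) (by omega), e]
    · intro i hi hb
      rcases Nat.lt_or_ge (2 * i + 1) m with h' | h'
      · rw [h4 i h' hb]
        exact k2 (i + 1) (by omega)
      · have hm : m = 2 * i + 1 := by omega
        subst hm
        rw [h2 (i + 1) (by omega)]
        exact k4 hb (by omega) (i + 1)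

/-- Going back through the first row. -/
lemma ChainC_row1 {β : ℕ → Bool} {n : ℕ} {s : St} {A : ℕ → Prop} (hn : 1 ≤ n)
    (h : ChainCCol (row1 β n s) A) (h0 : A 0) (h1 : ¬ A (n + 1)) :
    ∃ B, ChainCCol s B ∧ B 0 ∧ ¬ B n ∧
      (∀ i, i < n → β (2 * i) = true → (B i ↔ A (i + 1))) ∧
      (∀ i, i < n → β (2 * i + 1) = true → (B (i + 1) ↔ A (i + 1))) := by
  obtain ⟨A1, k1, k2, k3, k4⟩ := ChainC_dn _ _ A h
  rw [ev_even, ev_odd] at k1
  obtain ⟨k5, k6⟩ := ChainC_br k1
  obtain ⟨B, k7, k8⟩ := ChainC_ct k5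
  refine ⟨B, k7, ?_, ?_, ?_, ?_⟩
  · rw [k8 0 (by omega), k2 0 (by omega)]
    exact h0
  · rw [k8 n (by omega), k6, k2 (n + 1) (by omega)]
    exact h1
  · intro i hi hb
    rw [k8 i (by omega)]
    exact k3 i (by omega) hb
  · intro i hi hb
    rw [k8 (i + 1) (by omega)]
    exact k4 i (by omega) hb

/-- Going back through the second row. -/
lemma ChainC_row2 {β : ℕ → Bool} {n : ℕ} {s : St} {A : ℕ → Prop}
    (h : ChainCCol (row2 β n s) A) (h0 : A 0) (h1 : ¬ A n) :
    ∃ B, ChainCCol s B ∧ B 0 ∧ ¬ B (n + 1) ∧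
      (∀ i, i < n → β (2 * i) = true → (B (i + 1) ↔ A i)) ∧
      (∀ i, i < n → β (2 * i + 1) = true → (B (i + 1) ↔ A (i + 1))) := by
  unfold row2 at h
  rw [ev_even] at h
  obtain ⟨k5, k6⟩ := ChainC_br h
  obtain ⟨B, k1, k2, k3, k4⟩ := ChainC_up _ _ A k5
  refine ⟨B, k1, ?_, ?_, ?_, ?_⟩
  · rw [k2 0 (by omega)]
    exact h0
  · rw [k2 (n + 1) (by omega), ← k6]
    exact h1
  · intro i hi hb
    exact k3 i (by omega) hb
  · intro i hi hb
    exact k4 i (by omega) hb

/-- The bonds of the even faces of the first row. -/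
lemma ChainC_e1 (i N : ℕ) : rotE (2 * i) (2 * N) = (((i : ℤ) + N), ((N : ℤ) - i), false) := by
  unfold rotE
  rw [if_pos (by omega)]
  refine Prod.ext ?_ (Prod.ext ?_ rfl)
  · simp only
    push_cast
    omega
  · simp only
    push_cast
    omega

lemma ChainC_e2 (i N : ℕ) :
    rotE (2 * i + 1) (2 * N) = (((i : ℤ) + 1 + N), ((N : ℤ) - i - 1), true) := by
  unfold rotE
  rw [if_neg (by omega)]
  refine Prod.ext ?_ (Prod.ext ?_ rfl)
  · simp only
    push_cast
    omega
  · simp only
    push_cast
    omega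

lemma ChainC_e3 (i N : ℕ) :
    rotE (2 * i) (2 * N + 1) = (((i : ℤ) + 1 + N), ((N : ℤ) - i), true) := by
  unfold rotE
  rw [if_neg (by omega)]
  refine Prod.ext ?_ (Prod.ext ?_ rfl)
  · simp only
    push_cast
    omega
  · simp only
    push_cast
    omega

lemma ChainC_e4 (i N : ℕ) :
    rotE (2 * i + 1) (2 * N + 1) = (((i : ℤ) + 1 + N), ((N : ℤ) - i), false) := by
  unfold rotE
  rw [if_pos (by omega)]
  refine Prod.ext ?_ (Prod.ext ?_ rfl)
  · simp only
    push_cast
    omega
  · simp only
    push_cast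
    omega

/-- The colouring of the vertices. -/
lemma ChainC_col {ω : Config} {n : ℕ} (hn : 1 ≤ n) : ∀ (N : ℕ) (A : ℕ → Prop),
    ChainCCol (chain ω n N) A → A 0 → ¬ A n →
    ∃ K : Vert → Prop, (∀ v ∈ RotR n N, v.1 - v.2 = 0 → K v) ∧
      (∀ v ∈ RotR n N, v.1 - v.2 = 2 * n → ¬ K v) ∧
      (∀ i : ℕ, K (((N : ℤ) + i), ((N : ℤ) - i)) ↔ A i) ∧
      (∀ e : Edge, ω e = true → src e ∈ RotR n N → tgt e ∈ RotR n N → (K (src e) ↔ K (tgt e)))
  | 0, A, _, h0, h1 => by
    refine ⟨fun v => A ((v.1 - v.2) / 2).toNat, ?_, ?_, ?_, ?_⟩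
    · intro v _ hv
      simp only [hv]
      simpa using h0
    · intro v _ hv
      have e : ((v.1 - v.2) / 2).toNat = n := by omega
      simp only [e]
      exact h1
    · intro i
      have e : ((((0 : ℕ) : ℤ) + i - (((0 : ℕ) : ℤ) - i)) / 2).toNat = i := by omega
      simp only [e]
    · rintro ⟨x, y, b⟩ _ hs ht
      exfalso
      cases b <;> simp [RotR, src, tgt] at hs ht <;> omega
  | N + 1, A, hA, h0, h1 => by
    have hc : chain ω n (N + 1) = row2 (fun k => ω (rotE k (2 * N + 1))) n
      (row1 (fun k => ω (rotE k (2 * N))) n (chain ω n N)) := rfl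
    rw [hc] at hA
    obtain ⟨B, b1, b2, b3, b4, b5⟩ := ChainC_row2 hA h0 h1
    obtain ⟨C, c1, c2, c3, c4, c5⟩ := ChainC_row1 hn b1 b2 b3
    obtain ⟨K, k1, k2, k3, k4⟩ := ChainC_col hn N C c1 c2 c3
    refine ⟨fun v => (v.1 + v.2 ≤ 2 * N ∧ K v) ∨
      (v.1 + v.2 = 2 * N + 1 ∧ B ((v.1 - v.2 + 1) / 2).toNat) ∨
      (2 * N + 2 ≤ v.1 + v.2 ∧ A ((v.1 - v.2) / 2).toNat), ?_, ?_, ?_, ?_⟩
    · intro v hv hk
      simp only [RotR, Set.mem_ofPred_eq] at hv
      push_cast at hv
      rcases lt_trichotomy (v.1 + v.2) (2 * N + 1) with h' | h' | h'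
      · refine Or.inl ⟨by omega, k1 v ?_ hk⟩
        simp only [RotR, Set.mem_ofPred_eq]
        omega
      · omega
      · refine Or.inr (Or.inr ⟨by omega, ?_⟩)
        rw [hk]
        simpa using h0
    · intro v hv hk
      simp only [RotR, Set.mem_ofPred_eq] at hv
      push_cast at hv
      rintro (⟨h2, h3⟩ | ⟨h2, h3⟩ | ⟨h2, h3⟩)
      · refine k2 v ?_ hk h3
        simp only [RotR, Set.mem_ofPred_eq]
        omega
      · omega
      · have e : ((v.1 - v.2) / 2).toNat = n := by omega
        rw [e] at h3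
        exact h1 h3
    · intro i
      have e : ((((N + 1 : ℕ) : ℤ) + i - (((N + 1 : ℕ) : ℤ) - i)) / 2).toNat = i := by omega
      have e1 : ¬ (((N + 1 : ℕ) : ℤ) + i + (((N + 1 : ℕ) : ℤ) - i) ≤ 2 * N) := by omega
      have e2 : ¬ (((N + 1 : ℕ) : ℤ) + i + (((N + 1 : ℕ) : ℤ) - i) = 2 * N + 1) := by omega
      have e3 : (2 * N + 2 : ℤ) ≤ (((N + 1 : ℕ) : ℤ) + i + (((N + 1 : ℕ) : ℤ) - i)) := by omega
      simp only [e, e1, e2, e3, false_and, true_and, false_or]
    · rintro ⟨x, y, b⟩ hω hs ht
      simp only [RotR, Set.mem_ofPred_eq] at hs ht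
      push_cast at hs ht
      have hsx : src (x, y, b) = (x, y) := rfl
      rw [hsx] at hs ⊢
      have g1 : ¬ (2 * (N : ℤ) + 1 ≤ 2 * N) := by omega
      have g3 : ¬ (2 * (N : ℤ) + 2 ≤ 2 * N + 1) := by omega
      -- the level of the source
      rcases lt_trichotomy (x + y) (2 * N) with h' | h' | h'
      · -- old edge
        have hts : (tgt (x, y, b)).1 + (tgt (x, y, b)).2 = x + y + 1 := by
          cases b <;> simp [tgt] <;> ring
        have e1 : (x + y ≤ 2 * (N : ℤ)) := by omega
        have e2 : (x + y ≠ 2 * (N : ℤ) + 1) := by omega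
        have e3 : ¬ (2 * (N : ℤ) + 2 ≤ x + y) := by omega
        have f1 : (tgt (x, y, b)).1 + (tgt (x, y, b)).2 ≤ 2 * (N : ℤ) := by omega
        have f2 : (tgt (x, y, b)).1 + (tgt (x, y, b)).2 ≠ 2 * (N : ℤ) + 1 := by omega
        have f3 : ¬ (2 * (N : ℤ) + 2 ≤ (tgt (x, y, b)).1 + (tgt (x, y, b)).2) := by omega
        simp only [e1, e2, e3, f1, f2, f3, true_and, false_and, or_false]
        refine k4 (x, y, b) hω ?_ ?_
        · simp only [RotR, Set.mem_ofPred_eq, hsx]
          omega
        · simp only [RotR, Set.mem_ofPred_eq]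
          omega
      · -- first row
        have e1 : (x + y ≤ 2 * (N : ℤ)) := by omega
        have e2 : (x + y ≠ 2 * (N : ℤ) + 1) := by omega
        have e3 : ¬ (2 * (N : ℤ) + 2 ≤ x + y) := by omega
        simp only [e1, e2, e3, true_and, false_and, or_false]
        cases b with
        | false =>
          have ht' : tgt (x, y, false) = (x + 1, y) := rfl
          rw [ht'] at ht ⊢
          simp only at ht ⊢
          obtain ⟨i, hi⟩ : ∃ i : ℕ, x = N + i := ⟨(x - N).toNat, by omega⟩
          have hy : y = N - i := by omega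
          have f1 : ¬ (x + 1 + y ≤ 2 * (N : ℤ)) := by omega
          have f2 : (x + 1 + y = 2 * (N : ℤ) + 1) := by omega
          have f3 : ¬ (2 * (N : ℤ) + 2 ≤ x + 1 + y) := by omega
          have f4 : ((x + 1 - y + 1) / 2).toNat = i + 1 := by omega
          simp only [f2, f4, g1, g3, true_and, false_and, or_false, false_or]
          have hi' : i < n := by omega
          rw [hi, hy, k3 i]
          refine c4 i hi' ?_
          show ω (rotE (2 * i) (2 * N)) = true
          rw [ChainC_e1, ← hy, add_comm, ← hi]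
          exact hω
        | true =>
          have ht' : tgt (x, y, true) = (x, y + 1) := rfl
          rw [ht'] at ht ⊢
          simp only at ht ⊢
          obtain ⟨i, hi⟩ : ∃ i : ℕ, x = N + (i + 1) := ⟨(x - N - 1).toNat, by omega⟩
          have hy : y = N - (i + 1) := by omega
          have f1 : ¬ (x + (y + 1) ≤ 2 * (N : ℤ)) := by omega
          have f2 : (x + (y + 1) = 2 * (N : ℤ) + 1) := by omega
          have f3 : ¬ (2 * (N : ℤ) + 2 ≤ x + (y + 1)) := by omega
          have f4 : ((x - (y + 1) + 1) / 2).toNat = i + 1 := by omega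
          simp only [f2, f4, g1, g3, true_and, false_and, or_false, false_or]
          have hi' : i < n := by omega
          have hk3 := k3 (i + 1)
          push_cast at hk3
          rw [← hy, ← hi] at hk3
          rw [hk3]
          refine c5 i hi' ?_
          show ω (rotE (2 * i + 1) (2 * N)) = true
          have e5 : rotE (2 * i + 1) (2 * N) = (x, y, true) := by
            rw [ChainC_e2, hi, hy]
            refine Prod.ext ?_ (Prod.ext ?_ rfl) <;> simp only <;> ring
          rw [e5]
          exact hω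
      · rcases lt_trichotomy (x + y) (2 * N + 1) with h'' | h'' | h''
        · omega
        · -- second row
          have e1 : ¬ (x + y ≤ 2 * (N : ℤ)) := by omega
          have e3 : ¬ (2 * (N : ℤ) + 2 ≤ x + y) := by omega
          simp only [g1, g3, h'', true_and, false_and, or_false, false_or]
          cases b with
          | false =>
            have ht' : tgt (x, y, false) = (x + 1, y) := rfl
            rw [ht'] at ht ⊢
            simp only at ht ⊢
            obtain ⟨i, hi⟩ : ∃ i : ℕ, x = N + (i + 1) := ⟨(x - N - 1).toNat, by omega⟩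
            have hy : y = N - i := by omega
            have f0 : ((x - y + 1) / 2).toNat = i + 1 := by omega
            have f1 : ¬ (x + 1 + y ≤ 2 * (N : ℤ)) := by omega
            have f2 : ¬ (x + 1 + y = 2 * (N : ℤ) + 1) := by omega
            have f3 : (2 * (N : ℤ) + 2 ≤ x + 1 + y) := by omega
            have f4 : ((x + 1 - y) / 2).toNat = i + 1 := by omega
            simp only [f0, f1, f2, f3, f4, true_and, false_and, false_or]
            have hi' : i < n := by omega
            refine b5 i hi' ?_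
            show ω (rotE (2 * i + 1) (2 * N + 1)) = true
            have e5 : rotE (2 * i + 1) (2 * N + 1) = (x, y, false) := by
              rw [ChainC_e4, hi, hy]
              refine Prod.ext ?_ rfl
              simp only
              ring
            rw [e5]
            exact hω
          | true =>
            have ht' : tgt (x, y, true) = (x, y + 1) := rfl
            rw [ht'] at ht ⊢
            simp only at ht ⊢
            obtain ⟨i, hi⟩ : ∃ i : ℕ, x = N + (i + 1) := ⟨(x - N - 1).toNat, by omega⟩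
            have hy : y = N - i := by omega
            have f0 : ((x - y + 1) / 2).toNat = i + 1 := by omega
            have f1 : ¬ (x + (y + 1) ≤ 2 * (N : ℤ)) := by omega
            have f2 : ¬ (x + (y + 1) = 2 * (N : ℤ) + 1) := by omega
            have f3 : (2 * (N : ℤ) + 2 ≤ x + (y + 1)) := by omega
            have f4 : ((x - (y + 1)) / 2).toNat = i := by omega
            simp only [f0, f1, f2, f3, f4, true_and, false_and, false_or]
            have hi' : i < n := by omega
            refine b4 i hi' ?_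
            show ω (rotE (2 * i) (2 * N + 1)) = true
            have e5 : rotE (2 * i) (2 * N + 1) = (x, y, true) := by
              rw [ChainC_e3, hi, hy]
              refine Prod.ext ?_ rfl
              simp only
              ring
            rw [e5]
            exact hω
        · exfalso
          have hts : (tgt (x, y, b)).1 + (tgt (x, y, b)).2 = x + y + 1 := by
            cases b <;> simp [tgt] <;> ring
          omega

theorem chain_of_cross {ω : Config} {n N : ℕ} (hn : 1 ≤ n) (h : RotCross ω n N) :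
    J n (chain ω n N) = 0 := by
  by_contra hJ
  rw [J_eq_zero_iff'] at hJ
  push Not at hJ
  obtain ⟨g, hg, hU⟩ := hJ
  set s := chain ω n N with hs
  have hA : ChainCCol s (fun x => ∃ i, i ≤ g ∧ s.r i x) := by
    intro x y hxy
    constructor
    · rintro ⟨i, hi, h⟩
      exact ⟨i, hi, s.trans' _ _ _ h hxy⟩
    · rintro ⟨i, hi, h⟩
      exact ⟨i, hi, s.trans' _ _ _ h (s.symm' _ _ hxy)⟩
  obtain ⟨K, k1, k2, -, k4⟩ := ChainC_col hn N _ hA ⟨0, by omega, s.rfl' 0⟩
    (by
      rintro ⟨i, hi, h⟩
      exact hU i n hi hg le_rfl h)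
  obtain ⟨a, b, ha, hb, hab⟩ := h
  have hKa : K a := k1 a hab.mem_left ha
  have hKb : ¬ K b := k2 b hab.mem_right hb
  refine hKb (hab.induction_right hKa ?_)
  rintro u v - ⟨hu, hv, e, he, ho⟩ hK
  rcases he with ⟨h1, h2⟩ | ⟨h1, h2⟩
  · subst h1 h2
    exact (k4 e ho hu hv).1 hK
  · subst h1 h2
    exact (k4 e ho hv hu).2 hK

end Pool.Agent.H29.STP
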