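import Pool.Agent.H29.STP.Pos
import Pool.Agent.H29.STP.ChainDef

/-!
# The law of the chain
-/

open MeasureTheory ProbabilityTheory unitInterval

namespace Pool.Agent.H29.STP

open Pool.Agent.H89.Perc

theorem rotE_inj {k m k' m' : ℕ} (h : rotE k m = rotE k' m') : k = k' ∧ m = m' := by
  unfold rotE at h
  split_ifs at h with h1 h2 h2
  · simp only [Prod.mk.injEq, and_true] at h
    omega
  · simp at h
  · simp at h
  · simp only [Prod.mk.injEq, and_true] at h
    omega

/-- An instruction: the generator number `i.1`, applied always or (when `i.2` is a bond) according to the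
state of the bond. -/
abbrev ChainPInstr : Type := ℕ × Option Edge

/-- Execution of one instruction. -/
def ChainPstep (ω : Config) (s : St) (i : ChainPInstr) : St :=
  match i.2 with
  | none => ev i.1 s
  | some e => act (ω e) i.1 s

/-- Execution of a list of instructions. -/
def ChainPrun (ω : Config) (l : List ChainPInstr) (s : St) : St := l.foldl (ChainPstep ω) s

/-- The operator of an instruction. -/
noncomputable def ChainPop1 (i : ChainPInstr) : Op :=
  match i.2 with
  | none => E i.1
  | some _ => F i.1

/-- The operator of a list of instructions. -/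
noncomputable def ChainPop (l : List ChainPInstr) : Op := (l.map ChainPop1).prod

/-- The bonds used by a list of instructions. -/
def ChainPedges (l : List ChainPInstr) : List Edge := l.filterMap (fun i => i.2)

theorem ChainPrun_congr {ω ω' : Config} (l : List ChainPInstr)
    (h : ∀ e ∈ ChainPedges l, ω e = ω' e) (s : St) : ChainPrun ω l s = ChainPrun ω' l s := by
  induction l generalizing s with
  | nil => rfl
  | cons i l ih =>
    have hl : ∀ e ∈ ChainPedges l, ω e = ω' e := by
      intro e he
      refine h e ?_
      unfold ChainPedges at he ⊢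
      rw [List.filterMap_cons]
      cases i.2 with
      | none => exact he
      | some e' => exact List.mem_cons_of_mem _ he
    have hstep : ChainPstep ω s i = ChainPstep ω' s i := by
      obtain ⟨j, o⟩ := i
      cases o with
      | none => rfl
      | some e =>
        have : ω e = ω' e := h e (by simp [ChainPedges])
        simp [ChainPstep, this]
    change ChainPrun ω l (ChainPstep ω s i) = ChainPrun ω' l (ChainPstep ω' s i)
    rw [hstep]
    exact ih hl _

theorem ChainPrun_local (l : List ChainPInstr) (T : Set St) (s : St) :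
    LocalOn (ChainPedges l).toFinset {ω | ChainPrun ω l s ∈ T} := by
  intro ω ω' h hA
  have : ChainPrun ω l s = ChainPrun ω' l s :=
    ChainPrun_congr l (fun e he => h e (List.mem_toFinset.2 he)) s
  change ChainPrun ω' l s ∈ T
  rw [← this]
  exact hA

theorem ChainP_main (T : Set St) (l : List ChainPInstr) (hl : (ChainPedges l).Nodup) (s : St) :
    ChainPop l (T.indicator (fun _ => (1 : ℝ))) s = Pr half {ω | ChainPrun ω l s ∈ T} := by
  induction l generalizing s with
  | nil =>
    by_cases h : s ∈ T
    · have e1 : {ω : Config | ChainPrun ω [] s ∈ T} = Set.univ := by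
        ext ω
        simp [ChainPrun, h]
      rw [e1, Pr_univ]
      simp [ChainPop, h]
    · have e1 : {ω : Config | ChainPrun ω [] s ∈ T} = ∅ := by
        ext ω
        simp [ChainPrun, h]
      rw [e1]
      simp [ChainPop, h, Pr]
  | cons i l ih =>
    obtain ⟨j, o⟩ := i
    cases o with
    | none =>
      have e0 : ChainPedges ((j, none) :: l) = ChainPedges l := by simp [ChainPedges]
      rw [e0] at hl
      have e1 : ChainPop ((j, none) :: l) (T.indicator (fun _ => (1 : ℝ))) s
          = ChainPop l (T.indicator (fun _ => (1 : ℝ))) (ev j s) := by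
        simp [ChainPop, ChainPop1]
      rw [e1, ih hl]
      rfl
    | some e =>
      have e0 : ChainPedges ((j, some e) :: l) = e :: ChainPedges l := by simp [ChainPedges]
      rw [e0, List.nodup_cons] at hl
      have e1 : ChainPop ((j, some e) :: l) (T.indicator (fun _ => (1 : ℝ))) s
          = (ChainPop l (T.indicator (fun _ => (1 : ℝ))) s
            + ChainPop l (T.indicator (fun _ => (1 : ℝ))) (ev j s)) / 2 := by
        have : ChainPop ((j, some e) :: l) = F j * ChainPop l := by simp [ChainPop, ChainPop1]
        rw [this, Module.End.mul_apply, F_apply]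
      rw [e1, ih hl.2, ih hl.2]
      rw [Pr_eq_update (ChainPrun_local ((j, some e) :: l) T s) e]
      have hup : ∀ (b : Bool), {ω : Config | Function.update ω e b ∈
          {ω | ChainPrun ω ((j, some e) :: l) s ∈ T}} = {ω | ChainPrun ω l (act b j s) ∈ T} := by
        intro b
        ext ω
        have h1 : ChainPrun (Function.update ω e b) ((j, some e) :: l) s
            = ChainPrun (Function.update ω e b) l (act b j s) := by
          simp [ChainPrun, ChainPstep]
        have h2 : ChainPrun (Function.update ω e b) l (act b j s)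
            = ChainPrun ω l (act b j s) := by
          refine ChainPrun_congr l (fun e' he' => ?_) _
          have : e' ≠ e := fun h => hl.1 (h ▸ he')
          rw [Function.update_of_ne this]
        change ChainPrun (Function.update ω e b) ((j, some e) :: l) s ∈ T ↔ _
        rw [h1, h2]
        rfl
      rw [hup true, hup false]
      have hh : ((half : I) : ℝ) = 1 / 2 := rfl
      rw [hh]
      by_cases hj : j % 2 = 0
      · have a1 : act true j s = ev j s := by simp [act, hj]
        have a2 : act false j s = s := by simp [act, hj]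
        rw [a1, a2]
        ring
      · have a1 : act true j s = s := by simp [act, hj]
        have a2 : act false j s = ev j s := by simp [act, hj]
        rw [a1, a2]
        ring

/-- The faces `m - 1, ..., 0` of the row number `r`. -/
def ChainPdn (r : ℕ) : ℕ → List ChainPInstr
  | 0 => []
  | m + 1 => (m, some (rotE m r)) :: ChainPdn r m

/-- The faces `0, ..., m - 1` of the row number `r`. -/
def ChainPup (r : ℕ) : ℕ → List ChainPInstr
  | 0 => []
  | m + 1 => ChainPup r m ++ [(m, some (rotE m r))]

/-- The double row number `N`. -/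
def ChainProw (n N : ℕ) : List ChainPInstr :=
  ((2 * n + 1, none) :: (2 * n, none) :: ChainPdn (2 * N) (2 * n))
    ++ (ChainPup (2 * N + 1) (2 * n) ++ [(2 * n, none)])

/-- The first `N` double rows. -/
def ChainPall (n : ℕ) : ℕ → List ChainPInstr
  | 0 => []
  | N + 1 => ChainPall n N ++ ChainProw n N

theorem ChainPop_append (l l' : List ChainPInstr) :
    ChainPop (l ++ l') = ChainPop l * ChainPop l' := by
  simp [ChainPop]

theorem ChainPrun_append (ω : Config) (l l' : List ChainPInstr) (s : St) :
    ChainPrun ω (l ++ l') s = ChainPrun ω l' (ChainPrun ω l s) := by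
  simp [ChainPrun]

theorem ChainPop_dn (r m : ℕ) : ChainPop (ChainPdn r m) = dn m := by
  induction m with
  | zero => rfl
  | succ m ih =>
    have : ChainPop (ChainPdn r (m + 1)) = F m * ChainPop (ChainPdn r m) := by
      simp [ChainPop, ChainPdn, ChainPop1]
    rw [this, ih]
    rfl

theorem ChainPop_up (r m : ℕ) : ChainPop (ChainPup r m) = up m := by
  induction m with
  | zero => rfl
  | succ m ih =>
    have : ChainPop (ChainPup r (m + 1)) = ChainPop (ChainPup r m) * F m := by
      simp [ChainPop, ChainPup, ChainPop1]
    rw [this, ih]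
    rfl

theorem ChainPop_row (n N : ℕ) : ChainPop (ChainProw n N) = DD n := by
  unfold ChainProw
  rw [ChainPop_append, ChainPop_append]
  have e1 : ChainPop ((2 * n + 1, none) :: (2 * n, none) :: ChainPdn (2 * N) (2 * n))
      = E (2 * n + 1) * (E (2 * n) * ChainPop (ChainPdn (2 * N) (2 * n))) := by
    simp [ChainPop, ChainPop1]
  have e2 : ChainPop [(2 * n, none)] = E (2 * n) := by
    simp [ChainPop, ChainPop1]
  rw [e1, e2, ChainPop_dn, ChainPop_up]
  rfl

theorem ChainPop_all (n N : ℕ) : ChainPop (ChainPall n N) = DD n ^ N := by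
  induction N with
  | zero => rfl
  | succ N ih =>
    change ChainPop (ChainPall n N ++ ChainProw n N) = _
    rw [ChainPop_append, ih, ChainPop_row, pow_succ]

theorem ChainPrun_dn (ω : Config) (r m : ℕ) (s : St) :
    ChainPrun ω (ChainPdn r m) s = dnRow (fun k => ω (rotE k r)) m s := by
  induction m generalizing s with
  | zero => rfl
  | succ m ih =>
    have : ChainPrun ω (ChainPdn r (m + 1)) s
        = ChainPrun ω (ChainPdn r m) (act (ω (rotE m r)) m s) := rfl
    rw [this, ih]
    rfl

theorem ChainPrun_up (ω : Config) (r m : ℕ) (s : St) :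
    ChainPrun ω (ChainPup r m) s = upRow (fun k => ω (rotE k r)) m s := by
  induction m with
  | zero => rfl
  | succ m ih =>
    change ChainPrun ω (ChainPup r m ++ [(m, some (rotE m r))]) s = _
    rw [ChainPrun_append, ih]
    rfl

theorem ChainPrun_row (ω : Config) (n N : ℕ) (s : St) :
    ChainPrun ω (ChainProw n N) s = row2 (fun k => ω (rotE k (2 * N + 1))) n
      (row1 (fun k => ω (rotE k (2 * N))) n s) := by
  unfold ChainProw
  rw [ChainPrun_append, ChainPrun_append, ChainPrun_up]
  have e1 : ChainPrun ω ((2 * n + 1, none) :: (2 * n, none) :: ChainPdn (2 * N) (2 * n)) s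
      = ChainPrun ω (ChainPdn (2 * N) (2 * n)) (ev (2 * n) (ev (2 * n + 1) s)) := rfl
  rw [e1, ChainPrun_dn]
  rfl

theorem ChainPrun_all (ω : Config) (n N : ℕ) :
    ChainPrun ω (ChainPall n N) bot = chain ω n N := by
  induction N with
  | zero => rfl
  | succ N ih =>
    change ChainPrun ω (ChainPall n N ++ ChainProw n N) bot = _
    rw [ChainPrun_append, ih, ChainPrun_row]
    rfl

theorem ChainPedges_append (l l' : List ChainPInstr) :
    ChainPedges (l ++ l') = ChainPedges l ++ ChainPedges l' := by
  simp [ChainPedges]

theorem ChainPmem_dn {r m : ℕ} {e : Edge} (h : e ∈ ChainPedges (ChainPdn r m)) :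
    ∃ k < m, e = rotE k r := by
  induction m with
  | zero => simp [ChainPedges, ChainPdn] at h
  | succ m ih =>
    have h' : e = rotE m r ∨ e ∈ ChainPedges (ChainPdn r m) := by
      simpa [ChainPedges, ChainPdn] using h
    rcases h' with h' | h'
    · exact ⟨m, Nat.lt_succ_self m, h'⟩
    · obtain ⟨k, hk, he⟩ := ih h'
      exact ⟨k, by omega, he⟩

theorem ChainPmem_up {r m : ℕ} {e : Edge} (h : e ∈ ChainPedges (ChainPup r m)) :
    ∃ k < m, e = rotE k r := by
  induction m with
  | zero => simp [ChainPedges, ChainPup] at h
  | succ m ih =>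
    have h' : e ∈ ChainPedges (ChainPup r m) ∨ e = rotE m r := by
      have : ChainPedges (ChainPup r (m + 1))
          = ChainPedges (ChainPup r m) ++ ChainPedges [(m, some (rotE m r))] := by
        change ChainPedges (ChainPup r m ++ [(m, some (rotE m r))]) = _
        rw [ChainPedges_append]
      rw [this, List.mem_append] at h
      simpa [ChainPedges] using h
    rcases h' with h' | h'
    · obtain ⟨k, hk, he⟩ := ih h'
      exact ⟨k, by omega, he⟩
    · exact ⟨m, Nat.lt_succ_self m, h'⟩

theorem ChainPnodup_dn (r m : ℕ) : (ChainPedges (ChainPdn r m)).Nodup := by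
  induction m with
  | zero => simp [ChainPedges, ChainPdn]
  | succ m ih =>
    have : ChainPedges (ChainPdn r (m + 1)) = rotE m r :: ChainPedges (ChainPdn r m) := by
      simp [ChainPedges, ChainPdn]
    rw [this, List.nodup_cons]
    refine ⟨fun h => ?_, ih⟩
    obtain ⟨k, hk, he⟩ := ChainPmem_dn h
    have := (rotE_inj he).1
    omega

theorem ChainPnodup_up (r m : ℕ) : (ChainPedges (ChainPup r m)).Nodup := by
  induction m with
  | zero => simp [ChainPedges, ChainPup]
  | succ m ih =>
    have : ChainPedges (ChainPup r (m + 1))
        = ChainPedges (ChainPup r m) ++ [rotE m r] := by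
      change ChainPedges (ChainPup r m ++ [(m, some (rotE m r))]) = _
      rw [ChainPedges_append]
      simp [ChainPedges]
    rw [this, List.nodup_append]
    refine ⟨ih, by simp, ?_⟩
    intro a ha b hb hab
    obtain ⟨k, hk, he⟩ := ChainPmem_up ha
    rw [List.mem_singleton] at hb
    rw [hab, hb] at he
    have := (rotE_inj he).1
    omega

theorem ChainPedges_row (n N : ℕ) : ChainPedges (ChainProw n N)
    = ChainPedges (ChainPdn (2 * N) (2 * n)) ++ ChainPedges (ChainPup (2 * N + 1) (2 * n)) := by
  unfold ChainProw
  rw [ChainPedges_append, ChainPedges_append]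
  simp [ChainPedges]

theorem ChainPmem_row {n N : ℕ} {e : Edge} (h : e ∈ ChainPedges (ChainProw n N)) :
    ∃ k, e = rotE k (2 * N) ∨ e = rotE k (2 * N + 1) := by
  rw [ChainPedges_row, List.mem_append] at h
  rcases h with h | h
  · obtain ⟨k, _, he⟩ := ChainPmem_dn h
    exact ⟨k, Or.inl he⟩
  · obtain ⟨k, _, he⟩ := ChainPmem_up h
    exact ⟨k, Or.inr he⟩

theorem ChainPnodup_row (n N : ℕ) : (ChainPedges (ChainProw n N)).Nodup := by
  rw [ChainPedges_row, List.nodup_append]
  refine ⟨ChainPnodup_dn _ _, ChainPnodup_up _ _, ?_⟩
  intro a ha b hb hab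
  obtain ⟨k, _, he⟩ := ChainPmem_dn ha
  obtain ⟨k', _, he'⟩ := ChainPmem_up hb
  rw [hab, he'] at he
  have := (rotE_inj he).2
  omega

theorem ChainPmem_all {n N : ℕ} {e : Edge} (h : e ∈ ChainPedges (ChainPall n N)) :
    ∃ k m, m < 2 * N ∧ e = rotE k m := by
  induction N with
  | zero => simp [ChainPedges, ChainPall] at h
  | succ N ih =>
    have h' : e ∈ ChainPedges (ChainPall n N) ∨ e ∈ ChainPedges (ChainProw n N) := by
      rw [← List.mem_append, ← ChainPedges_append]
      exact h
    rcases h' with h' | h'
    · obtain ⟨k, m, hm, he⟩ := ih h'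
      exact ⟨k, m, by omega, he⟩
    · obtain ⟨k, he⟩ := ChainPmem_row h'
      rcases he with he | he
      · exact ⟨k, _, by omega, he⟩
      · exact ⟨k, _, by omega, he⟩

theorem ChainPnodup_all (n N : ℕ) : (ChainPedges (ChainPall n N)).Nodup := by
  induction N with
  | zero => simp [ChainPedges, ChainPall]
  | succ N ih =>
    change (ChainPedges (ChainPall n N ++ ChainProw n N)).Nodup
    rw [ChainPedges_append, List.nodup_append]
    refine ⟨ih, ChainPnodup_row _ _, ?_⟩
    intro a ha b hb hab
    obtain ⟨k, m, hm, he⟩ := ChainPmem_all ha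
    obtain ⟨k', he'⟩ := ChainPmem_row hb
    rw [hab] at he
    rcases he' with he' | he'
    · rw [he'] at he
      have := (rotE_inj he).2
      omega
    · rw [he'] at he
      have := (rotE_inj he).2
      omega

theorem DD_pow_eq {n : ℕ} (hn : 1 ≤ n) (N : ℕ) :
    ((DD n) ^ N) (al n) bot = Pr half {ω | J n (chain ω n N) ≠ 0} := by
  have hal : al n = ({s : St | J n s ≠ 0}).indicator (fun _ => (1 : ℝ)) := by
    funext s
    by_cases h : J n s = 0
    · simp [al, h]
    · simp [al, h]
  rw [hal, ← ChainPop_all, ChainP_main _ _ (ChainPnodup_all n N)]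
  have : ∀ ω, ChainPrun ω (ChainPall n N) bot = chain ω n N := fun ω => ChainPrun_all ω n N
  simp only [this]
  rfl

end Pool.Agent.H29.STP
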