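import Pool.Agent.H29.STP.Sup
import Pool.Agent.H29.STP.Arr

/-!
# Comparison of the two models, and submultiplicativity
-/

namespace Pool.Agent.H29.STP

theorem Cmp_P_apply (n : ℕ) (δ : ℝ) (f : St → ℝ) (s : St) :
    P n δ f s = f s - δ * H0 n f s := by
  simp [P]

theorem Cmp_H0_apply (n : ℕ) (f : St → ℝ) (s : St) :
    H0 n f s = ∑ j ∈ Finset.range (2 * n - 1), (f s - f (ev j s)) := by
  simp [H0, LinearMap.sum_apply, Finset.sum_apply]

theorem Cmp_P_apply' (n : ℕ) (δ : ℝ) (f : St → ℝ) (s : St) :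
    P n δ f s = (1 - δ * ((2 * n - 1 : ℕ) : ℝ)) * f s +
      δ * ∑ j ∈ Finset.range (2 * n - 1), f (ev j s) := by
  rw [Cmp_P_apply, Cmp_H0_apply, Finset.sum_sub_distrib, Finset.sum_const, Finset.card_range,
    nsmul_eq_mul]
  ring

theorem Cmp_cast {n : ℕ} (hn : 1 ≤ n) : ((2 * n - 1 : ℕ) : ℝ) = 2 * n - 1 := by
  have h : 1 ≤ 2 * n := by omega
  push_cast [Nat.cast_sub h]
  ring

theorem Cmp_P_one (n : ℕ) (δ : ℝ) : P n δ (fun _ => (1 : ℝ)) = fun _ => 1 := by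
  ext s
  rw [Cmp_P_apply, H0_one]
  simp

theorem Cmp_pow_fix {A : Op} {f : St → ℝ} (h : A f = f) (a : ℕ) : (A ^ a) f = f := by
  induction a with
  | zero => simp
  | succ a ih => rw [pow_succ, Module.End.mul_apply, h, ih]

theorem Cmp_DD_one (n : ℕ) : DD n (fun _ => (1 : ℝ)) = fun _ => 1 := by
  rw [DD, Module.End.mul_apply, R2_one, R1_one]

theorem P_pow_al_mem {n : ℕ} (hn : 1 ≤ n) {δ : ℝ} (h0 : 0 ≤ δ) (h1 : δ * (2 * n - 1) ≤ 1)
    (a : ℕ) : 0 ≤ ((P n δ) ^ a) (al n) bot ∧ ((P n δ) ^ a) (al n) bot ≤ 1 := by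
  have hP : Pos (P n δ) := Pos.P h0 (by rw [Cmp_cast hn]; exact h1)
  refine ⟨(hP.pow a) _ (al_nonneg n) bot, ?_⟩
  have h2 := (hP.pow a).mono (f := al n) (g := fun _ => (1 : ℝ)) (al_le_one n) bot
  rw [Cmp_pow_fix (Cmp_P_one n δ)] at h2
  exact h2

/-- The function `f` is decreasing for the refinement order. -/
def CmpAnti (f : St → ℝ) : Prop := ∀ s s', Le s s' → f s' ≤ f s

theorem Cmp_anti_P {n : ℕ} {δ : ℝ} (h0 : 0 ≤ δ) (h1 : δ * ((2 * n - 1 : ℕ) : ℝ) ≤ 1)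
    {f : St → ℝ} (hf : CmpAnti f) : CmpAnti (P n δ f) := by
  intro s s' h
  rw [Cmp_P_apply', Cmp_P_apply']
  have h2 : ∑ j ∈ Finset.range (2 * n - 1), f (ev j s') ≤
      ∑ j ∈ Finset.range (2 * n - 1), f (ev j s) :=
    Finset.sum_le_sum (fun j _ => hf _ _ (Le_ev h j))
  have h3 : (1 - δ * ((2 * n - 1 : ℕ) : ℝ)) * f s' ≤ (1 - δ * ((2 * n - 1 : ℕ) : ℝ)) * f s :=
    mul_le_mul_of_nonneg_left (hf _ _ h) (by linarith)
  have h4 := mul_le_mul_of_nonneg_left h2 h0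
  linarith

theorem Cmp_anti_al (n : ℕ) : CmpAnti (al n) := by
  intro s s' h
  unfold al
  have h2 := J_anti (m := n) h
  split_ifs with h3 h4
  · exact le_rfl
  · exact zero_le_one
  · omega
  · exact le_rfl

theorem Cmp_anti_pow {n : ℕ} {δ : ℝ} (h0 : 0 ≤ δ) (h1 : δ * ((2 * n - 1 : ℕ) : ℝ) ≤ 1)
    (b : ℕ) : CmpAnti (((P n δ) ^ b) (al n)) := by
  induction b with
  | zero => simpa using Cmp_anti_al n
  | succ b ih => rw [pow_succ', Module.End.mul_apply]; exact Cmp_anti_P h0 h1 ih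

theorem Cmp_dead_pow {n : ℕ} {δ : ℝ} (b : ℕ) :
    ∀ s, J n s = 0 → ((P n δ) ^ b) (al n) s = 0 := by
  induction b with
  | zero =>
    intro s hs
    simp [al, hs]
  | succ b ih =>
    intro s hs
    rw [pow_succ', Module.End.mul_apply, Cmp_P_apply, Cmp_H0_apply, ih s hs]
    have h : ∑ j ∈ Finset.range (2 * n - 1),
        (0 - ((P n δ) ^ b) (al n) (ev j s)) = 0 := by
      refine Finset.sum_eq_zero (fun j hj => ?_)
      rw [ih _ (J_ev_zero (Finset.mem_range.1 hj) hs), sub_zero]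
    rw [h]
    ring

theorem submult {n : ℕ} (hn : 1 ≤ n) {δ : ℝ} (h0 : 0 ≤ δ) (h1 : δ * (2 * n - 1) ≤ 1)
    (a b : ℕ) :
    ((P n δ) ^ (a + b)) (al n) bot ≤ ((P n δ) ^ a) (al n) bot * ((P n δ) ^ b) (al n) bot := by
  have h1' : δ * ((2 * n - 1 : ℕ) : ℝ) ≤ 1 := by rw [Cmp_cast hn]; exact h1
  have hP : Pos (P n δ) := Pos.P h0 h1'
  have h2 : ∀ s, ((P n δ) ^ b) (al n) s ≤ ((((P n δ) ^ b) (al n) bot) • al n) s := by
    intro s
    by_cases hs : J n s = 0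
    · rw [Cmp_dead_pow b s hs]
      simp [al, hs]
    · have h3 := Cmp_anti_pow (n := n) h0 h1' b bot s (Le_bot s)
      simpa [al, hs] using h3
  have h3 := (hP.pow a).mono h2 bot
  rw [map_smul] at h3
  rw [pow_add, Module.End.mul_apply]
  refine h3.trans (le_of_eq ?_)
  rw [Pi.smul_apply, smul_eq_mul, mul_comm]

/-- The front process survives (no left-right crossing) for a long time with probability at most
that of the rotated square lattice model, up to a small error. -/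
theorem comparison {n M N H : ℕ} (hn : 2 ≤ n) (hM : (49 / 50 : ℝ) * (2 * n - 1) ≤ M)
    (hH : 1 ≤ H) :
    ((P n (49 / 50 / M)) ^ (M * (N + 2 * H))) (al n) bot ≤
      ((DD n) ^ N) (al n) bot + 2 * N / (H : ℝ) ^ 2 := by
  have hn1 : 1 ≤ n := by omega
  have hnR : (2 : ℝ) ≤ n := by exact_mod_cast hn
  have hM0 : (0 : ℝ) < M := by linarith
  have hM1 : 1 ≤ M := by
    have : 0 < M := by exact_mod_cast hM0
    omega
  obtain ⟨δ, hδ⟩ : ∃ δ : ℝ, δ = 49 / 50 / M := ⟨_, rfl⟩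
  have h0 : 0 ≤ δ := by rw [hδ]; positivity
  have h1 : δ * (2 * n - 1) ≤ 1 := by
    rw [hδ, div_mul_eq_mul_div, div_le_one hM0]
    exact hM
  have h1' : δ * ((2 * n - 1 : ℕ) : ℝ) ≤ 1 := by rw [Cmp_cast hn1]; exact h1
  have hP : Pos (P n δ) := Pos.P h0 h1'
  have hQ : ∀ a b : ℕ, Pos ((P n δ) ^ a * (DD n) ^ b) :=
    fun a b => (hP.pow a).mul ((Pos.DD n).pow b)
  have hcomm : ∀ b : ℕ, P n δ * (DD n) ^ b = (DD n) ^ b * P n δ := by
    intro b
    exact (Commute.pow_right (P_DD hn1 δ) b)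
  have hsucc : ∀ (a b : ℕ) (f : St → ℝ), ((P n δ) ^ (a + 1) * (DD n) ^ b) f =
      ((P n δ) ^ a * (DD n) ^ b) (P n δ f) := by
    intro a b f
    rw [pow_succ, mul_assoc, hcomm, ← mul_assoc, Module.End.mul_apply]
  have hsucc' : ∀ (a b : ℕ) (f : St → ℝ), ((P n δ) ^ a * (DD n) ^ (b + 1)) f =
      ((P n δ) ^ a * (DD n) ^ b) (DD n f) := by
    intro a b f
    rw [pow_succ, ← mul_assoc, Module.End.mul_apply]
  have hsub : ∀ (a b : ℕ) (f g : St → ℝ), ((P n δ) ^ a * (DD n) ^ b) f bot -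
      ((P n δ) ^ a * (DD n) ^ b) g bot = ((P n δ) ^ a * (DD n) ^ b) (f - g) bot := by
    intro a b f g
    rw [map_sub]
    rfl
  have hsmul : ∀ (a b : ℕ) (c : ℝ) (f : St → ℝ), c * ((P n δ) ^ a * (DD n) ^ b) f bot =
      ((P n δ) ^ a * (DD n) ^ b) (c • f) bot := by
    intro a b c f
    rw [map_smul]
    rfl
  have key := array_bound (W := fun a b => ((P n δ) ^ a * (DD n) ^ b) (al n) bot)
    (G := fun a b => ((P n δ) ^ a * (DD n) ^ b) (ww n) bot)
    (Φ := fun a b => ((P n δ) ^ a * (DD n) ^ b) (FF n) bot) hM1 ?_ ?_ ?_ ?_ ?_ ?_ ?_ ?_ ?_ N H hH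
  · simpa [hδ] using key
  · intro a b
    rw [hsucc', hsub]
    exact (hQ a b).mono (fun s => al_sub_DD_le hn s) bot
  · intro a b
    rw [← hδ, hsucc, hsub, hsmul]
    refine (hQ a b).mono (fun s => ?_) bot
    rw [Pi.smul_apply, smul_eq_mul, Pi.sub_apply, Cmp_P_apply]
    have := mul_le_mul_of_nonneg_left (ww_le_H0 hn s) h0
    linarith
  · exact fun a b => hQ a b _ (fun s => ww_nonneg s) bot
  · exact fun a b => hQ a b _ (fun s => FF_nonneg hn s) bot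
  · intro a b
    rw [hsmul]
    exact (hQ a b).mono (fun s => FF_le hn s) bot
  · intro a b
    rw [hsmul, hsub]
    exact (hQ a b).mono (fun s => le_FF hn s) bot
  · exact fun a b => hQ a b _ (al_nonneg n) bot
  · intro a b
    have h2 := (hQ a b).mono (f := al n) (g := fun _ => (1 : ℝ)) (al_le_one n) bot
    have h3 : ((P n δ) ^ a * (DD n) ^ b) (fun _ => (1 : ℝ)) = fun _ => 1 := by
      rw [Module.End.mul_apply, Cmp_pow_fix (Cmp_DD_one n), Cmp_pow_fix (Cmp_P_one n δ)]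
    rw [h3] at h2
    exact h2
  · intro a b
    rw [hsucc]
    refine (hQ a b).mono (fun s => ?_) bot
    rw [Cmp_P_apply]
    have := mul_nonneg h0 (H0_al_nonneg n s)
    linarith

end Pool.Agent.H29.STP
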