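import Pool.Agent.H29.STP.Pos

/-!
# After the first row: one unstraddled gap, at a side
-/

namespace Pool.Agent.H29.STP

/-- `b` if there is exactly one unstraddled gap, `0` otherwise. -/
noncomputable def t1 (m : ℕ) : St → ℝ := fun s => if J m s = 1 then (bb m s : ℝ) else 0

open Classical in
/-- Number of unstraddled gaps below `k`. -/
noncomputable def Coup_cnt (m : ℕ) (s : St) (k : ℕ) : ℕ :=
  ((Finset.range k).filter (U m s)).card

theorem Coup_cnt_mono {m k : ℕ} {s s' : St} (h : ∀ g < k, U m s g → U m s' g) :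
    Coup_cnt m s k ≤ Coup_cnt m s' k := by
  classical
  unfold Coup_cnt
  apply Finset.card_le_card
  intro g hg
  rw [Finset.mem_filter, Finset.mem_range] at hg ⊢
  exact ⟨hg.1, h g hg.1 hg.2⟩

theorem Coup_cnt_congr {m k : ℕ} {s s' : St} (h : ∀ g < k, U m s g ↔ U m s' g) :
    Coup_cnt m s k = Coup_cnt m s' k :=
  le_antisymm (Coup_cnt_mono fun g hg => (h g hg).1) (Coup_cnt_mono fun g hg => (h g hg).2)

theorem Coup_cnt_succ_pos {m k : ℕ} {s : St} (h : U m s k) :
    Coup_cnt m s (k + 1) = Coup_cnt m s k + 1 := by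
  classical
  unfold Coup_cnt
  rw [Finset.range_add_one, Finset.filter_insert, if_pos h, Finset.card_insert_of_notMem]
  simp

theorem Coup_cnt_succ_neg {m k : ℕ} {s : St} (h : ¬ U m s k) :
    Coup_cnt m s (k + 1) = Coup_cnt m s k := by
  classical
  unfold Coup_cnt
  rw [Finset.range_add_one, Finset.filter_insert, if_neg h]

/-- The two faces `2 k + 1` and `2 k`. -/
theorem Coup_dn_step (k : ℕ) (f : St → ℝ) (s : St) :
    dn (2 * (k + 1)) f s =
      (dn (2 * k) f s + dn (2 * k) f (br k s) + dn (2 * k) f (ct (k + 1) s) +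
        dn (2 * k) f (br k (ct (k + 1) s))) / 4 := by
  have h : dn (2 * (k + 1)) = F (2 * k + 1) * (F (2 * k) * dn (2 * k)) := rfl
  rw [h]
  simp only [Module.End.mul_apply, F_apply, ev_even, ev_odd]
  ring

open Classical in
/-- The indicator of the event that the only unstraddled gap is the gap `a`. -/
noncomputable def Coup_t (m a : ℕ) : St → ℝ := fun s => if J m s = 1 ∧ U m s a then 1 else 0

open Classical in
/-- The bound: the gap `a` is not straddled, the other gaps `g` with `k ≤ g < m` are, and each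
unstraddled gap below `k` costs a factor `1 / 4`. -/
noncomputable def Coup_B (m a k : ℕ) (s : St) : ℝ :=
  if U m s a ∧ ∀ g, k ≤ g → g < m → g ≠ a → ¬ U m s g then (1 / 4) ^ Coup_cnt m s k else 0

theorem Coup_B_nonneg (m a k : ℕ) (s : St) : 0 ≤ Coup_B m a k s := by
  unfold Coup_B
  split_ifs
  · positivity
  · exact le_rfl

theorem Coup_t_unique {m a g : ℕ} {s : St} (hJ : J m s = 1) (ha : a < m) (hUa : U m s a)
    (hg : g < m) (hUg : U m s g) : g = a := by
  classical
  unfold J at hJ
  rw [Finset.card_eq_one] at hJ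
  obtain ⟨x, hx⟩ := hJ
  have h1 : a ∈ (Finset.range m).filter (U m s) := by
    rw [Finset.mem_filter, Finset.mem_range]; exact ⟨ha, hUa⟩
  have h2 : g ∈ (Finset.range m).filter (U m s) := by
    rw [Finset.mem_filter, Finset.mem_range]; exact ⟨hg, hUg⟩
  rw [hx, Finset.mem_singleton] at h1 h2
  rw [h1, h2]

/-- One step of the induction. -/
theorem Coup_step {m a k : ℕ} {D : St → ℝ} (hk : k + 1 < m) (hka : k ≠ a) (hka' : k + 1 ≠ a)
    (hD : ∀ s, D s ≤ Coup_B m a k s) (s : St) :
    (D s + D (br k s) + D (ct (k + 1) s) + D (br k (ct (k + 1) s))) / 4 ≤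
      Coup_B m a (k + 1) s := by
  classical
  have hz : ∀ s' : St, (∃ g, k ≤ g ∧ g < m ∧ g ≠ a ∧ U m s' g) → D s' ≤ 0 := by
    rintro s' ⟨g, h1, h2, h3, h4⟩
    refine (hD s').trans (le_of_eq ?_)
    unfold Coup_B
    rw [if_neg]
    rintro ⟨-, h⟩
    exact h g h1 h2 h3 h4
  by_cases hA : ∃ g, k + 1 ≤ g ∧ g < m ∧ g ≠ a ∧ U m s g
  · obtain ⟨g, h1, h2, h3, h4⟩ := hA
    have e1 := hz s ⟨g, by omega, h2, h3, h4⟩
    have e2 := hz (br k s) ⟨g, by omega, h2, h3, (U_br (by omega) h2).2 ⟨h4, by omega⟩⟩
    have e3 := hz (ct (k + 1) s) ⟨g, by omega, h2, h3, U_ct_mono h4⟩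
    have e4 := hz (br k (ct (k + 1) s))
      ⟨g, by omega, h2, h3, (U_br (by omega) h2).2 ⟨U_ct_mono h4, by omega⟩⟩
    have e5 := Coup_B_nonneg m a (k + 1) s
    linarith
  · have hA' : ∀ g, k + 1 ≤ g → g < m → g ≠ a → ¬ U m s g := by
      intro g h1 h2 h3 h4
      exact hA ⟨g, h1, h2, h3, h4⟩
    by_cases hU : U m s k
    · have e1 := hz s ⟨k, le_rfl, by omega, hka, hU⟩
      have e3 := hz (ct (k + 1) s) ⟨k + 1, by omega, hk, hka', U_ct_right hU⟩
      have e4 := hz (br k (ct (k + 1) s))
        ⟨k + 1, by omega, hk, hka', (U_br (by omega) hk).2 ⟨U_ct_right hU, by omega⟩⟩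
      have e2 : D (br k s) ≤ 4 * Coup_B m a (k + 1) s := by
        refine (hD _).trans ?_
        unfold Coup_B
        by_cases hUa : U m s a
        · rw [if_pos (⟨hUa, hA'⟩ : U m s a ∧ ∀ g, k + 1 ≤ g → g < m → g ≠ a → ¬ U m s g)]
          rw [Coup_cnt_succ_pos hU]
          have hc : Coup_cnt m (br k s) k = Coup_cnt m s k := by
            apply Coup_cnt_congr
            intro g hg
            rw [U_br (by omega) (by omega)]
            constructor
            · exact fun h => h.1
            · exact fun h => ⟨h, by omega⟩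
          rw [hc]
          split_ifs
          · rw [pow_succ]
            apply le_of_eq
            ring
          · positivity
        · rw [if_neg, if_neg]
          · simp
          · rintro ⟨h, -⟩
            exact hUa h
          · rintro ⟨h, -⟩
            by_cases ham : a < m
            · exact hUa ((U_br (by omega) ham).1 h).1
            · exact hUa (fun i j h1 h2 h3 => by omega)
      linarith
    · have hU1 : ¬ U m s (k + 1) := hA' (k + 1) le_rfl hk hka'
      have hct : ∀ g < m, U m (ct (k + 1) s) g ↔ U m s g := fun g hg =>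
        U_ct_eq hk hg (iff_of_false hU hU1)
      have hbr : ∀ s' : St, (∀ g < m, U m s' g ↔ U m s g) → ∀ g < m, U m (br k s') g ↔ U m s g := by
        intro s' hs' g hg
        rw [U_br (by omega) hg, hs' g hg]
        constructor
        · exact fun h => h.1
        · intro h
          refine ⟨h, ?_⟩
          rintro rfl
          exact hU h
      have key : ∀ s' : St, (∀ g < m, U m s' g ↔ U m s g) → D s' ≤ Coup_B m a (k + 1) s := by
        intro s' hs'
        refine (hD s').trans ?_
        unfold Coup_B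
        have hc : Coup_cnt m s' k = Coup_cnt m s (k + 1) := by
          rw [Coup_cnt_succ_neg hU]
          exact Coup_cnt_congr fun g hg => hs' g (by omega)
        by_cases hUa : U m s a
        · rw [if_pos (⟨hUa, hA'⟩ : U m s a ∧ ∀ g, k + 1 ≤ g → g < m → g ≠ a → ¬ U m s g), hc]
          split_ifs
          · exact le_rfl
          · positivity
        · rw [if_neg, if_neg]
          · rintro ⟨h, -⟩
            exact hUa h
          · rintro ⟨h, -⟩
            by_cases ham : a < m
            · exact hUa ((hs' a ham).1 h)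
            · exact hUa (fun i j h1 h2 h3 => by omega)
      have e1 := key s (fun g _ => Iff.rfl)
      have e2 := key (br k s) (hbr s (fun g _ => Iff.rfl))
      have e3 := key (ct (k + 1) s) hct
      have e4 := key (br k (ct (k + 1) s)) (hbr _ hct)
      linarith

/-- The left side gap. -/
theorem Coup_left {m k : ℕ} (hk : k + 1 < m) (s : St) :
    dn (2 * (k + 1)) (Coup_t m 0) s ≤ Coup_B m 0 (k + 1) s := by
  classical
  induction k generalizing s with
  | zero =>
    rw [Coup_dn_step]
    have hd : dn (2 * 0) = (1 : Op) := rfl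
    rw [hd]
    simp only [Module.End.one_apply]
    have e2 : Coup_t m 0 (br 0 s) = 0 := by
      unfold Coup_t
      rw [if_neg]
      rintro ⟨-, h⟩
      exact ((U_br (by omega) (by omega)).1 h).2 rfl
    have e4 : Coup_t m 0 (br 0 (ct (0 + 1) s)) = 0 := by
      unfold Coup_t
      rw [if_neg]
      rintro ⟨-, h⟩
      exact ((U_br (by omega) (by omega)).1 h).2 rfl
    rw [e2, e4]
    by_cases hU : U m s 0
    · have e3 : Coup_t m 0 (ct (0 + 1) s) = 0 := by
        unfold Coup_t
        rw [if_neg]
        rintro ⟨h1, h2⟩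
        have := Coup_t_unique h1 (by omega) h2 hk (U_ct_right hU)
        omega
      rw [e3]
      unfold Coup_t Coup_B
      have hc : Coup_cnt m s (0 + 1) = 1 := by
        rw [Coup_cnt_succ_pos hU]
        simp [Coup_cnt]
      rw [hc]
      by_cases hJ : J m s = 1
      · rw [if_pos ⟨hJ, hU⟩, if_pos]
        · norm_num
        · refine ⟨hU, ?_⟩
          intro g h1 h2 h3 h4
          exact h3 (Coup_t_unique hJ (by omega) hU h2 h4)
      · rw [if_neg (fun h => hJ h.1)]
        split_ifs
        · norm_num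
        · norm_num
    · have e1 : Coup_t m 0 s = 0 := by
        unfold Coup_t
        rw [if_neg (fun h => hU h.2)]
      have e3 : Coup_t m 0 (ct (0 + 1) s) = 0 := by
        unfold Coup_t
        rw [if_neg]
        rintro ⟨h1, h2⟩
        by_cases hU1 : U m s (0 + 1)
        · have := Coup_t_unique h1 (by omega) h2 hk (U_ct_mono hU1)
          omega
        · exact hU ((U_ct_eq hk (by omega) (iff_of_false hU hU1)).1 h2)
      rw [e1, e3]
      have := Coup_B_nonneg m 0 (0 + 1) s
      linarith
  | succ k ih =>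
    rw [Coup_dn_step]
    exact Coup_step hk (by omega) (by omega) (fun s => ih (by omega) s) s

/-- The right side gap. -/
theorem Coup_right {n k : ℕ} (hk : k + 1 ≤ n) (s : St) :
    dn (2 * k) (Coup_t (n + 1) n) s ≤ Coup_B (n + 1) n k s := by
  classical
  induction k generalizing s with
  | zero =>
    have hd : dn (2 * 0) = (1 : Op) := rfl
    rw [hd]
    simp only [Module.End.one_apply]
    unfold Coup_t Coup_B
    split_ifs with h1 h2 h2
    · simp [Coup_cnt]
    · exfalso
      apply h2
      refine ⟨h1.2, ?_⟩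
      intro g _ h3 h4 h5
      exact h4 (Coup_t_unique h1.1 (by omega) h1.2 h3 h5)
    · positivity
    · exact le_rfl
  | succ k ih =>
    rw [Coup_dn_step]
    exact Coup_step (by omega) (by omega) (by omega) (fun s => ih (by omega) s) s

/-- The gaps below `n` before and after the duplication of the right column. -/
theorem Coup_dup_lt {n : ℕ} (s : St) {g : ℕ} (hg : g < n) :
    U (n + 1) (br n (ct (n + 1) s)) g ↔ U n s g := by
  rw [U_br (by omega) (by omega)]
  constructor
  · rintro ⟨h, -⟩ i j h1 h2 h3 h4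
    exact h i j h1 h2 (by omega) (Or.inr ⟨by omega, by omega, h4⟩)
  · intro h
    refine ⟨?_, by omega⟩
    rintro i j h1 h2 h3 (h4 | ⟨h4, h5, h6⟩)
    · omega
    · exact h i j h1 h2 (by omega) h6

theorem Coup_dup_n {n : ℕ} (s : St) : ¬ U (n + 1) (br n (ct (n + 1) s)) n := by
  rw [U_br (by omega) (by omega)]
  rintro ⟨-, h⟩
  exact h rfl

theorem Coup_J_eq {n : ℕ} (s : St) : Coup_cnt (n + 1) (br n (ct (n + 1) s)) n = J n s := by
  classical
  unfold Coup_cnt J
  congr 1
  apply Finset.filter_congr
  intro g hg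
  rw [Finset.mem_range] at hg
  exact Coup_dup_lt s hg

theorem coup {n : ℕ} (hn : 2 ≤ n) (s : St) :
    R1 n (t1 (n + 1)) s ≤ (1 / 4 : ℝ) ^ J n s * bb n s := by
  classical
  have ht : t1 (n + 1) = Coup_t (n + 1) 0 + Coup_t (n + 1) n := by
    funext s
    simp only [Pi.add_apply, t1, Coup_t, bb, Nat.add_sub_cancel]
    by_cases hJ : J (n + 1) s = 1
    · simp only [hJ, true_and, if_true]
      push_cast
      rfl
    · simp [hJ]
  have hR : ∀ f : St → ℝ, R1 n f s = dn (2 * n) f (br n (ct (n + 1) s)) := by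
    intro f
    simp only [R1, Module.End.mul_apply, E_apply, ev_even, ev_odd]
  rw [ht, map_add, Pi.add_apply, hR, hR]
  set s' := br n (ct (n + 1) s) with hs'
  have hcnt : Coup_cnt (n + 1) s' n = J n s := Coup_J_eq s
  have hlt : ∀ g < n, (U (n + 1) s' g ↔ U n s g) := fun g hg => Coup_dup_lt s hg
  have hnn : ¬ U (n + 1) s' n := Coup_dup_n s
  have hL : dn (2 * n) (Coup_t (n + 1) 0) s' ≤
      (1 / 4 : ℝ) ^ J n s * (if U n s 0 then 1 else 0) := by
    obtain ⟨k, rfl⟩ : ∃ k, n = k + 1 := ⟨n - 1, by omega⟩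
    refine (Coup_left (by omega) s').trans ?_
    unfold Coup_B
    rw [hcnt]
    by_cases h0 : U (k + 1) s 0
    · rw [if_pos h0]
      split_ifs
      · simp
      · positivity
    · rw [if_neg h0, if_neg]
      · simp
      · rintro ⟨h, -⟩
        exact h0 ((hlt 0 (by omega)).1 h)
  have hRt : dn (2 * n) (Coup_t (n + 1) n) s' ≤
      (1 / 4 : ℝ) ^ J n s * (if U n s (n - 1) then 1 else 0) := by
    obtain ⟨k, rfl⟩ : ∃ k, n = k + 1 := ⟨n - 1, by omega⟩
    rw [Coup_dn_step]
    have hD : ∀ s : St, dn (2 * k) (Coup_t (k + 1 + 1) (k + 1)) s ≤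
        Coup_B (k + 1 + 1) (k + 1) k s := fun s => Coup_right le_rfl s
    have hz : ∀ s1 : St, ¬ U (k + 1 + 1) s1 (k + 1) →
        dn (2 * k) (Coup_t (k + 1 + 1) (k + 1)) s1 ≤ 0 := by
      intro s1 h1
      refine (hD s1).trans (le_of_eq ?_)
      unfold Coup_B
      rw [if_neg (fun h => h1 h.1)]
    have hbr : ∀ s1 : St, ¬ U (k + 1 + 1) s1 (k + 1) → ¬ U (k + 1 + 1) (br k s1) (k + 1) := by
      intro s1 h1 h2
      exact h1 ((U_br (by omega) (by omega)).1 h2).1
    have e1 := hz s' hnn
    have e2 := hz (br k s') (hbr s' hnn)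
    rw [Nat.add_sub_cancel]
    by_cases hU : U (k + 1 + 1) s' k
    · rw [if_pos ((hlt k (by omega)).1 hU)]
      have e3 : dn (2 * k) (Coup_t (k + 1 + 1) (k + 1)) (ct (k + 1) s') ≤ 0 := by
        refine (hD _).trans (le_of_eq ?_)
        unfold Coup_B
        rw [if_neg]
        rintro ⟨-, h⟩
        exact h k le_rfl (by omega) (by omega) (U_ct_mono hU)
      have e4 : dn (2 * k) (Coup_t (k + 1 + 1) (k + 1)) (br k (ct (k + 1) s')) ≤
          (1 / 4 : ℝ) ^ Coup_cnt (k + 1 + 1) s' k := by
        refine (hD _).trans ?_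
        unfold Coup_B
        split_ifs
        · apply pow_le_pow_of_le_one (by norm_num) (by norm_num)
          apply Coup_cnt_mono
          intro g hg h
          exact (U_br (by omega) (by omega)).2 ⟨U_ct_mono h, by omega⟩
        · positivity
      have e5 : J (k + 1) s = Coup_cnt (k + 1 + 1) s' k + 1 := by
        rw [← hcnt, Coup_cnt_succ_pos hU]
      rw [e5, pow_succ]
      linarith
    · rw [if_neg (fun h => hU ((hlt k (by omega)).2 h))]
      have h3 : ¬ U (k + 1 + 1) (ct (k + 1) s') (k + 1) := fun h =>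
        hnn ((U_ct_eq (by omega) (by omega) (iff_of_false hU hnn)).1 h)
      have e3 := hz _ h3
      have e4 := hz _ (hbr _ h3)
      linarith
  have hbb : ((bb n s : ℕ) : ℝ) = (if U n s 0 then 1 else 0) + (if U n s (n - 1) then 1 else 0) := by
    unfold bb
    push_cast
    rfl
  rw [hbb, mul_add]
  exact add_le_add hL hRt

end Pool.Agent.H29.STP
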