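import Mathlib

/-!
# States of the front of critical space-time percolation on a strip

A state is a noncrossing equivalence relation on `ℕ` (the columns).  `br k` puts a bridge between
the columns `k` and `k + 1`, `ct k` cuts the column `k`.  The generators are numbered
`ev (2 * k) = br k` and `ev (2 * k + 1) = ct (k + 1)`.
-/

namespace Pool.Agent.H29.STP

/-- Noncrossing equivalence relations on `ℕ`. -/
@[ext] structure St where
  r : ℕ → ℕ → Prop
  rfl' : ∀ x, r x x
  symm' : ∀ x y, r x y → r y x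
  trans' : ∀ x y z, r x y → r y z → r x z
  nc : ∀ a b c d, a < b → b < c → c < d → r a c → r b d → r a b

/-- The state after a bridge between the columns `k` and `k + 1`. -/
def br (k : ℕ) (s : St) : St where
  r x y := s.r x y ∨ (s.r x k ∧ s.r (k + 1) y) ∨ (s.r x (k + 1) ∧ s.r k y)
  rfl' x := Or.inl (s.rfl' x)
  symm' x y h := by
    rcases h with h | ⟨h1, h2⟩ | ⟨h1, h2⟩
    · exact Or.inl (s.symm' _ _ h)
    · exact Or.inr (Or.inr ⟨s.symm' _ _ h2, s.symm' _ _ h1⟩)
    · exact Or.inr (Or.inl ⟨s.symm' _ _ h2, s.symm' _ _ h1⟩)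
  trans' x y z h h' := by
    have T := s.trans'
    have S := s.symm'
    rcases h with h | ⟨h1, h2⟩ | ⟨h1, h2⟩ <;> rcases h' with h' | ⟨h1', h2'⟩ | ⟨h1', h2'⟩
    · exact Or.inl (T _ _ _ h h')
    · exact Or.inr (Or.inl ⟨T _ _ _ h h1', h2'⟩)
    · exact Or.inr (Or.inr ⟨T _ _ _ h h1', h2'⟩)
    · exact Or.inr (Or.inl ⟨h1, T _ _ _ h2 h'⟩)
    · exact Or.inr (Or.inl ⟨h1, h2'⟩)
    · exact Or.inl (T _ _ _ h1 h2')
    · exact Or.inr (Or.inr ⟨h1, T _ _ _ h2 h'⟩)
    · exact Or.inl (T _ _ _ h1 h2')
    · exact Or.inr (Or.inr ⟨h1, h2'⟩)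
  nc a b c d hab hbc hcd h h' := by
    have T := s.trans'
    have S := s.symm'
    have N := s.nc
    rcases h with h | ⟨h1, h2⟩ | ⟨h1, h2⟩ <;> rcases h' with h' | ⟨h1', h2'⟩ | ⟨h1', h2'⟩
    · exact Or.inl (N a b c d hab hbc hcd h h')
    · -- `a ~ c`, `b ~ k`, `k + 1 ~ d`
      rcases lt_trichotomy k c with hk | rfl | hk
      · rcases lt_or_eq_of_le (Nat.succ_le_of_lt hk) with hk1 | hk1
        · rcases lt_trichotomy a (k + 1) with ha | ha | ha
          · exact Or.inr (Or.inr ⟨N a (k + 1) c d ha hk1 hcd h h2', S _ _ h1'⟩)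
          · subst ha
            exact Or.inr (Or.inr ⟨s.rfl' _, S _ _ h1'⟩)
          · exact Or.inl (T _ _ _ (S _ _ (N k a b c (by omega) hab hbc (S _ _ h1') h)) (S _ _ h1'))
        · have hk2 : k + 1 = c := hk1
          subst hk2
          exact Or.inr (Or.inr ⟨h, S _ _ h1'⟩)
      · exact Or.inl (T _ _ _ h (S _ _ h1'))
      · exact Or.inl (N a b c k hab hbc hk h h1')
    · -- `a ~ c`, `b ~ k + 1`, `k ~ d`
      rcases lt_trichotomy (k + 1) c with hk | hk | hk
      · rcases lt_trichotomy a k with ha | rfl | ha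
        · exact Or.inr (Or.inl ⟨N a k c d ha (by omega) hcd h h2', S _ _ h1'⟩)
        · exact Or.inr (Or.inl ⟨s.rfl' _, S _ _ h1'⟩)
        · rcases lt_or_eq_of_le (Nat.succ_le_of_lt ha) with hk1 | hk1
          · exact Or.inl (T _ _ _ (S _ _ (N (k + 1) a b c hk1 hab hbc (S _ _ h1') h)) (S _ _ h1'))
          · have hk2 : k + 1 = a := hk1
            subst hk2
            exact Or.inl (S _ _ h1')
      · subst hk
        exact Or.inl (T _ _ _ h (S _ _ h1'))
      · exact Or.inl (N a b c (k + 1) hab hbc hk h h1')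
    · -- `a ~ k`, `k + 1 ~ c`, `b ~ d`
      rcases lt_trichotomy k b with hk | rfl | hk
      · rcases lt_or_eq_of_le (Nat.succ_le_of_lt hk) with hk1 | hk1
        · exact Or.inr (Or.inl ⟨h1, N (k + 1) b c d hk1 hbc hcd h2 h'⟩)
        · have hk2 : k + 1 = b := hk1
          subst hk2
          exact Or.inr (Or.inl ⟨h1, s.rfl' _⟩)
      · exact Or.inl h1
      · rcases lt_trichotomy k d with hd | rfl | hd
        · exact Or.inl (N a b k d hab hk hd h1 h')
        · exact Or.inl (T _ _ _ h1 (S _ _ h'))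
        · have hbc' := N b c d (k + 1) hbc hcd (by omega) h' (S _ _ h2)
          exact Or.inr (Or.inl ⟨h1, T _ _ _ h2 (S _ _ hbc')⟩)
    · exact Or.inl (T _ _ _ h1 (S _ _ h1'))
    · exact Or.inr (Or.inl ⟨h1, S _ _ h1'⟩)
    · -- `a ~ k + 1`, `k ~ c`, `b ~ d`
      rcases lt_trichotomy (k + 1) b with hk | hk | hk
      · exact Or.inr (Or.inr ⟨h1, N k b c d (by omega) hbc hcd h2 h'⟩)
      · subst hk
        exact Or.inl h1
      · rcases lt_trichotomy (k + 1) d with hd | hd | hd
        · exact Or.inl (N a b (k + 1) d hab hk hd h1 h')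
        · subst hd
          exact Or.inl (T _ _ _ h1 (S _ _ h'))
        · rcases lt_or_eq_of_le (Nat.le_of_lt_succ hd) with hd1 | hd1
          · have hbc' := N b c d k hbc hcd hd1 h' (S _ _ h2)
            exact Or.inr (Or.inr ⟨h1, T _ _ _ h2 (S _ _ hbc')⟩)
          · subst hd1
            exact Or.inr (Or.inr ⟨h1, S _ _ h'⟩)
    · exact Or.inr (Or.inr ⟨h1, S _ _ h1'⟩)
    · exact Or.inl (T _ _ _ h1 (S _ _ h1'))

/-- The state after a cut on the column `k`. -/
def ct (k : ℕ) (s : St) : St where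
  r x y := x = y ∨ (x ≠ k ∧ y ≠ k ∧ s.r x y)
  rfl' x := Or.inl rfl
  symm' x y h := by
    rcases h with h | ⟨h1, h2, h3⟩
    · exact Or.inl h.symm
    · exact Or.inr ⟨h2, h1, s.symm' _ _ h3⟩
  trans' x y z h h' := by
    rcases h with rfl | ⟨h1, h2, h3⟩
    · exact h'
    · rcases h' with rfl | ⟨h1', h2', h3'⟩
      · exact Or.inr ⟨h1, h2, h3⟩
      · exact Or.inr ⟨h1, h2', s.trans' _ _ _ h3 h3'⟩
  nc a b c d hab hbc hcd h h' := by
    rcases h with h | ⟨h1, h2, h3⟩
    · omega
    · rcases h' with h' | ⟨h1', h2', h3'⟩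
      · omega
      · exact Or.inr ⟨h1, h1', s.nc a b c d hab hbc hcd h3 h3'⟩

/-- The initial state. -/
def bot : St where
  r x y := x = y
  rfl' _ := rfl
  symm' _ _ h := h.symm
  trans' _ _ _ h h' := h.trans h'
  nc a b c d hab hbc hcd h h' := by omega

/-- The generators: bridges have even numbers and cuts have odd numbers. -/
def ev (j : ℕ) (s : St) : St := if j % 2 = 0 then br (j / 2) s else ct ((j + 1) / 2) s

lemma ev_even (k : ℕ) (s : St) : ev (2 * k) s = br k s := by
  simp [ev]

lemma ev_odd (k : ℕ) (s : St) : ev (2 * k + 1) s = ct (k + 1) s := by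
  have h1 : (2 * k + 1) % 2 = 1 := by omega
  have h2 : (2 * k + 1 + 1) / 2 = k + 1 := by omega
  simp [ev, h1, h2]

/-- Linear operators on functions of the state. -/
abbrev Op := Module.End ℝ (St → ℝ)

/-- The generator number `j` as an operator on functions. -/
def E (j : ℕ) : Op := LinearMap.funLeft ℝ ℝ (ev j)

@[simp] lemma E_apply (j : ℕ) (f : St → ℝ) (s : St) : E j f s = f (ev j s) := rfl

/-- A face of the rotated square lattice: the generator is applied with probability `1 / 2`. -/
noncomputable def F (j : ℕ) : Op := (1 / 2 : ℝ) • (1 + E j)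

lemma F_apply (j : ℕ) (f : St → ℝ) (s : St) : F j f s = (f s + f (ev j s)) / 2 := by
  simp [F]
  ring

/-- `up m = F 0 * F 1 * ... * F (m - 1)`. -/
noncomputable def up : ℕ → Op
  | 0 => 1
  | m + 1 => up m * F m

/-- `dn m = F (m - 1) * ... * F 1 * F 0`. -/
noncomputable def dn : ℕ → Op
  | 0 => 1
  | m + 1 => F m * dn m

/-- (Minus) the generator of the front process on the columns `0, ..., n`. -/
noncomputable def H0 (n : ℕ) : Op := ∑ j ∈ Finset.range (2 * n - 1), (1 - E j)

/-- (Minus) the generator on the columns `0, ..., n + 1`, where the bridges at the two sides have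
rate `3 / 2`. -/
noncomputable def H1 (n : ℕ) : Op :=
  ∑ j ∈ Finset.range (2 * n + 1), (1 - E j) + (1 / 2 : ℝ) • (1 - E 0) +
    (1 / 2 : ℝ) • (1 - E (2 * n))

/-- First row of faces. -/
noncomputable def R1 (n : ℕ) : Op := E (2 * n + 1) * (E (2 * n) * dn (2 * n))

/-- Second row of faces. -/
noncomputable def R2 (n : ℕ) : Op := up (2 * n) * E (2 * n)

/-- The double row. -/
noncomputable def DD (n : ℕ) : Op := R1 n * R2 n

/-- One step of length `δ` of the front process. -/
noncomputable def P (n : ℕ) (δ : ℝ) : Op := 1 - δ • H0 n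

/-- The gap between the columns `g` and `g + 1` is not straddled (by the columns `0, ..., m`). -/
def U (m : ℕ) (s : St) (g : ℕ) : Prop := ∀ i j, i ≤ g → g < j → j ≤ m → ¬ s.r i j

open Classical in
/-- The number of gaps which are not straddled. -/
noncomputable def J (m : ℕ) (s : St) : ℕ := ((Finset.range m).filter (U m s)).card

open Classical in
/-- Number of sides whose gap is not straddled. -/
noncomputable def bb (m : ℕ) (s : St) : ℕ :=
  (if U m s 0 then 1 else 0) + (if U m s (m - 1) then 1 else 0)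

/-- Indicator that there is no left-right crossing. -/
noncomputable def al (m : ℕ) : St → ℝ := fun s => if J m s = 0 then 0 else 1

/-- Bound for the probability that the first row kills. -/
noncomputable def w1 (n : ℕ) : St → ℝ := fun s => if J n s = 0 then 0 else (1 / 4) ^ J n s

/-- Bound for the probability that the second row kills. -/
noncomputable def w2 (n : ℕ) : St → ℝ := fun s =>
  if J (n + 1) s = 0 then 0 else (1 / 4) ^ J (n + 1) s * 2 ^ bb (n + 1) s

/-- Bound for the probability that the double row kills. -/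
noncomputable def ww (n : ℕ) : St → ℝ := w1 n + R1 n (w2 n)

end Pool.Agent.H29.STP
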