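import Pool.Agent.H29.STP.Model

/-!
# Existence of independent Poisson processes
-/

open MeasureTheory ProbabilityTheory

namespace Pool.Agent.H29.STP

/-- A number of points and a sequence of uniform variables. -/
abbrev ExistCell := ℕ × (ℕ → ℝ)

/-- The uniform law on `[0, 1)`. -/
noncomputable def ExistU : Measure ℝ := volume.restrict (Set.Ico 0 1)

instance ExistU_prob : IsProbabilityMeasure ExistU := by
  constructor
  unfold ExistU
  rw [Measure.restrict_apply MeasurableSet.univ, Set.univ_inter, Real.volume_Ico]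
  simp

/-- The law of the sequence. -/
noncomputable def ExistV : Measure (ℕ → ℝ) := Measure.infinitePi (fun _ : ℕ => ExistU)

instance ExistV_prob : IsProbabilityMeasure ExistV := by
  unfold ExistV
  infer_instance

/-- The law of a cell. -/
noncomputable def ExistC : Measure ExistCell := (poissonMeasure 1).prod ExistV

instance ExistC_prob : IsProbabilityMeasure ExistC := by
  unfold ExistC
  infer_instance

/-- The probability space. -/
abbrev ExistOm (ι : Type) := ι × ℤ → ExistCell

/-- The probability measure. -/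
noncomputable def ExistP (ι : Type) : Measure (ExistOm ι) := Measure.infinitePi (fun _ => ExistC)

instance ExistP_prob (ι : Type) : IsProbabilityMeasure (ExistP ι) := by
  unfold ExistP
  infer_instance

/-- Good cells. -/
def ExistGood : Set ExistCell := {c | (∀ k, c.2 k ∈ Set.Ico (0 : ℝ) 1) ∧ ∀ k l, k ≠ l → c.2 k ≠ c.2 l}

theorem Exist_good_meas : MeasurableSet ExistGood := by
  have h : ExistGood = (⋂ k, {c : ExistCell | c.2 k ∈ Set.Ico (0 : ℝ) 1}) ∩
      ⋂ k, ⋂ l, {c : ExistCell | k ≠ l → c.2 k ≠ c.2 l} := by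
    ext c
    simp [ExistGood]
  rw [h]
  refine (MeasurableSet.iInter fun k => ?_).inter
    (MeasurableSet.iInter fun k => MeasurableSet.iInter fun l => ?_)
  · exact ((measurable_pi_apply k).comp measurable_snd) measurableSet_Ico
  · by_cases hkl : k = l
    · simp [hkl]
    · simp only [ne_eq, hkl, not_false_eq_true, true_imp_iff]
      exact (measurableSet_eq_fun ((measurable_pi_apply k).comp measurable_snd)
        ((measurable_pi_apply l).comp measurable_snd)).compl

theorem Exist_V_mem (k : ℕ) : ∀ᵐ u ∂ExistV, u k ∈ Set.Ico (0 : ℝ) 1 := by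
  have h1 : ∀ᵐ x ∂ExistU, x ∈ Set.Ico (0 : ℝ) 1 := by
    unfold ExistU
    exact ae_restrict_mem measurableSet_Ico
  exact (measurePreserving_eval_infinitePi (fun _ : ℕ => ExistU) k).quasiMeasurePreserving.ae h1

theorem Exist_V_ne (k l : ℕ) (hkl : k ≠ l) : ∀ᵐ u ∂ExistV, u k ≠ u l := by
  have hna : ∀ x, ExistU {x} = 0 := by
    intro x
    unfold ExistU
    exact measure_singleton x
  have h1 : IndepFun (fun u : ℕ → ℝ => u k) (fun u : ℕ → ℝ => u l) ExistV := by
    have h := iIndepFun_infinitePi (P := fun _ : ℕ => ExistU) (X := fun (_ : ℕ) (x : ℝ) => x)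
      (fun _ => measurable_id)
    exact h.indepFun hkl
  have hk : ExistV.map (fun u => u k) = ExistU := Measure.infinitePi_map_eval _ k
  have hl : ExistV.map (fun u => u l) = ExistU := Measure.infinitePi_map_eval _ l
  have h2 : ExistV.map (fun u => (u k, u l)) = ExistU.prod ExistU := by
    rw [(indepFun_iff_map_prod_eq_prod_map_map (measurable_pi_apply k).aemeasurable
      (measurable_pi_apply l).aemeasurable).1 h1, hk, hl]
  have hD : MeasurableSet {p : ℝ × ℝ | p.1 = p.2} :=
    measurableSet_eq_fun measurable_fst measurable_snd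
  have h3 : (ExistU.prod ExistU) {p : ℝ × ℝ | p.1 = p.2} = 0 := by
    rw [Measure.prod_apply hD]
    have h4 : ∀ x : ℝ, ExistU (Prod.mk x ⁻¹' {p : ℝ × ℝ | p.1 = p.2}) = 0 := by
      intro x
      have : Prod.mk x ⁻¹' {p : ℝ × ℝ | p.1 = p.2} = {x} := by
        ext y
        simp [eq_comm]
      rw [this, hna]
    rw [lintegral_congr h4, lintegral_zero]
  rw [← h2, Measure.map_apply (by fun_prop) hD] at h3
  rw [ae_iff]
  simpa using h3

theorem Exist_good_ae : ∀ᵐ c ∂ExistC, c ∈ ExistGood := by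
  have h1 : ∀ᵐ u ∂ExistV, (∀ k, u k ∈ Set.Ico (0 : ℝ) 1) ∧ ∀ k l, k ≠ l → u k ≠ u l := by
    refine (ae_all_iff.2 Exist_V_mem).and ?_
    rw [ae_all_iff]
    intro k
    rw [ae_all_iff]
    intro l
    by_cases hkl : k = l
    · exact Filter.Eventually.of_forall fun u h => absurd hkl h
    · filter_upwards [Exist_V_ne k l hkl] with u hu _ using hu
  exact Measure.quasiMeasurePreserving_snd.ae h1

/-- The expectation for one cell. -/
theorem Exist_cell (F : ℝ → ℂ) (hF : Measurable F) (hb : ∀ x, ‖F x‖ ≤ 1) :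
    ∫ c, ∏ k ∈ Finset.range c.1, F (c.2 k) ∂ExistC = Complex.exp (∫ x, (F x - 1) ∂ExistU) := by
  have hmeas : Measurable (fun c : ExistCell => ∏ k ∈ Finset.range c.1, F (c.2 k)) := by
    apply measurable_from_prod_countable_right
    intro n
    show Measurable (fun u : ℕ → ℝ => ∏ k ∈ Finset.range n, F (u k))
    exact Finset.measurable_prod _ fun k _ => hF.comp (measurable_pi_apply k)
  have hint : Integrable (fun c : ExistCell => ∏ k ∈ Finset.range c.1, F (c.2 k)) ExistC := by
    refine Integrable.of_bound hmeas.aestronglyMeasurable 1 (Filter.Eventually.of_forall fun c => ?_)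
    rw [norm_prod]
    exact Finset.prod_le_one (fun _ _ => norm_nonneg _) (fun _ _ => hb _)
  have hFi : Integrable F ExistU :=
    Integrable.of_bound hF.aestronglyMeasurable 1 (Filter.Eventually.of_forall hb)
  unfold ExistC at hint ⊢
  rw [integral_prod _ hint]
  have h1 : ∀ n : ℕ, ∫ u, ∏ k ∈ Finset.range n, F (u k) ∂ExistV = (∫ x, F x ∂ExistU) ^ n := by
    intro n
    have h2 := integral_restrict_infinitePi (μ := fun _ : ℕ => ExistU) (s := Finset.range n)
      (f := fun y => ∏ k : Finset.range n, F (y k)) (by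
        apply Measurable.aestronglyMeasurable
        exact Finset.measurable_prod _ fun k _ => hF.comp (measurable_pi_apply k))
    have h3 : ∀ u : ℕ → ℝ, ∏ k : Finset.range n, F ((Finset.range n).restrict u k) =
        ∏ k ∈ Finset.range n, F (u k) := by
      intro u
      exact Finset.prod_coe_sort (Finset.range n) (fun k => F (u k))
    simp only [h3] at h2
    unfold ExistV
    rw [h2, integral_fintype_prod_eq_prod (f := fun _ x => F x), Finset.prod_const,
      Finset.card_univ, Fintype.card_coe, Finset.card_range]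
  simp only [h1]
  rw [integral_poissonMeasure]
  have h4 : ∫ x, (F x - 1) ∂ExistU = (∫ x, F x ∂ExistU) - 1 := by
    rw [integral_sub hFi (integrable_const 1)]
    simp
  rw [h4]
  set φ := ∫ x, F x ∂ExistU
  calc ∑' n : ℕ, (Real.exp (-((1 : NNReal) : ℝ)) * ((1 : NNReal) : ℝ) ^ n / (n.factorial : ℝ)) • φ ^ n
      = ∑' n : ℕ, ((Real.exp (-1) : ℝ) : ℂ) * (φ ^ n / n.factorial) := by
        congr with n
        simp only [NNReal.coe_one, one_pow, mul_one, Complex.real_smul]
        push_cast
        ring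
    _ = ((Real.exp (-1) : ℝ) : ℂ) * ∑' n : ℕ, (φ ^ n / n.factorial) := tsum_mul_left
    _ = ((Real.exp (-1) : ℝ) : ℂ) * Complex.exp φ := by
        rw [(NormedSpace.expSeries_div_hasSum_exp φ).tsum_eq, Complex.exp_eq_exp_ℂ]
    _ = Complex.exp (φ - 1) := by
        rw [Complex.ofReal_exp, ← Complex.exp_add]
        push_cast
        ring_nf

theorem Exist_prod {ι : Type} [DecidableEq ι] (J : Finset (ι × ℤ)) (G : ι × ℤ → ExistCell → ℂ)
    (hG : ∀ j, Measurable (G j)) :
    ∫ ω, ∏ j ∈ J, G j (ω j) ∂ExistP ι = ∏ j ∈ J, ∫ c, G j c ∂ExistC := by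
  have h2 := integral_restrict_infinitePi (μ := fun _ : ι × ℤ => ExistC) (s := J)
    (f := fun y => ∏ j : J, G j (y j)) (by
      apply Measurable.aestronglyMeasurable
      exact Finset.measurable_prod _ fun k _ => (hG k).comp (measurable_pi_apply k))
  have h3 : ∀ ω : ExistOm ι, ∏ j : J, G j (J.restrict ω j) = ∏ j ∈ J, G j (ω j) := by
    intro ω
    exact Finset.prod_coe_sort J (fun j => G j (ω j))
  simp only [h3] at h2
  unfold ExistP
  rw [h2, integral_fintype_prod_eq_prod (f := fun (j : J) c => G j c)]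
  exact Finset.prod_coe_sort J (fun j => ∫ c, G j c ∂ExistC)

section Count

variable {ι : Type}

/-- The good event. -/
def ExistG (ι : Type) : Set (ExistOm ι) := {ω | ∀ j, ω j ∈ ExistGood}

theorem Exist_G_meas [Countable ι] : MeasurableSet (ExistG ι) := by
  have h : ExistG ι = ⋂ j, {ω : ExistOm ι | ω j ∈ ExistGood} := by
    ext ω
    simp [ExistG]
  rw [h]
  exact MeasurableSet.iInter fun j => (measurable_pi_apply j) Exist_good_meas

theorem Exist_G_ae [Countable ι] : ∀ᵐ ω ∂ExistP ι, ω ∈ ExistG ι := by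
  have h : ∀ᵐ ω ∂ExistP ι, ∀ j, ω j ∈ ExistGood := by
    rw [ae_all_iff]
    intro j
    exact (measurePreserving_eval_infinitePi (fun _ : ι × ℤ => ExistC)
      j).quasiMeasurePreserving.ae Exist_good_ae
  exact h

/-- The point processes. -/
def ExistXi (i : ι) (ω : ExistOm ι) : Set ℝ :=
  {x | ω ∈ ExistG ι ∧ ∃ z : ℤ, ∃ k < (ω (i, z)).1, x = z + (ω (i, z)).2 k}

open Classical in
/-- The number of points in an interval. -/
noncomputable def ExistN (Z : Finset ℤ) (i : ι) (a b : ℝ) (ω : ExistOm ι) : ℕ :=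
  ∑ z ∈ Z, ∑ k ∈ Finset.range (ω (i, z)).1,
    if (z : ℝ) + (ω (i, z)).2 k ∈ Set.Ico a b then 1 else 0

open Classical in
theorem Exist_encard (Z : Finset ℤ) (i : ι) (a b : ℝ) (ω : ExistOm ι) (hω : ω ∈ ExistG ι)
    (hZ : Finset.Icc ⌊a⌋ ⌊b⌋ ⊆ Z) :
    (ExistXi i ω ∩ Set.Ico a b).encard = (ExistN Z i a b ω : ℕ∞) := by
  set T : Finset (Σ _ : ℤ, ℕ) := (Z.sigma (fun z => Finset.range (ω (i, z)).1)).filter
    (fun p => (p.1 : ℝ) + (ω (i, p.1)).2 p.2 ∈ Set.Ico a b) with hT
  set f : (Σ _ : ℤ, ℕ) → ℝ := fun p => (p.1 : ℝ) + (ω (i, p.1)).2 p.2 with hf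
  have himg : ExistXi i ω ∩ Set.Ico a b = f '' T := by
    ext x
    constructor
    · rintro ⟨⟨-, z, k, hk, rfl⟩, hx⟩
      refine ⟨⟨z, k⟩, ?_, rfl⟩
      rw [hT, Finset.mem_coe, Finset.mem_filter, Finset.mem_sigma, Finset.mem_range]
      refine ⟨⟨hZ ?_, hk⟩, hx⟩
      have hu := (hω (i, z)).1 k
      rw [Finset.mem_Icc]
      constructor
      · rw [← Int.lt_add_one_iff, Int.floor_lt]
        push_cast
        linarith [hx.1, hu.2]
      · rw [Int.le_floor]
        linarith [hx.2, hu.1]
    · rintro ⟨⟨z, k⟩, hp, rfl⟩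
      rw [hT, Finset.mem_coe, Finset.mem_filter, Finset.mem_sigma, Finset.mem_range] at hp
      exact ⟨⟨hω, z, k, hp.1.2, rfl⟩, hp.2⟩
  have hinj : Set.InjOn f T := by
    rintro ⟨z, k⟩ _ ⟨z', k'⟩ _ h
    simp only [hf] at h
    have hu := (hω (i, z)).1 k
    have hu' := (hω (i, z')).1 k'
    have h1 : (z : ℝ) < z' + 1 := by linarith [hu.1, hu'.2]
    have h2 : (z' : ℝ) < z + 1 := by linarith [hu.2, hu'.1]
    have h1' : z < z' + 1 := by exact_mod_cast h1
    have h2' : z' < z + 1 := by exact_mod_cast h2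
    obtain rfl : z = z' := by omega
    have h3 : (ω (i, z)).2 k = (ω (i, z)).2 k' := by linarith
    have h4 : k = k' := by
      by_contra hne
      exact (hω (i, z)).2 k k' hne h3
    rw [h4]
  rw [himg, hinj.encard_image, Set.encard_coe_eq_coe_finsetCard, Finset.card_filter,
    Finset.sum_sigma]
  rfl

theorem Exist_bad (i : ι) (a b : ℝ) (ω : ExistOm ι) (hω : ω ∉ ExistG ι) :
    (ExistXi i ω ∩ Set.Ico a b).encard = 0 := by
  rw [Set.encard_eq_zero]
  ext x
  constructor
  · rintro ⟨⟨h, -⟩, -⟩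
    exact absurd h hω
  · exact fun h => h.elim

theorem Exist_N_meas (Z : Finset ℤ) (i : ι) (a b : ℝ) : Measurable (ExistN Z i a b) := by
  classical
  refine Finset.measurable_fun_sum _ fun z _ => ?_
  have h1 : Measurable (fun c : ExistCell => ∑ k ∈ Finset.range c.1,
      if (z : ℝ) + c.2 k ∈ Set.Ico a b then 1 else 0) := by
    apply measurable_from_prod_countable_right
    intro n
    show Measurable (fun u : ℕ → ℝ => ∑ k ∈ Finset.range n,
      if (z : ℝ) + u k ∈ Set.Ico a b then 1 else 0)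
    refine Finset.measurable_fun_sum _ fun k _ => ?_
    have h2 : MeasurableSet {u : ℕ → ℝ | (z : ℝ) + u k ∈ Set.Ico a b} :=
      ((measurable_const_add (z : ℝ)).comp (measurable_pi_apply k)) measurableSet_Ico
    exact Measurable.ite h2 measurable_const measurable_const
  exact h1.comp (measurable_pi_apply (i, z))

open Classical in
theorem Exist_encard_eq (i : ι) (a b : ℝ) (ω : ExistOm ι) :
    (ExistXi i ω ∩ Set.Ico a b).encard =
      ((if ω ∈ ExistG ι then ExistN (Finset.Icc ⌊a⌋ ⌊b⌋) i a b ω else 0 : ℕ) : ℕ∞) := by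
  split_ifs with h
  · exact Exist_encard _ i a b ω h (Finset.Subset.refl _)
  · rw [Exist_bad i a b ω h]
    rfl

theorem Exist_encard_meas [Countable ι] (i : ι) (a b : ℝ) :
    Measurable fun ω => (ExistXi i ω ∩ Set.Ico a b).encard := by
  classical
  simp only [Exist_encard_eq]
  have h1 : Measurable (fun ω : ExistOm ι =>
      (if ω ∈ ExistG ι then ExistN (Finset.Icc ⌊a⌋ ⌊b⌋) i a b ω else 0 : ℕ)) :=
    Measurable.ite Exist_G_meas (Exist_N_meas _ i a b) measurable_const
  exact (measurable_from_top (f := fun n : ℕ => (n : ℕ∞))).comp h1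

/-- The total length. -/
theorem Exist_vol (Z : Finset ℤ) (a b : ℝ) (hZ : Finset.Icc ⌊a⌋ ⌊b⌋ ⊆ Z) :
    ∑ z ∈ Z, ExistU.real {u : ℝ | (z : ℝ) + u ∈ Set.Ico a b} = volume.real (Set.Ico a b) := by
  have h1 : ∀ z : ℤ, ExistU {u : ℝ | (z : ℝ) + u ∈ Set.Ico a b} =
      volume (Set.Ico a b ∩ Set.Ico (z : ℝ) (z + 1)) := by
    intro z
    have hm : MeasurableSet {u : ℝ | (z : ℝ) + u ∈ Set.Ico a b} :=
      (measurable_const_add (z : ℝ)) measurableSet_Ico
    unfold ExistU
    rw [Measure.restrict_apply hm, ← measure_preimage_add volume (z : ℝ)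
      (Set.Ico a b ∩ Set.Ico (z : ℝ) (z + 1))]
    congr 1
    ext u
    simp only [Set.mem_inter_iff, Set.mem_ofPred_eq, Set.mem_preimage, Set.mem_Ico]
    constructor
    · rintro ⟨h, h0, h1⟩
      exact ⟨h, by linarith, by linarith⟩
    · rintro ⟨h, h0, h1⟩
      exact ⟨h, by linarith, by linarith⟩
  have h2 : ∑ z ∈ Z, ExistU {u : ℝ | (z : ℝ) + u ∈ Set.Ico a b} = volume (Set.Ico a b) := by
    simp only [h1]
    rw [← measure_biUnion_finset]
    · congr 1
      ext x
      simp only [Set.mem_iUnion, Set.mem_inter_iff, exists_prop]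
      constructor
      · rintro ⟨z, _, h, _⟩
        exact h
      · intro h
        refine ⟨⌊x⌋, hZ ?_, h, Int.floor_le x, Int.lt_floor_add_one x⟩
        rw [Finset.mem_Icc]
        exact ⟨Int.floor_le_floor h.1, Int.floor_le_floor h.2.le⟩
    · intro z _ z' _ hzz
      apply Set.disjoint_left.2
      rintro x ⟨_, h1, h2⟩ ⟨_, h3, h4⟩
      apply hzz
      have h5 : (z : ℝ) < z' + 1 := by linarith
      have h6 : (z' : ℝ) < z + 1 := by linarith
      have h5' : z < z' + 1 := by exact_mod_cast h5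
      have h6' : z' < z + 1 := by exact_mod_cast h6
      omega
    · intro z _
      exact measurableSet_Ico.inter measurableSet_Ico
  unfold Measure.real
  rw [← h2, ENNReal.toReal_sum]
  intro z _
  exact measure_ne_top _ _

open Classical in
/-- The exponent. -/
theorem Exist_exponent {m : ℕ} (i : Fin m → ι) (a b t : Fin m → ℝ)
    (hd : ∀ x y, x ≠ y → i x = i y → Disjoint (Set.Ico (a x) (b x)) (Set.Ico (a y) (b y)))
    (j : ι × ℤ) :
    ∫ u, (Complex.exp (((∑ x, if i x = j.1 ∧ (j.2 : ℝ) + u ∈ Set.Ico (a x) (b x) then t x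
      else 0 : ℝ) : ℂ) * Complex.I) - 1) ∂ExistU =
      ∑ x, if i x = j.1 then ((ExistU.real {u : ℝ | (j.2 : ℝ) + u ∈ Set.Ico (a x) (b x)} : ℝ) : ℂ) *
        (Complex.exp (t x * Complex.I) - 1) else 0 := by
  have h1 : ∀ u : ℝ, Complex.exp (((∑ x, if i x = j.1 ∧ (j.2 : ℝ) + u ∈ Set.Ico (a x) (b x) then t x
      else 0 : ℝ) : ℂ) * Complex.I) - 1 =
      ∑ x, if i x = j.1 then Set.indicator {u : ℝ | (j.2 : ℝ) + u ∈ Set.Ico (a x) (b x)}
        (fun _ => Complex.exp (t x * Complex.I) - 1) u else 0 := by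
    intro u
    by_cases hex : ∃ x, i x = j.1 ∧ (j.2 : ℝ) + u ∈ Set.Ico (a x) (b x)
    · obtain ⟨x, hx⟩ := hex
      have hne : ∀ y, y ≠ x → ¬ (i y = j.1 ∧ (j.2 : ℝ) + u ∈ Set.Ico (a y) (b y)) := by
        intro y hy h
        exact Set.disjoint_left.1 (hd y x hy (h.1.trans hx.1.symm)) h.2 hx.2
      rw [Finset.sum_eq_single x (fun y _ hy => if_neg (hne y hy)) (by simp), if_pos hx,
        Finset.sum_eq_single x, if_pos hx.1]
      · rw [Set.indicator_of_mem]
        exact hx.2
      · intro y _ hy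
        split_ifs with hiy
        · rw [Set.indicator_of_notMem]
          exact fun h => hne y hy ⟨hiy, h⟩
        · rfl
      · simp
    · push Not at hex
      rw [Finset.sum_eq_zero, Finset.sum_eq_zero]
      · simp
      · intro y _
        split_ifs with hiy
        · rw [Set.indicator_of_notMem]
          exact hex y hiy
        · rfl
      · intro y _
        rw [if_neg]
        exact fun h => hex y h.1 h.2
  have hms : ∀ x, MeasurableSet {u : ℝ | (j.2 : ℝ) + u ∈ Set.Ico (a x) (b x)} :=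
    fun x => (measurable_const_add (j.2 : ℝ)) measurableSet_Ico
  simp only [h1]
  rw [integral_finsetSum]
  · apply Finset.sum_congr rfl
    intro x _
    split_ifs with hix
    · rw [integral_indicator_const _ (hms x), Complex.real_smul]
    · simp
  · intro x _
    split_ifs with hix
    · exact (integrable_const _).indicator (hms x)
    · exact integrable_zero _ _ _

open Classical in
/-- The joint characteristic function. -/
theorem Exist_joint {m : ℕ} (i : Fin m → ι) (a b t : Fin m → ℝ) (Z : Finset ℤ)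
    (hZ : ∀ x, Finset.Icc ⌊a x⌋ ⌊b x⌋ ⊆ Z)
    (hd : ∀ x y, x ≠ y → i x = i y → Disjoint (Set.Ico (a x) (b x)) (Set.Ico (a y) (b y))) :
    ∫ ω, Complex.exp (((∑ x, t x * (ExistN Z (i x) (a x) (b x) ω : ℝ) : ℝ) : ℂ) * Complex.I)
      ∂ExistP ι = Complex.exp (∑ x, ((volume.real (Set.Ico (a x) (b x)) : ℝ) : ℂ) *
        (Complex.exp (t x * Complex.I) - 1)) := by
  set J : Finset (ι × ℤ) := (Finset.univ.image i) ×ˢ Z with hJ
  set g : ι × ℤ → ℝ → ℝ := fun j u => ∑ x, if i x = j.1 ∧ (j.2 : ℝ) + u ∈ Set.Ico (a x) (b x)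
    then t x else 0 with hg
  have hsum : ∀ (A : Fin m → ι → ℤ → ℂ), ∑ j ∈ J, ∑ x, (if i x = j.1 then A x j.1 j.2 else 0) =
      ∑ x, ∑ z ∈ Z, A x (i x) z := by
    intro A
    rw [hJ, Finset.sum_comm]
    apply Finset.sum_congr rfl
    intro x _
    rw [Finset.sum_product, Finset.sum_comm]
    apply Finset.sum_congr rfl
    intro z _
    rw [Finset.sum_ite_eq, if_pos (Finset.mem_image_of_mem i (Finset.mem_univ x))]
  have hkey : ∀ ω : ExistOm ι,
      Complex.exp (((∑ x, t x * (ExistN Z (i x) (a x) (b x) ω : ℝ) : ℝ) : ℂ) * Complex.I) =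
        ∏ j ∈ J, ∏ k ∈ Finset.range (ω j).1, Complex.exp ((g j ((ω j).2 k) : ℝ) * Complex.I) := by
    intro ω
    simp only [← Complex.exp_sum]
    congr 1
    have h2 := hsum (fun x i' z => ∑ k ∈ Finset.range (ω (i', z)).1,
      (if (z : ℝ) + (ω (i', z)).2 k ∈ Set.Ico (a x) (b x) then ((t x : ℝ) : ℂ) * Complex.I else 0))
    have h3 : ∀ j : ι × ℤ, ∑ k ∈ Finset.range (ω j).1, ((g j ((ω j).2 k) : ℝ) : ℂ) * Complex.I =
        ∑ x, (if i x = j.1 then ∑ k ∈ Finset.range (ω (j.1, j.2)).1,
          (if (j.2 : ℝ) + (ω (j.1, j.2)).2 k ∈ Set.Ico (a x) (b x) then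
            ((t x : ℝ) : ℂ) * Complex.I else 0) else 0) := by
      intro j
      simp only [hg]
      push_cast
      simp only [Finset.sum_mul]
      rw [Finset.sum_comm]
      apply Finset.sum_congr rfl
      intro x _
      by_cases hix : i x = j.1
      · simp only [hix, true_and, if_true]
        apply Finset.sum_congr rfl
        intro k _
        split_ifs <;> simp
      · simp [hix]
    simp only [h3]
    rw [h2]
    push_cast
    rw [Finset.sum_mul]
    apply Finset.sum_congr rfl
    intro x _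
    unfold ExistN
    push_cast
    rw [Finset.mul_sum, Finset.sum_mul]
    apply Finset.sum_congr rfl
    intro z _
    rw [Finset.mul_sum, Finset.sum_mul]
    apply Finset.sum_congr rfl
    intro k _
    split_ifs <;> simp
  have hgm : ∀ j, Measurable (g j) := by
    intro j
    simp only [hg]
    refine Finset.measurable_fun_sum _ fun x _ => ?_
    by_cases hix : i x = j.1
    · simp only [hix, true_and]
      exact Measurable.ite ((measurable_const_add (j.2 : ℝ)) measurableSet_Ico)
        measurable_const measurable_const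
    · simp only [hix, false_and, if_false]
      exact measurable_const
  have hFm : ∀ j, Measurable (fun u => Complex.exp ((g j u : ℝ) * Complex.I)) := fun j =>
    Complex.measurable_exp.comp ((Complex.measurable_ofReal.comp (hgm j)).mul_const _)
  simp only [hkey]
  rw [Exist_prod J (fun j c => ∏ k ∈ Finset.range c.1,
    Complex.exp ((g j (c.2 k) : ℝ) * Complex.I)) (by
      intro j
      apply measurable_from_prod_countable_right
      intro n
      show Measurable (fun u : ℕ → ℝ => ∏ k ∈ Finset.range n,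
        Complex.exp ((g j (u k) : ℝ) * Complex.I))
      exact Finset.measurable_prod _ fun k _ => (hFm j).comp (measurable_pi_apply k))]
  have hcell : ∀ j, ∫ c, ∏ k ∈ Finset.range c.1, Complex.exp ((g j (c.2 k) : ℝ) * Complex.I)
      ∂ExistC = Complex.exp (∫ u, (Complex.exp ((g j u : ℝ) * Complex.I) - 1) ∂ExistU) := by
    intro j
    exact Exist_cell (fun u => Complex.exp ((g j u : ℝ) * Complex.I)) (hFm j)
      (fun u => (Complex.norm_exp_ofReal_mul_I _).le)
  simp only [hcell]
  rw [← Complex.exp_sum]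
  congr 1
  have h5 : ∀ j, ∫ u, (Complex.exp ((g j u : ℝ) * Complex.I) - 1) ∂ExistU =
      ∑ x, if i x = j.1 then ((ExistU.real {u : ℝ | (j.2 : ℝ) + u ∈ Set.Ico (a x) (b x)} : ℝ) : ℂ) *
        (Complex.exp (t x * Complex.I) - 1) else 0 := fun j => Exist_exponent i a b t hd j
  simp only [h5]
  rw [hsum (fun x _ z => ((ExistU.real {u : ℝ | (z : ℝ) + u ∈ Set.Ico (a x) (b x)} : ℝ) : ℂ) *
        (Complex.exp (t x * Complex.I) - 1))]
  apply Finset.sum_congr rfl
  intro x _
  rw [← Finset.sum_mul, ← Exist_vol Z (a x) (b x) (hZ x)]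
  push_cast
  rfl

/-- The number of points as a real random variable. -/
noncomputable def ExistY (i : ι) (a b : ℝ) (ω : ExistOm ι) : ℝ :=
  (((ExistXi i ω ∩ Set.Ico a b).encard.toNat : ℕ) : ℝ)

theorem Exist_Y_meas [Countable ι] (i : ι) (a b : ℝ) : Measurable (ExistY i a b) := by
  classical
  have h1 : ExistY i a b = fun ω : ExistOm ι =>
      (((if ω ∈ ExistG ι then ExistN (Finset.Icc ⌊a⌋ ⌊b⌋) i a b ω else 0 : ℕ) : ℕ) : ℝ) := by
    funext ω
    unfold ExistY
    rw [Exist_encard_eq]
    rfl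
  rw [h1]
  exact (measurable_from_top (f := fun n : ℕ => (n : ℝ))).comp
    (Measurable.ite Exist_G_meas (Exist_N_meas _ i a b) measurable_const)

theorem Exist_Y_encard (i : ι) (a b : ℝ) (ω : ExistOm ι) :
    (ExistXi i ω ∩ Set.Ico a b).encard = (⌊ExistY i a b ω⌋₊ : ℕ∞) := by
  unfold ExistY
  rw [Nat.floor_natCast, Exist_encard_eq]
  rfl

theorem Exist_joint' [Countable ι] {m : ℕ} (i : Fin m → ι) (a b t : Fin m → ℝ)
    (hd : ∀ x y, x ≠ y → i x = i y → Disjoint (Set.Ico (a x) (b x)) (Set.Ico (a y) (b y))) :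
    ∫ ω, Complex.exp (((∑ x, t x * ExistY (i x) (a x) (b x) ω : ℝ) : ℂ) * Complex.I)
      ∂ExistP ι = Complex.exp (∑ x, ((volume.real (Set.Ico (a x) (b x)) : ℝ) : ℂ) *
        (Complex.exp (t x * Complex.I) - 1)) := by
  classical
  set Z : Finset ℤ := Finset.univ.biUnion (fun x : Fin m => Finset.Icc ⌊a x⌋ ⌊b x⌋) with hZdef
  have hZ : ∀ x, Finset.Icc ⌊a x⌋ ⌊b x⌋ ⊆ Z := fun x =>
    Finset.subset_biUnion_of_mem (fun x : Fin m => Finset.Icc ⌊a x⌋ ⌊b x⌋) (Finset.mem_univ x)
  rw [← Exist_joint i a b t Z hZ hd]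
  apply integral_congr_ae
  filter_upwards [Exist_G_ae (ι := ι)] with ω hω
  have h1 : ∀ x, ExistY (i x) (a x) (b x) ω = (ExistN Z (i x) (a x) (b x) ω : ℝ) := by
    intro x
    unfold ExistY
    rw [Exist_encard Z (i x) (a x) (b x) ω hω (hZ x)]
    rfl
  simp only [h1]

theorem Exist_charFun [Countable ι] (i : ι) (a b t : ℝ) :
    charFun ((ExistP ι).map (ExistY i a b)) t =
      Complex.exp (((volume.real (Set.Ico a b) : ℝ) : ℂ) * (Complex.exp (t * Complex.I) - 1)) := by
  rw [charFun_apply, integral_map (Exist_Y_meas i a b).aemeasurable (by fun_prop)]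
  have h := Exist_joint' (m := 1) (fun _ => i) (fun _ => a) (fun _ => b) (fun _ => t)
    (fun x y hxy => absurd (Subsingleton.elim x y) hxy)
  simp only [Finset.univ_unique, Finset.sum_singleton] at h
  rw [← h]
  apply integral_congr_ae
  filter_upwards with ω
  rw [Real.inner_apply, mul_comm (ExistY i a b ω) t]

theorem Exist_law [Countable ι] (i : ι) (a b : ℝ) :
    (ExistP ι).map (ExistY i a b) =
      (poissonMeasure (Real.toNNReal (volume.real (Set.Ico a b)))).map (Nat.cast : ℕ → ℝ) := by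
  have : IsProbabilityMeasure ((ExistP ι).map (ExistY i a b)) :=
    Measure.isProbabilityMeasure_map (Exist_Y_meas i a b).aemeasurable
  apply Measure.ext_of_charFun
  ext t
  rw [Exist_charFun, charFun_map_cast_poissonMeasure, Real.coe_toNNReal _ measureReal_nonneg]

theorem Exist_indep [Countable ι] {m : ℕ} (i : Fin m → ι) (a b : Fin m → ℝ)
    (hd : ∀ x y, x ≠ y → i x = i y → Disjoint (Set.Ico (a x) (b x)) (Set.Ico (a y) (b y))) :
    iIndepFun (fun x => ExistY (i x) (a x) (b x)) (ExistP ι) := by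
  rw [iIndepFun_iff_charFun_pi (fun x => (Exist_Y_meas (i x) (a x) (b x)).aemeasurable)]
  intro t
  have hm : Measurable (fun ω : ExistOm ι => WithLp.toLp 2 (fun x => ExistY (i x) (a x) (b x) ω)) :=
    (WithLp.measurable_toLp 2 _).comp (measurable_pi_lambda _ fun x => Exist_Y_meas _ _ _)
  rw [charFun_apply, integral_map hm.aemeasurable (by fun_prop)]
  have h := Exist_joint' i a b (fun x => t x) hd
  simp only [Exist_charFun]
  rw [← Complex.exp_sum, ← h]
  apply integral_congr_ae
  filter_upwards with ω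
  rw [PiLp.inner_apply]
  simp only [Real.inner_apply]
  congr 3
  apply Finset.sum_congr rfl
  intro x _
  exact mul_comm _ _

end Count

/-- Independent Poisson processes of rate `1` exist. -/
theorem exists_isPoisson : ∃ (Ω : Type) (_ : MeasurableSpace Ω) (Pm : Measure Ω)
    (_ : IsProbabilityMeasure Pm) (Ξ : Bool × ℤ → Ω → Set ℝ), IsPoisson Pm Ξ := by
  refine ⟨ExistOm (Bool × ℤ), inferInstance, ExistP (Bool × ℤ), inferInstance, ExistXi, ?_, ?_, ?_⟩
  · exact fun i a b => Exist_encard_meas i a b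
  · intro i a b hab k
    have h1 : {ω : ExistOm (Bool × ℤ) | (ExistXi i ω ∩ Set.Ico a b).encard = k} =
        ExistY i a b ⁻¹' {(k : ℝ)} := by
      ext ω
      rw [Set.mem_ofPred_eq, Set.mem_preimage, Set.mem_singleton_iff, Exist_Y_encard]
      unfold ExistY
      rw [Nat.floor_natCast, Nat.cast_inj, Nat.cast_inj]
    have h2 : (Nat.cast : ℕ → ℝ) ⁻¹' {(k : ℝ)} = {k} := by
      ext n
      simp
    have h3 : volume.real (Set.Ico a b) = b - a := by
      rw [Measure.real, Real.volume_Ico, ENNReal.toReal_ofReal (by linarith)]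
    rw [h1, ← Measure.map_apply (Exist_Y_meas i a b) (measurableSet_singleton _), Exist_law,
      Measure.map_apply (by fun_prop) (measurableSet_singleton _), h2, poissonMeasure_singleton]
    rw [Real.coe_toNNReal _ measureReal_nonneg, h3]
  · intro m i a b hd
    have h1 := Exist_indep i a b hd
    have h2 := h1.comp (fun (_ : Fin m) (r : ℝ) => ((⌊r⌋₊ : ℕ) : ℕ∞))
      (fun _ => (measurable_from_top (f := fun n : ℕ => (n : ℕ∞))).comp Nat.measurable_floor)
    have h3 : (fun (x : Fin m) (ω : ExistOm (Bool × ℤ)) =>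
        (ExistXi (i x) ω ∩ Set.Ico (a x) (b x)).encard) =
        fun x => (fun r : ℝ => ((⌊r⌋₊ : ℕ) : ℕ∞)) ∘ ExistY (i x) (a x) (b x) := by
      funext x ω
      exact Exist_Y_encard (i x) (a x) (b x) ω
    rw [h3]
    exact h2

end Pool.Agent.H29.STP
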