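import Pool.Agent.H29.STP.RotDef

/-!
# Monotonicity and locality of the rotated crossing events
-/

open MeasureTheory ProbabilityTheory unitInterval

namespace Pool.Agent.H29.STP

open Pool.Agent.H89.Perc

lemma RotMono_step {ω : Config} {S : Set Vert} {u v : Vert} (h : Step ω S u v) :
    v.1 - v.2 = u.1 - u.2 + 1 ∨ v.1 - v.2 = u.1 - u.2 - 1 := by
  rcases h.cases with ⟨h1, h2 | h2⟩ | ⟨h1, h2 | h2⟩ <;> omega

/-- A path from the side `k ≤ a` to the side `k ≥ b` contains a path inside `a ≤ k ≤ b`. -/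
theorem conn_cut_k {ω : Config} {S : Set Vert} {u v : Vert} {a b : ℤ} (h : Conn ω S u v)
    (hu : u.1 - u.2 ≤ a) (hv : b ≤ v.1 - v.2) (hab : a ≤ b) :
    ∃ u' v' : Vert, u'.1 - u'.2 = a ∧ v'.1 - v'.2 = b ∧
      Conn ω (S ∩ {w | a ≤ w.1 - w.2 ∧ w.1 - w.2 ≤ b}) u' v' := by
  -- first hitting of `k ≥ b`
  have h1 : ∃ v' : Vert, v'.1 - v'.2 = b ∧ Conn ω (S ∩ {w | w.1 - w.2 ≤ b}) u v' := by
    by_cases hub : u.1 - u.2 = b
    · exact ⟨u, hub, Conn.refl ⟨h.mem_left, hub.le⟩⟩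
    have hub' : ¬ b ≤ u.1 - u.2 := by omega
    obtain ⟨w, w', h1, h2, h3, _⟩ := h.exists_hit (T := {w | b ≤ w.1 - w.2}) hub' hv
    have h5 := h1.mem_right.2
    simp only [Set.mem_ofPred_eq, not_le] at h3 h5
    have h6 := RotMono_step h2
    have h7 : w'.1 - w'.2 = b := by omega
    refine ⟨w', h7, ?_⟩
    have h8 : Conn ω (S ∩ {w | w.1 - w.2 ≤ b}) u w :=
      h1.mono_set fun x hx => ⟨hx.1, by
        have := hx.2
        simp only [Set.mem_ofPred_eq, not_le] at this ⊢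
        omega⟩
    exact h8.tail ⟨h8.mem_right, ⟨h2.2.1, h7.le⟩, h2.2.2⟩
  obtain ⟨v', hv', hc⟩ := h1
  -- last visit of `k ≤ a`
  by_cases hab' : a = b
  · subst hab'
    exact ⟨v', v', hv', hv', Conn.refl ⟨hc.mem_right.1, hv'.ge, hv'.le⟩⟩
  have hlt : ¬ v'.1 - v'.2 ≤ a := by omega
  obtain ⟨w, w', h1, _, h3, h4⟩ := hc.exists_last (T := {w | w.1 - w.2 ≤ a}) hu hlt
  have h5 := h4.mem_left.2
  simp only [Set.mem_ofPred_eq, not_le] at h1 h5
  have h6 := RotMono_step h3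
  have h7 : w.1 - w.2 = a := by omega
  refine ⟨w, v', h7, hv', ?_⟩
  have h8 : Conn ω (S ∩ {w | a ≤ w.1 - w.2 ∧ w.1 - w.2 ≤ b}) w' v' :=
    h4.mono_set fun x hx => ⟨hx.1.1, by
      have := hx.2
      have h9 := hx.1.2
      simp only [Set.mem_ofPred_eq, not_le] at this h9 ⊢
      omega⟩
  have h9 : Step ω (S ∩ {w | a ≤ w.1 - w.2 ∧ w.1 - w.2 ≤ b}) w w' :=
    ⟨⟨h3.1.1, by simp only [Set.mem_ofPred_eq]; omega⟩, h8.mem_left, h3.2.2⟩
  exact h9.conn.trans h8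

theorem rot_mono_n {ω : Config} {n n' N : ℕ} (h : n ≤ n') (hc : RotCross ω n' N) :
    RotCross ω n N := by
  obtain ⟨a, b, ha, hb, hab⟩ := hc
  obtain ⟨u, v, hu, hv, huv⟩ := conn_cut_k (a := 0) (b := 2 * n) hab (by omega) (by omega)
    (by omega)
  refine ⟨u, v, hu, hv, huv.mono_set ?_⟩
  rintro w ⟨hw1, hw2⟩
  simp only [RotR, Set.mem_ofPred_eq] at hw1 hw2 ⊢
  omega

theorem rot_mono_N {ω : Config} {n N N' : ℕ} (h : N ≤ N') (hc : RotCross ω n N) :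
    RotCross ω n N' := by
  obtain ⟨a, b, ha, hb, hab⟩ := hc
  refine ⟨a, b, ha, hb, hab.mono_set ?_⟩
  intro w hw
  simp only [RotR, Set.mem_ofPred_eq] at hw ⊢
  omega

theorem rot_incr (n N : ℕ) : Incr {ω | RotCross ω n N} := by
  rintro ω ω' h ⟨a, b, ha, hb, hab⟩
  exact ⟨a, b, ha, hb, hab.mono subset_rfl h⟩

theorem rot_local (n N : ℕ) : ∃ s : Finset Edge, LocalOn s {ω | RotCross ω n N} := by
  refine ⟨Finset.Icc (-((n : ℤ) + N)) (n + N) ×ˢ Finset.Icc (-((n : ℤ) + N)) (n + N) ×ˢ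
    Finset.univ, ?_⟩
  rintro ω ω' h ⟨a, b, ha, hb, hab⟩
  refine ⟨a, b, ha, hb, hab.congr fun e he _ => h e ?_⟩
  simp only [RotR, src, Set.mem_ofPred_eq] at he
  simp only [Finset.mem_product, Finset.mem_Icc, Finset.mem_univ, and_true]
  omega

end Pool.Agent.H29.STP
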