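import Pool.Agent.H29.STP.RotDual
import Pool.Agent.H29.STP.RotMono

/-!
# The crossing probability of the rotated square is at least one half
-/

open MeasureTheory ProbabilityTheory unitInterval

namespace Pool.Agent.H29.STP

open Pool.Agent.H89.Perc

/-- Crossing of the dual rotated rectangle. -/
private def rotHalfA (n N : ℕ) : Set Config :=
  {ω | ∃ a b : Vert, a.1 + a.2 = -1 ∧ b.1 + b.2 = 2 * N - 1 ∧ Conn ω (RotD n N) a b}

private lemma rotHalf_local (n N : ℕ) :
    LocalOn (eRect (-1) (n + N) (-n - 1) N) (rotHalfA n N) := by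
  rintro ω ω' h ⟨a, b, ha, hb, hc⟩
  refine ⟨a, b, ha, hb, Conn.congr (fun e he _ => h e (mem_eRect.2 ?_)) hc⟩
  simp only [RotD, rect, Set.mem_ofPred_eq] at he ⊢
  omega

/-- The reflection of the edges. -/
private def rotHalfE (e : Edge) : Edge :=
  if e.2.2 then (e.1 - 1, -e.2.1 - 1, true) else (e.1 - 1, -e.2.1, false)

private lemma rotHalfE_inj : Function.Injective rotHalfE := by
  rintro ⟨x, y, t⟩ ⟨x', y', t'⟩ h
  cases t <;> cases t' <;> simp_all [rotHalfE]

private lemma rotHalf_step (e : Edge) (a b : Vert) (h : Joins e a b) :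
    ∃ e', Joins e' (a.1 + 1, -a.2) (b.1 + 1, -b.2) ∧ rotHalfE e' = e := by
  obtain ⟨x, y, t⟩ := e
  cases t
  · refine ⟨(x + 1, -y, false), ?_, by simp [rotHalfE]⟩
    rcases h with ⟨h1, h2⟩ | ⟨h1, h2⟩
    · left
      subst h1 h2
      simp [src, tgt]
    · right
      subst h1 h2
      simp [src, tgt]
  · refine ⟨(x + 1, -y - 1, true), ?_, by simp [rotHalfE]⟩
    rcases h with ⟨h1, h2⟩ | ⟨h1, h2⟩
    · right
      subst h1 h2
      simp [src, tgt]
      ring
    · left
      subst h1 h2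
      simp [src, tgt]
      ring

private lemma rotHalf_sub (n N : ℕ) :
    rotHalfA n N ⊆ {ω | (fun e => ω (rotHalfE e)) ∈ {ω | RotCross ω N (n + 1)}} := by
  rintro ω ⟨a, b, ha, hb, hc⟩
  have h := hc.map (ω' := fun e => ω (rotHalfE e)) (T := RotR N (n + 1))
    (fun w => (w.1 + 1, -w.2)) (by
      intro w hw
      simp only [RotD, RotR, Set.mem_ofPred_eq] at hw ⊢
      push_cast
      omega) (by
      intro e u v he ho
      obtain ⟨e', h1, h2⟩ := rotHalf_step e u v he
      exact ⟨e', h1, by rw [h2]; exact ho⟩)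
  refine ⟨_, _, ?_, ?_, h⟩
  · simp only
    omega
  · simp only
    omega

private lemma rotHalf_le (n N : ℕ) (hn : 1 ≤ n) (hN : 1 ≤ N) :
    1 ≤ Pr half {ω | RotCross ω n N} + Pr half {ω | RotCross ω N (n + 1)} := by
  have hσ : σ half = half := by
    ext
    simp [half]
    norm_num
  have h1 : (Set.univ : Set Config) ⊆ {ω | RotCross ω n N} ∪ {ω | dual ω ∈ rotHalfA n N} := by
    intro ω _
    exact rot_or_dual hn hN
  obtain ⟨s, hs⟩ := rot_local N (n + 1)
  have h2 : Pr half {ω | dual ω ∈ rotHalfA n N} = Pr half (rotHalfA n N) := by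
    rw [Pr_dual (rotHalf_local n N), hσ]
  have h3 : Pr half (rotHalfA n N) ≤ Pr half {ω | RotCross ω N (n + 1)} := by
    rw [← Pr_comp hs rotHalfE_inj.injOn]
    exact Pr_mono (rotHalf_sub n N)
  calc (1 : ℝ) = Pr half Set.univ := Pr_univ.symm
    _ ≤ Pr half ({ω | RotCross ω n N} ∪ {ω | dual ω ∈ rotHalfA n N}) := Pr_mono h1
    _ ≤ Pr half {ω | RotCross ω n N} + Pr half {ω | dual ω ∈ rotHalfA n N} := Pr_union_le
    _ ≤ _ := by rw [h2]; linarith

theorem rot_half {n : ℕ} (hn : 1 ≤ n) : 1 / 2 ≤ Pr half {ω | RotCross ω n (n + 1)} := by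
  have h1 := rotHalf_le n (n + 1) hn (by omega)
  have h2 : Pr half {ω | RotCross ω (n + 1) (n + 1)} ≤ Pr half {ω | RotCross ω n (n + 1)} :=
    Pr_mono fun ω hω => rot_mono_n (Nat.le_succ n) hω
  linarith

end Pool.Agent.H29.STP
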