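import Pool.Agent.H29.STP.RotMono

/-!
# Russo-Seymour-Welsh bound for long rotated rectangles
-/

open MeasureTheory ProbabilityTheory unitInterval

namespace Pool.Agent.H29.STP

open Pool.Agent.H89.Perc

/-- A left-right path of a rectangle and a bottom-top path of a narrower and higher rectangle
are connected. -/
theorem RotRsw_meet {ω : Config} {a b c d a' b' c' d' : ℤ} {u v p q : Vert}
    (h : Conn ω (rect a b c d) u v) (hu : u.1 = a) (hv : v.1 = b)
    (h' : Conn ω (rect a' b' c' d') p q) (hp : p.2 = c') (hq : q.2 = d')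
    (h1 : a ≤ a') (h2 : a' ≤ b') (h3 : b' ≤ b) (h4 : c' ≤ c) (h5 : c ≤ d) (h6 : d ≤ d') :
    ∃ z, Conn ω (rect a b c d) u z ∧ Conn ω (rect a' b' c' d') p z := by
  obtain ⟨u', v', hu', hv', k1, k2, -⟩ := h.cross_x (a := a') (b := b') (by omega) (by omega) h2
  obtain ⟨p', q', hp', hq', k3, k4, -⟩ := h'.cross_y (a := c) (b := d) (by omega) (by omega) h5
  have k5 : Conn ω (rect a' b' c d) u' v' := k1.mono_set (by
    intro w hw
    simp only [rect, Set.mem_inter_iff, Set.mem_ofPred_eq] at hw ⊢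
    omega)
  have k6 : Conn ω (rect a' b' c d) p' q' := k3.mono_set (by
    intro w hw
    simp only [rect, Set.mem_inter_iff, Set.mem_ofPred_eq] at hw ⊢
    omega)
  obtain ⟨w, k7, k8⟩ := cross k5 hu' hv' k6 hp' hq'
  refine ⟨w, k2.trans (k7.mono_set ?_), k4.trans (k8.mono_set ?_)⟩
  · intro w hw
    simp only [rect, Set.mem_ofPred_eq] at hw ⊢
    omega
  · intro w hw
    simp only [rect, Set.mem_ofPred_eq] at hw ⊢
    omega

/-- The staircase of crossings. -/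
def RotRsw_A (s : ℕ) : ℕ → Set Config
  | 0 => {ω | HCross ω 0 (4 * s) 0 s}
  | j + 1 => (RotRsw_A s j ∩
      {ω | VCross ω (3 * s * j + 3 * s) (3 * s * j + 4 * s) (-(3 * s * j) - 3 * s)
        (-(3 * s * j) + s)}) ∩
      {ω | HCross ω (3 * s * j + 3 * s) (3 * s * j + 7 * s) (-(3 * s * j) - 3 * s)
        (-(3 * s * j) - 2 * s)}

theorem RotRsw_incr (s j : ℕ) : Incr (RotRsw_A s j) := by
  induction j with
  | zero => exact incr_hcross _ _ _ _
  | succ j ih => exact (ih.inter (incr_vcross _ _ _ _)).inter (incr_hcross _ _ _ _)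

theorem RotRsw_local (s j : ℕ) : ∃ t : Finset Edge, LocalOn t (RotRsw_A s j) := by
  classical
  induction j with
  | zero => exact ⟨_, localOn_hcross _ _ _ _⟩
  | succ j ih =>
    obtain ⟨t, ht⟩ := ih
    exact ⟨_, (ht.inter' (localOn_vcross _ _ _ _)).inter' (localOn_hcross _ _ _ _)⟩

theorem RotRsw_h {c : ℝ} {s : ℕ} (hc : c ≤ Pr half {ω | HCross ω 0 (4 * s) 0 s})
    {a b a' b' : ℤ} (hab : b = a + 4 * s) (hab' : b' = a' + s) :
    c ≤ Pr half {ω | HCross ω a b a' b'} := by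
  have h := Pr_hcross_translate (p := half) (a := 0) (b := 4 * (s : ℤ)) (c := 0) (d := s) a a'
  have e1 : 4 * (s : ℤ) + a = b := by omega
  have e2 : (s : ℤ) + a' = b' := by omega
  rw [e1, e2, zero_add, zero_add] at h
  rw [h]
  exact hc

theorem RotRsw_v {c : ℝ} {s : ℕ} (hc : c ≤ Pr half {ω | HCross ω 0 (4 * s) 0 s})
    {a b a' b' : ℤ} (hab : b = a + s) (hab' : b' = a' + 4 * s) :
    c ≤ Pr half {ω | VCross ω a b a' b'} := by
  rw [Pr_vcross_eq_hcross]
  exact RotRsw_h hc hab' hab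

theorem RotRsw_pr {c : ℝ} (hc0 : 0 < c) {s : ℕ}
    (hc : c ≤ Pr half {ω | HCross ω 0 (4 * s) 0 s}) (j : ℕ) :
    c ^ (2 * j + 1) ≤ Pr half (RotRsw_A s j) := by
  classical
  induction j with
  | zero => simpa [RotRsw_A] using hc
  | succ j ih =>
    obtain ⟨t, ht⟩ := RotRsw_local s j
    have hv := RotRsw_v hc (a := 3 * s * j + 3 * s) (b := 3 * s * j + 4 * s)
      (a' := -(3 * s * j) - 3 * s) (b' := -(3 * s * j) + s) (by ring) (by ring)
    have hh := RotRsw_h hc (a := 3 * s * j + 3 * s) (b := 3 * s * j + 7 * s)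
      (a' := -(3 * s * j) - 3 * s) (b' := -(3 * s * j) - 2 * s) (by ring) (by ring)
    have k1 := fkg (p := half) ht
      (localOn_vcross (3 * s * j + 3 * s) (3 * s * j + 4 * s) (-(3 * s * j) - 3 * s)
        (-(3 * s * j) + s)) (RotRsw_incr s j) (incr_vcross _ _ _ _)
    have k2 := fkg (p := half) (ht.inter' (localOn_vcross (3 * s * j + 3 * s) (3 * s * j + 4 * s)
      (-(3 * s * j) - 3 * s) (-(3 * s * j) + s)))
      (localOn_hcross (3 * s * j + 3 * s) (3 * s * j + 7 * s) (-(3 * s * j) - 3 * s)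
        (-(3 * s * j) - 2 * s)) ((RotRsw_incr s j).inter (incr_vcross _ _ _ _))
        (incr_hcross _ _ _ _)
    refine le_trans ?_ k2
    refine le_trans ?_ (mul_le_mul_of_nonneg_right k1 Pr_nonneg)
    have e : c ^ (2 * (j + 1) + 1) = c ^ (2 * j + 1) * c * c := by ring
    rw [e]
    exact mul_le_mul (mul_le_mul ih hv hc0.le Pr_nonneg) hh hc0.le
      (mul_nonneg Pr_nonneg Pr_nonneg)

/-- The staircase contains a path. -/
theorem RotRsw_path {ω : Config} {s : ℕ} (j : ℕ) (h : ω ∈ RotRsw_A s j) :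
    ∃ u v w : Vert, u.1 - u.2 ≤ 0 ∧ v.1 = 3 * s * j ∧ w.1 = 3 * s * j + 4 * s ∧
      Conn ω (rect (3 * s * j) (3 * s * j + 4 * s) (-(3 * s * j)) (-(3 * s * j) + s)) v w ∧
      Conn ω {z | 0 ≤ z.1 + z.2 ∧ z.1 + z.2 ≤ 5 * s} u v := by
  induction j with
  | zero =>
    obtain ⟨u, v, hu, hv, hc⟩ := h
    have hm := hc.mem_left
    simp only [rect, Set.mem_ofPred_eq] at hm
    refine ⟨u, u, v, by omega, by simpa using hu, by simpa using hv, by simpa using hc,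
      Conn.refl ?_⟩
    simp only [Set.mem_ofPred_eq]
    omega
  | succ j ih =>
    obtain ⟨⟨h1, p, q, hp, hq, hpq⟩, v', w', hv', hw', hvw'⟩ := h
    obtain ⟨u, v, w, hu, hv, hw, hvw, huv⟩ := ih h1
    obtain ⟨X, hX⟩ : ∃ X : ℤ, X = 3 * s * j := ⟨_, rfl⟩
    rw [← hX] at hpq hp hq hv hw hvw hv' hw' hvw'
    have hs : (0 : ℤ) ≤ s := by positivity
    obtain ⟨z, z1, z2⟩ := RotRsw_meet hvw hv hw hpq hp hq (by omega) (by omega) (by omega)
      (by omega) (by omega) (by omega)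
    obtain ⟨z', z3, z4⟩ := RotRsw_meet hvw' hv' hw' hpq hp hq (by omega) (by omega) (by omega)
      (by omega) (by omega) (by omega)
    have hsub1 : rect X (X + 4 * s) (-X) (-X + s) ⊆ {z | 0 ≤ z.1 + z.2 ∧ z.1 + z.2 ≤ 5 * s} := by
      intro z hz
      simp only [rect, Set.mem_ofPred_eq] at hz ⊢
      omega
    have hsub2 : rect (X + 3 * s) (X + 4 * s) (-X - 3 * s) (-X + s) ⊆
        {z | 0 ≤ z.1 + z.2 ∧ z.1 + z.2 ≤ 5 * s} := by
      intro z hz
      simp only [rect, Set.mem_ofPred_eq] at hz ⊢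
      omega
    have hsub3 : rect (X + 3 * s) (X + 7 * s) (-X - 3 * s) (-X - 2 * s) ⊆
        {z | 0 ≤ z.1 + z.2 ∧ z.1 + z.2 ≤ 5 * s} := by
      intro z hz
      simp only [rect, Set.mem_ofPred_eq] at hz ⊢
      omega
    have e1 : (3 : ℤ) * s * ((j + 1 : ℕ) : ℤ) = X + 3 * s := by
      rw [hX]; push_cast; ring
    rw [e1]
    refine ⟨u, v', w', hu, hv', by omega, ?_, ?_⟩
    · refine hvw'.mono_set ?_
      intro z hz
      simp only [rect, Set.mem_ofPred_eq] at hz ⊢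
      omega
    · exact ((huv.trans (z1.mono_set hsub1)).trans ((z2.mono_set hsub2).symm.trans
        (z4.mono_set hsub2))).trans (z3.mono_set hsub3).symm

theorem rot_rsw (L : ℕ) : ∃ c > (0 : ℝ), ∃ N0 : ℕ, ∀ N ≥ N0,
    c ≤ Pr half {ω | RotCross ω (L * N) N} := by
  obtain ⟨c, hc, h⟩ := rsw
  refine ⟨c ^ (2 * (2 * L) + 1), by positivity, 3, fun N hN => ?_⟩
  obtain ⟨s, hs⟩ : ∃ s : ℕ, s = N / 3 := ⟨_, rfl⟩
  have hs1 : 1 ≤ s := by omega
  have hs2 : 3 * s ≤ N := by omega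
  have hs3 : N ≤ 6 * s := by omega
  refine (RotRsw_pr hc (h s hs1) (2 * L)).trans (Pr_mono ?_)
  intro ω hω
  obtain ⟨u, v, w, hu, hv, hw, hvw, huv⟩ := RotRsw_path (2 * L) hω
  have hwm := hvw.mem_right
  simp only [rect, Set.mem_ofPred_eq] at hwm
  have hsub : rect (3 * s * ((2 * L : ℕ) : ℤ)) (3 * s * ((2 * L : ℕ) : ℤ) + 4 * s)
      (-(3 * s * ((2 * L : ℕ) : ℤ))) (-(3 * s * ((2 * L : ℕ) : ℤ)) + s) ⊆
      {z | 0 ≤ z.1 + z.2 ∧ z.1 + z.2 ≤ 5 * s} := by
    intro z hz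
    simp only [rect, Set.mem_ofPred_eq] at hz ⊢
    omega
  have huw := huv.trans (hvw.mono_set hsub)
  have e1 : (L : ℤ) * N ≤ 3 * s * ((2 * L : ℕ) : ℤ) := by
    have h1 : (N : ℤ) ≤ 6 * s := by exact_mod_cast hs3
    have h2 : (0 : ℤ) ≤ L := by positivity
    push_cast
    nlinarith [mul_le_mul_of_nonneg_left h1 h2]
  have e2 : (2 * (L * N : ℕ) : ℤ) ≤ w.1 - w.2 := by
    push_cast
    have : (0 : ℤ) ≤ s := by positivity
    linarith [hwm.1, hwm.2.1, hwm.2.2.1, hwm.2.2.2]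
  obtain ⟨u', v', hu', hv', hc'⟩ := conn_cut_k huw hu e2 (by positivity)
  refine ⟨u', v', hu', hv', hc'.mono_set ?_⟩
  intro z hz
  simp only [RotR, Set.mem_inter_iff, Set.mem_ofPred_eq] at hz ⊢
  have h3 : (3 * s : ℤ) ≤ N := by exact_mod_cast hs2
  refine ⟨hz.2.1, hz.2.2, hz.1.1, ?_⟩
  have : (0 : ℤ) ≤ s := by positivity
  linarith [hz.1.2]

end Pool.Agent.H29.STP
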