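import Pool.Agent.H29.STP.Cmp
import Pool.Agent.H29.STP.ChainP
import Pool.Agent.H29.STP.ChainC
import Pool.Agent.H29.STP.RotHalf
import Pool.Agent.H29.STP.RotRsw

/-!
# Bound for the survival probability of the discretised front process
-/

open MeasureTheory ProbabilityTheory Filter

namespace Pool.Agent.H29.STP

open Pool.Agent.H89.Perc

theorem DD_le_rot {n : ℕ} (hn : 1 ≤ n) (N : ℕ) :
    ((DD n) ^ N) (al n) bot ≤ 1 - Pr half {ω | RotCross ω n N} := by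
  rw [DD_pow_eq hn N]
  obtain ⟨s, hs⟩ := rot_local n N
  rw [← Pr_compl hs]
  refine Pr_mono ?_
  intro ω hω hc
  exact hω (chain_of_cross hn hc)

theorem FinA_arith {c0 a b ε : ℝ} (hc0 : 0 < c0) (hc1 : c0 ≤ 1) (hb0 : 0 ≤ b)
    (he0 : 0 ≤ ε) (he : ε ≤ c0 / 10) (ha : a ≤ 1 / 2 + ε) (hb : b ≤ 1 - c0 + ε) :
    a * b ≤ 1 / 2 - c0 / 4 := by
  have h1 : a * b ≤ (1 / 2 + ε) * b := mul_le_mul_of_nonneg_right ha hb0
  have h2 : (1 / 2 + ε) * b ≤ (1 / 2 + ε) * (1 - c0 + ε) :=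
    mul_le_mul_of_nonneg_left hb (by linarith)
  have h3 : ε * ε ≤ ε * 1 := mul_le_mul_of_nonneg_left (by linarith) he0
  have h4 : 0 ≤ ε * c0 := mul_nonneg he0 hc0.le
  nlinarith

theorem survive_bound : ∃ c > (0 : ℝ), ∃ n0 : ℕ, ∀ n ≥ n0, ∃ K : ℕ,
    (49 / 50 : ℝ) * K < n ∧ ∀ M : ℕ, (49 / 50 : ℝ) * (2 * n - 1) ≤ M →
      ((P n (49 / 50 / M)) ^ (M * K)) (al n) bot ≤ 1 / 2 - c := by
  obtain ⟨c0, hc0, N0, hN0⟩ := rot_rsw 200
  have hc1 : c0 ≤ 1 := (hN0 N0 le_rfl).trans Pr_le_one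
  obtain ⟨n1, hn1⟩ := exists_nat_ge (160000000 / c0)
  refine ⟨c0 / 4, by linarith, max n1 (max 2000 (100 * N0 + 100)), ?_⟩
  intro n hn
  have hnn1 : n1 ≤ n := (le_max_left _ _).trans hn
  have hn2000 : 2000 ≤ n := ((le_max_left _ _).trans (le_max_right _ _)).trans hn
  have hnN : 100 * N0 + 100 ≤ n := ((le_max_right _ _).trans (le_max_right _ _)).trans hn
  obtain ⟨H, hH⟩ : ∃ H, H = n / 1000 := ⟨_, rfl⟩
  obtain ⟨N', hN'⟩ : ∃ N', N' = n / 100 := ⟨_, rfl⟩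
  have hH1 : 1 ≤ H := by omega
  have hHle : 1000 * H ≤ n := by omega
  have hHge : n ≤ 2000 * H := by omega
  have hN'le : 100 * N' ≤ n := by omega
  have hN'ge : n ≤ 200 * N' := by omega
  have hN'0 : N0 ≤ N' := by omega
  have hnR : (2000 : ℝ) ≤ n := by exact_mod_cast hn2000
  have hHR : (1 : ℝ) ≤ H := by exact_mod_cast hH1
  have hHleR : 1000 * (H : ℝ) ≤ n := by exact_mod_cast hHle
  have hHgeR : (n : ℝ) ≤ 2000 * H := by exact_mod_cast hHge
  have hN'leR : 100 * (N' : ℝ) ≤ n := by exact_mod_cast hN'le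
  have hN'0R : (0 : ℝ) ≤ N' := Nat.cast_nonneg _
  have hn1R : 160000000 / c0 ≤ (n : ℝ) := hn1.trans (by exact_mod_cast hnn1)
  have hn1R' : 160000000 ≤ (n : ℝ) * c0 := (div_le_iff₀ hc0).1 hn1R
  have hH2 : (0 : ℝ) < (H : ℝ) ^ 2 := by positivity
  -- the error term
  have herr : ∀ x : ℝ, x ≤ 2 * n → 2 * x / (H : ℝ) ^ 2 ≤ c0 / 10 := by
    intro x hx
    rw [div_le_iff₀ hH2]
    have h1 : (n : ℝ) * (n : ℝ) ≤ 4000000 * (H : ℝ) ^ 2 := by
      nlinarith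
    have h2 : 160000000 * (n : ℝ) ≤ (n : ℝ) * c0 * n :=
      mul_le_mul_of_nonneg_right hn1R' (by linarith)
    have h3 : (n : ℝ) * c0 * n ≤ c0 * (4000000 * (H : ℝ) ^ 2) := by
      have := mul_le_mul_of_nonneg_left h1 hc0.le
      linarith
    linarith
  refine ⟨(n + 1 + 2 * H) + (N' + 2 * H), ?_, ?_⟩
  · push_cast
    linarith
  · intro M hM
    have hMpos : (0 : ℝ) < M := lt_of_lt_of_le (by linarith) hM
    have hδ0 : (0 : ℝ) ≤ 49 / 50 / M := by positivity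
    have hδ1 : (49 / 50 / M : ℝ) * (2 * n - 1) ≤ 1 := by
      rw [div_mul_eq_mul_div, div_le_one hMpos]
      exact hM
    have hn2 : 2 ≤ n := by omega
    have hn1' : 1 ≤ n := by omega
    rw [Nat.mul_add]
    refine (submult hn1' hδ0 hδ1 _ _).trans ?_
    have hA := comparison (N := n + 1) hn2 hM hH1
    have hB := comparison (N := N') hn2 hM hH1
    have hA1 := DD_le_rot hn1' (n + 1)
    have hA2 := rot_half hn1'
    have hB1 := DD_le_rot hn1' N'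
    have hB2 : c0 ≤ Pr half {ω | RotCross ω n N'} :=
      (hN0 N' hN'0).trans (Pr_mono fun ω hω => rot_mono_n hN'ge hω)
    have hA3 := herr ((n + 1 : ℕ) : ℝ) (by push_cast; linarith)
    have hB3 := herr (N' : ℝ) (by linarith)
    refine FinA_arith (ε := c0 / 10) hc0 hc1 (P_pow_al_mem hn1' hδ0 hδ1 _).1 (by linarith) le_rfl
      ?_ ?_
    · linarith
    · linarith

end Pool.Agent.H29.STP
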