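import Mathlib

/-!
# The factors which come from cells with several points tend to one
-/

open Filter

namespace Pool.Agent.H29.STP

theorem discretisation {n K : ℕ} (hn : 1 ≤ n) (hK : (49 / 50 : ℝ) * K < n) {η : ℝ} (hη : 0 < η) :
    ∃ M : ℕ, (49 / 50 : ℝ) * (2 * n - 1) ≤ M ∧ ∃ δ : ℝ, 0 < δ ∧ ((M * K : ℕ) : ℝ) * δ ≤ n ∧
      δ / (1 + ((2 * n - 1 : ℕ) : ℝ) * δ) = 49 / 50 / M ∧
      1 - η ≤ (Real.exp (-((2 * n - 1 : ℕ) : ℝ) * δ) *
        (1 + ((2 * n - 1 : ℕ) : ℝ) * δ)) ^ (M * K) := by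
  obtain ⟨c, hc⟩ : ∃ c : ℝ, c = ((2 * n - 1 : ℕ) : ℝ) := ⟨_, rfl⟩
  have hc2 : c = 2 * n - 1 := by
    rw [hc, Nat.cast_sub (by omega)]
    push_cast
    ring
  have hc1 : 1 ≤ c := by
    have h1 : (1 : ℝ) ≤ n := by exact_mod_cast hn
    rw [hc2]
    linarith
  have hn1 : (1 : ℝ) ≤ n := by exact_mod_cast hn
  rw [← hc, ← hc2]
  obtain ⟨κ, hκ⟩ : ∃ κ : ℝ, κ = 49 / 50 := ⟨_, rfl⟩
  have hκ0 : 0 < κ := by rw [hκ]; norm_num
  rw [← hκ] at hK ⊢
  have hd : 0 < (n : ℝ) - κ * K := by linarith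
  obtain ⟨M, hM⟩ := exists_nat_gt (c * κ + n * c * κ / (n - κ * K) + κ * n * c ^ 2 / η + κ * c)
  have p1 : 0 ≤ n * c * κ / (n - κ * K) := by positivity
  have p2 : 0 ≤ κ * n * c ^ 2 / η := by positivity
  have p3 : 0 < κ * c := by positivity
  have p4 : 0 < c * κ := by positivity
  have q1 : n * c * κ / (n - κ * K) ≤ M := by linarith
  have q2 : κ * n * c ^ 2 / η ≤ M - c * κ := by linarith
  have q3 : κ * c ≤ M - c * κ := by linarith
  have hMc : 0 < (M : ℝ) - c * κ := by linarith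
  have hM0 : 0 < (M : ℝ) := by linarith
  have hδ0 : 0 < κ / (M - c * κ) := by positivity
  have h1 : ((M * K : ℕ) : ℝ) * (κ / (M - c * κ)) ≤ n := by
    rw [← mul_div_assoc, div_le_iff₀ hMc]
    rw [div_le_iff₀ hd] at q1
    push_cast
    nlinarith
  have h2 : c * (κ / (M - c * κ)) ≤ 1 := by
    rw [← mul_div_assoc, div_le_one hMc]
    linarith
  have h3 : 0 < c * (κ / (M - c * κ)) := by positivity
  refine ⟨M, by linarith, κ / (M - c * κ), hδ0, h1, ?_, ?_⟩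
  · have h4 : 1 + c * (κ / (M - c * κ)) = M / (M - c * κ) := by
      field_simp
      ring
    rw [h4, div_div_div_cancel_right₀ hMc.ne']
  · set x := c * (κ / (M - c * κ)) with hx
    have h4 : 1 - x ^ 2 ≤ Real.exp (-c * (κ / (M - c * κ))) * (1 + x) := by
      have h5 : 1 - x ≤ Real.exp (-c * (κ / (M - c * κ))) := by
        have h6 := Real.add_one_le_exp (-x)
        have h7 : -c * (κ / (M - c * κ)) = -x := by rw [hx]; ring
        rw [h7]
        linarith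
      nlinarith
    have h5 : 0 ≤ 1 - x ^ 2 := by nlinarith
    have h6 : (1 - x ^ 2) ^ (M * K) ≤
        (Real.exp (-c * (κ / (M - c * κ))) * (1 + x)) ^ (M * K) :=
      pow_le_pow_left₀ h5 h4 _
    have h7 := one_add_mul_le_pow (a := -(x ^ 2)) (by nlinarith) (M * K)
    have h8 : ((M * K : ℕ) : ℝ) * x ^ 2 ≤ η := by
      have h9 : ((M * K : ℕ) : ℝ) * x ^ 2 =
          (((M * K : ℕ) : ℝ) * (κ / (M - c * κ))) * (c ^ 2 * (κ / (M - c * κ))) := by
        rw [hx]; ring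
      rw [h9]
      have h10 : 0 ≤ c ^ 2 * (κ / (M - c * κ)) := by positivity
      calc _ ≤ (n : ℝ) * (c ^ 2 * (κ / (M - c * κ))) := mul_le_mul_of_nonneg_right h1 h10
        _ ≤ η := by
          rw [div_le_iff₀ hη] at q2
          rw [← mul_div_assoc, ← mul_div_assoc, div_le_iff₀ hMc]
          nlinarith
    have h11 : (1 + -(x ^ 2)) = 1 - x ^ 2 := by ring
    rw [h11] at h7
    linarith

end Pool.Agent.H29.STP
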