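import Pool.Agent.H29.STP.PoiB

/-!
# Lower bound for the crossing probability by the discrete-time front process
-/

open MeasureTheory ProbabilityTheory

namespace Pool.Agent.H29.STP

lemma PoiC_P_one (n : ℕ) (δ : ℝ) (L : ℕ) :
    ((P n δ) ^ L) (fun _ => (1 : ℝ)) = fun _ => 1 := by
  induction L with
  | zero => rfl
  | succ L ih =>
    rw [pow_succ, Module.End.mul_apply]
    have : P n δ (fun _ => (1 : ℝ)) = fun _ => 1 := by
      rw [P, LinearMap.sub_apply, LinearMap.smul_apply, H0_one, smul_zero, sub_zero]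
      rfl
    rw [this, ih]

lemma PoiC_smul_pow (a : ℝ) (A : Op) (L : ℕ) (f : St → ℝ) (s : St) :
    ((a • A) ^ L) f s = a ^ L * (A ^ L) f s := by
  rw [smul_pow, LinearMap.smul_apply, Pi.smul_apply, smul_eq_mul]

theorem poisson_lower {Ω : Type*} [MeasurableSpace Ω] {Pm : Measure Ω} [IsProbabilityMeasure Pm]
    {Ξ : Bool × ℤ → Ω → Set ℝ} (hΞ : IsPoisson Pm Ξ) {n : ℕ} (hn : 1 ≤ n) {δ : ℝ} (hδ : 0 < δ)
    {L : ℕ} (hL : L * δ ≤ n) :
    ∃ A : Set Ω, MeasurableSet A ∧ A ⊆ CEvent Ξ n ∧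
      (Real.exp (-((2 * n - 1 : ℕ) : ℝ) * δ) * (1 + ((2 * n - 1 : ℕ) : ℝ) * δ)) ^ L *
        (1 - ((P n (δ / (1 + ((2 * n - 1 : ℕ) : ℝ) * δ))) ^ L) (al n) bot) ≤ Pm.real A := by
  classical
  let D : Finset (Fin L → Option (Fin (2 * n - 1))) :=
    Finset.univ.filter fun w => J n (runW (extW w) L) = 0
  let B : (Fin L → Option (Fin (2 * n - 1))) → Set Ω := fun w =>
    {ω | WordOn (fun i => Ξ i ω) n δ L (extW w)}
  refine ⟨⋃ w ∈ D, B w, Finset.measurableSet_biUnion _ fun w _ =>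
    measurableSet_wordOn hΞ n δ L (extW w), ?_, ?_⟩
  · intro ω hω
    obtain ⟨w, hw, hωw⟩ := Set.mem_iUnion₂.1 hω
    have hJ : J n (runW (extW w) L) = 0 := (Finset.mem_filter.1 hw).2
    refine cross_of_word (Ξ := fun i => Ξ i ω) hn hδ hL (w := extW w) ?_ hωw hJ
    intro i hi j hj
    simp only [extW, dif_pos hi, Option.map_eq_some_iff] at hj
    obtain ⟨a, -, rfl⟩ := hj
    exact a.2
  · have hdisj : Set.PairwiseDisjoint (↑D) B := by
      intro w _ w' _ hne
      refine Set.disjoint_left.2 fun ω h1 h2 => hne ?_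
      exact wordOn_unique (Ξ := fun i => Ξ i ω) h1 h2
    have hreal : Pm.real (⋃ w ∈ D, B w) = ∑ w ∈ D, Pm.real (B w) :=
      measureReal_biUnion_finset hdisj fun w _ => measurableSet_wordOn hΞ n δ L (extW w)
    have hsum : ∑ w ∈ D, Pm.real (B w) =
        ∑ w : Fin L → Option (Fin (2 * n - 1)),
          (∏ i : Fin L, wt n δ ((w i).map Fin.val)) *
            ((fun _ => (1 : ℝ)) - al n : St → ℝ) (runW (extW w) L) := by
      rw [Finset.sum_filter]
      refine Finset.sum_congr rfl fun w _ => ?_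
      have h1 : Pm.real (B w) = ∏ i : Fin L, wt n δ ((w i).map Fin.val) :=
        prob_wordOn hΞ hn hδ L w
      by_cases hJ : J n (runW (extW w) L) = 0
      · rw [if_pos hJ, h1]
        simp [al, hJ]
      · rw [if_neg hJ]
        simp [al, hJ]
    rw [hreal, hsum, sum_words, step_eq n hδ, PoiC_smul_pow, map_sub, PoiC_P_one]
    rfl

end Pool.Agent.H29.STP
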