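import Pool.Agent.H29.STP.FinA
import Pool.Agent.H29.STP.FinB
import Pool.Agent.H29.STP.PoiC

/-!
# The main theorem
-/

open MeasureTheory ProbabilityTheory Filter

namespace Pool.Agent.H29.STP

universe u

theorem main_bound : ∃ c > (0 : ℝ), ∃ n0 : ℕ, ∀ n ≥ n0,
    ∀ {Ω : Type u} [MeasurableSpace Ω] {Pm : Measure Ω} [IsProbabilityMeasure Pm]
      {Ξ : Bool × ℤ → Ω → Set ℝ}, IsPoisson Pm Ξ →
      ∃ A : Set Ω, MeasurableSet A ∧ A ⊆ CEvent Ξ n ∧ 1 / 2 + c ≤ Pm.real A := by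
  obtain ⟨c, hc, n0, h⟩ := survive_bound
  refine ⟨c / 2, by positivity, max n0 1, fun n hn => ?_⟩
  intro Ω _ Pm _ Ξ hΞ
  obtain ⟨K, hK, hM⟩ := h n (le_trans (le_max_left _ _) hn)
  have hn1 : 1 ≤ n := le_trans (le_max_right _ _) hn
  have h12 : (0 : ℝ) < 1 / 2 + c := by positivity
  obtain ⟨M, hM1, δ, hδ, hL, hδ', hρ⟩ :=
    discretisation hn1 hK (η := (c / 2) / (1 / 2 + c)) (by positivity)
  have hZ := hM M hM1
  obtain ⟨A, hA, hAC, hAP⟩ := poisson_lower hΞ hn1 hδ hL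
  refine ⟨A, hA, hAC, le_trans ?_ hAP⟩
  rw [hδ']
  have h1 : 1 / 2 + c ≤ 1 - ((P n (49 / 50 / M)) ^ (M * K)) (al n) bot := by linarith
  have h2 : (1 - (c / 2) / (1 / 2 + c)) * (1 / 2 + c) = 1 / 2 + c / 2 := by
    field_simp
    ring
  have h3 : 0 ≤ 1 - (c / 2) / (1 / 2 + c) := by
    rw [sub_nonneg, div_le_one h12]
    linarith
  rw [← h2]
  exact mul_le_mul hρ h1 h12.le (h3.trans hρ)

theorem not_tendsto {Ω : Type u} [MeasurableSpace Ω] {Pm : Measure Ω} [IsProbabilityMeasure Pm]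
    {Ξ : Bool × ℤ → Ω → Set ℝ} (hΞ : IsPoisson Pm Ξ) :
    ¬ Tendsto (fun n => Pm.real (CEvent Ξ n)) atTop (nhds (1 / 2)) := by
  intro ht
  obtain ⟨c, hc, n0, h⟩ := main_bound.{u}
  have h1 : ∀ᶠ n in atTop, Pm.real (CEvent Ξ n) < 1 / 2 + c :=
    ht.eventually (gt_mem_nhds (by linarith))
  obtain ⟨n, hn1, hn2⟩ := (h1.and (eventually_ge_atTop n0)).exists
  obtain ⟨A, hA, hAC, hAP⟩ := h n hn2 hΞ
  have h3 : Pm.real A ≤ Pm.real (CEvent Ξ n) := measureReal_mono hAC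
  linarith

end Pool.Agent.H29.STP
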