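import Pool.Agent.H29.STP.JLem

/-!
# The generator applied to functions of the number of unstraddled gaps, part 1
-/

namespace Pool.Agent.H29.STP

open Classical in
/-- Indicator of an unstraddled gap. -/
noncomputable def GenA_a (m : ℕ) (s : St) (g : ℕ) : ℕ := if U m s g then 1 else 0

lemma GenA_J_eq (m : ℕ) (s : St) : J m s = ∑ g ∈ Finset.range m, GenA_a m s g := by
  unfold J GenA_a
  rw [Finset.card_filter]

lemma GenA_bb_eq (m : ℕ) (s : St) : bb m s = GenA_a m s 0 + GenA_a m s (m - 1) := rfl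

/-- The number of columns whose cut can change the unstraddled gaps. -/
theorem card_mixed_le {m : ℕ} (hm : 2 ≤ m) (s : St) :
    open Classical in
    ((Finset.range (m - 1)).filter (fun k => ¬ (U m s k ↔ U m s (k + 1)))).card + bb m s ≤
      2 * J m s := by
  classical
  obtain ⟨n, rfl⟩ : ∃ n, m = n + 1 := ⟨m - 1, by omega⟩
  have h1 : J (n + 1) s = ∑ g ∈ Finset.range n, GenA_a (n + 1) s g + GenA_a (n + 1) s n := by
    rw [GenA_J_eq, Finset.sum_range_succ]
  have h2 : J (n + 1) s = ∑ g ∈ Finset.range n, GenA_a (n + 1) s (g + 1) +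
      GenA_a (n + 1) s 0 := by
    rw [GenA_J_eq, Finset.sum_range_succ']
  have h3 : bb (n + 1) s = GenA_a (n + 1) s 0 + GenA_a (n + 1) s n := by
    rw [GenA_bb_eq, Nat.add_sub_cancel]
  have h4 : ((Finset.range (n + 1 - 1)).filter
      (fun k => ¬ (U (n + 1) s k ↔ U (n + 1) s (k + 1)))).card ≤
      ∑ g ∈ Finset.range n, GenA_a (n + 1) s g + ∑ g ∈ Finset.range n, GenA_a (n + 1) s (g + 1) := by
    rw [Nat.add_sub_cancel, Finset.card_filter, ← Finset.sum_add_distrib]
    apply Finset.sum_le_sum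
    intro k _
    unfold GenA_a
    by_cases ha : U (n + 1) s k <;> by_cases hb : U (n + 1) s (k + 1) <;> simp [ha, hb]
  have h5 : ((Finset.range (n + 1 - 1)).filter
      (fun k => ¬ (U (n + 1) s k ↔ U (n + 1) s (k + 1)))).card + bb (n + 1) s ≤
      2 * J (n + 1) s := by
    omega
  convert h5

/-- Splitting a sum over the generators into bridges and cuts. -/
theorem sum_ev_split {m : ℕ} (hm : 1 ≤ m) (G : ℕ → ℝ) :
    ∑ j ∈ Finset.range (2 * m - 1), G j =
      ∑ k ∈ Finset.range m, G (2 * k) + ∑ k ∈ Finset.range (m - 1), G (2 * k + 1) := by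
  obtain ⟨n, rfl⟩ : ∃ n, m = n + 1 := ⟨m - 1, by omega⟩
  clear hm
  have e1 : 2 * (n + 1) - 1 = 2 * n + 1 := by omega
  rw [e1, Nat.add_sub_cancel]
  induction n with
  | zero => simp
  | succ n ih =>
    have ih' := ih (by omega)
    have e2 : 2 * (n + 1) + 1 = 2 * n + 1 + 1 + 1 := by ring
    rw [e2, Finset.sum_range_succ, Finset.sum_range_succ, ih',
      Finset.sum_range_succ (fun k => G (2 * k)) (n + 1),
      Finset.sum_range_succ (fun k => G (2 * k + 1)) n]
    have e3 : 2 * (n + 1) = 2 * n + 1 + 1 := by ring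
    rw [e3]
    ring

/-- The bridges. -/
lemma GenA_bridges {m : ℕ} (Ψ : ℕ → ℝ) (s : St) :
    ∑ k ∈ Finset.range m, (Ψ (J m (ev (2 * k) s)) - Ψ (J m s)) =
      (J m s : ℝ) * (Ψ (J m s - 1) - Ψ (J m s)) := by
  classical
  have h1 : ∀ k ∈ Finset.range m, Ψ (J m (ev (2 * k) s)) - Ψ (J m s) =
      (GenA_a m s k : ℝ) * (Ψ (J m s - 1) - Ψ (J m s)) := by
    intro k hk
    have hk' : k < m := Finset.mem_range.mp hk
    rw [ev_even]
    unfold GenA_a
    by_cases hU : U m s k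
    · have h2 := J_br hk' hU
      have h3 : J m (br k s) = J m s - 1 := by omega
      rw [h3, if_pos hU]
      simp
    · rw [J_br' hk' hU, if_neg hU]
      simp
  rw [Finset.sum_congr rfl h1, ← Finset.sum_mul, GenA_J_eq]
  push_cast
  rfl

/-- The cuts. -/
lemma GenA_cuts {m : ℕ} (hm : 2 ≤ m) (Ψ : ℕ → ℝ) (hΨ : ∀ i, 0 ≤ Ψ i) (s : St) :
    -((2 * J m s - bb m s) * Ψ (J m s)) ≤
      ∑ k ∈ Finset.range (m - 1), (Ψ (J m (ev (2 * k + 1) s)) - Ψ (J m s)) := by
  classical
  have h1 : ∀ k ∈ Finset.range (m - 1),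
      -((if ¬ (U m s k ↔ U m s (k + 1)) then (1 : ℝ) else 0) * Ψ (J m s)) ≤
        Ψ (J m (ev (2 * k + 1) s)) - Ψ (J m s) := by
    intro k hk
    have hk' : k + 1 < m := by
      have := Finset.mem_range.mp hk
      omega
    rw [ev_odd]
    by_cases hU : (U m s k ↔ U m s (k + 1))
    · rw [J_ct_eq hk' hU, if_neg (not_not.mpr hU)]
      simp
    · rw [if_pos hU]
      have := hΨ (J m (ct (k + 1) s))
      linarith
  refine le_trans ?_ (Finset.sum_le_sum h1)
  rw [Finset.sum_neg_distrib, neg_le_neg_iff, ← Finset.sum_mul]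
  apply mul_le_mul_of_nonneg_right _ (hΨ _)
  rw [Finset.sum_boole]
  have h2 := card_mixed_le hm s
  have h3 : ((((Finset.range (m - 1)).filter
      (fun k => ¬ (U m s k ↔ U m s (k + 1)))).card + bb m s : ℕ) : ℝ) ≤ ((2 * J m s : ℕ) : ℝ) := by
    apply Nat.cast_le.mpr
    convert h2
  push_cast at h3
  linarith

/-- The generator with equal rates, on functions of `J`. -/
theorem gen0 {m : ℕ} (hm : 2 ≤ m) (Ψ : ℕ → ℝ) (hΨ : ∀ i, 0 ≤ Ψ i) (s : St) :
    (J m s : ℝ) * (Ψ (J m s - 1) - Ψ (J m s)) - (2 * J m s - bb m s) * Ψ (J m s) ≤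
      ∑ j ∈ Finset.range (2 * m - 1), (Ψ (J m (ev j s)) - Ψ (J m s)) := by
  rw [sum_ev_split (by omega) (fun j => Ψ (J m (ev j s)) - Ψ (J m s))]
  have h1 := GenA_bridges (m := m) Ψ s
  have h2 := GenA_cuts hm Ψ hΨ s
  linarith

end Pool.Agent.H29.STP
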