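import Pool.Agent.H29.STP.GenA

/-!
# The generator applied to functions of the number of unstraddled gaps, part 2
-/

namespace Pool.Agent.H29.STP

/-- The function `Ψ J + b X J`. -/
noncomputable def gg (Ψ X : ℕ → ℝ) (m : ℕ) (s : St) : ℝ :=
  Ψ (J m s) + (bb m s : ℝ) * X (J m s)

open Classical in
theorem GenB_bb_cast (m : ℕ) (s : St) :
    (bb m s : ℝ) = (if U m s 0 then 1 else 0) + (if U m s (m - 1) then 1 else 0) := by
  unfold bb
  push_cast
  rfl

open Classical in
theorem GenB_bb_congr {m : ℕ} {s s' : St} (h0 : U m s' 0 ↔ U m s 0)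
    (h1 : U m s' (m - 1) ↔ U m s (m - 1)) : bb m s' = bb m s := by
  unfold bb
  rw [if_congr h0 rfl rfl, if_congr h1 rfl rfl]

/-- A bridge in a straddled gap changes nothing. -/
theorem GenB_br_neg {m k : ℕ} (hm : 2 ≤ m) (Ψ X : ℕ → ℝ) (s : St) (hk : k < m)
    (h : ¬ U m s k) : gg Ψ X m (br k s) = gg Ψ X m s := by
  have hb : bb m (br k s) = bb m s := by
    apply GenB_bb_congr
    · rw [U_br hk (by omega)]
      constructor
      · exact fun h' => h'.1
      · exact fun h' => ⟨h', fun e => h (e ▸ h')⟩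
    · rw [U_br hk (by omega)]
      constructor
      · exact fun h' => h'.1
      · exact fun h' => ⟨h', fun e => h (e ▸ h')⟩
  unfold gg
  rw [J_br' hk h, hb]

/-- A bridge in an unstraddled interior gap. -/
theorem GenB_br_int {m k : ℕ} (hm : 2 ≤ m) (Ψ X : ℕ → ℝ) (s : St) (hk : k < m)
    (h : U m s k) (h0 : k ≠ 0) (h1 : k ≠ m - 1) :
    gg Ψ X m (br k s) = Ψ (J m s - 1) + bb m s * X (J m s - 1) := by
  have hb : bb m (br k s) = bb m s := by
    apply GenB_bb_congr
    · rw [U_br hk (by omega)]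
      exact ⟨fun h' => h'.1, fun h' => ⟨h', Ne.symm h0⟩⟩
    · rw [U_br hk (by omega)]
      exact ⟨fun h' => h'.1, fun h' => ⟨h', Ne.symm h1⟩⟩
  have hJ : J m (br k s) = J m s - 1 := by
    have := J_br hk h
    omega
  unfold gg
  rw [hJ, hb]

open Classical in
/-- A bridge in an unstraddled side gap. -/
theorem GenB_br_side {m k : ℕ} (hm : 2 ≤ m) (Ψ X : ℕ → ℝ) (s : St) (hk : k < m)
    (h : U m s k) (h0 : k = 0 ∨ k = m - 1) :
    gg Ψ X m (br k s) = Ψ (J m s - 1) + ((bb m s : ℝ) - 1) * X (J m s - 1) := by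
  have hJ : J m (br k s) = J m s - 1 := by
    have := J_br hk h
    omega
  have hb : (bb m (br k s) : ℝ) = (bb m s : ℝ) - 1 := by
    rw [GenB_bb_cast, GenB_bb_cast]
    rcases h0 with rfl | rfl
    · have e0 : ¬ U m (br 0 s) 0 := by
        rw [U_br hk hk]; exact fun h' => h'.2 rfl
      have e1 : U m (br 0 s) (m - 1) ↔ U m s (m - 1) := by
        rw [U_br hk (by omega)]
        exact ⟨fun h' => h'.1, fun h' => ⟨h', by omega⟩⟩
      rw [if_neg e0, if_pos h, if_congr e1 rfl rfl]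
      ring
    · have e0 : ¬ U m (br (m - 1) s) (m - 1) := by
        rw [U_br hk hk]; exact fun h' => h'.2 rfl
      have e1 : U m (br (m - 1) s) 0 ↔ U m s 0 := by
        rw [U_br hk (by omega)]
        exact ⟨fun h' => h'.1, fun h' => ⟨h', by omega⟩⟩
      rw [if_neg e0, if_pos h, if_congr e1 rfl rfl]
      ring
  unfold gg
  rw [hJ, hb]

/-- A cut of a column which is not mixed changes nothing. -/
theorem GenB_ct_eq {m k : ℕ} (Ψ X : ℕ → ℝ) (s : St) (hk : k + 1 < m)
    (h : U m s k ↔ U m s (k + 1)) : gg Ψ X m (ct (k + 1) s) = gg Ψ X m s := by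
  have hb : bb m (ct (k + 1) s) = bb m s := by
    apply GenB_bb_congr
    · exact U_ct_eq hk (by omega) h
    · exact U_ct_eq hk (by omega) h
  unfold gg
  rw [J_ct_eq hk h, hb]

theorem GenB_nonneg (Ψ X : ℕ → ℝ) (hΨ : ∀ i, 0 ≤ Ψ i) (hX : ∀ i, 0 ≤ X i) (m : ℕ) (s : St) :
    0 ≤ gg Ψ X m s := by
  unfold gg
  have h1 := hΨ (J m s)
  have h2 := hX (J m s)
  positivity

open Classical in
/-- The contribution of the bridges. -/
theorem GenB_bridges {m : ℕ} (hm : 2 ≤ m) (Ψ X : ℕ → ℝ) (s : St) :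
    ∑ k ∈ Finset.range m, (gg Ψ X m (br k s) - gg Ψ X m s) =
      ((J m s : ℝ) - bb m s) * ((Ψ (J m s - 1) + bb m s * X (J m s - 1)) - gg Ψ X m s) +
        (bb m s : ℝ) *
          ((Ψ (J m s - 1) + ((bb m s : ℝ) - 1) * X (J m s - 1)) - gg Ψ X m s) := by
  obtain ⟨cI, hI⟩ : ∃ c, c = (Ψ (J m s - 1) + bb m s * X (J m s - 1)) - gg Ψ X m s := ⟨_, rfl⟩
  obtain ⟨cS, hS⟩ : ∃ c, c = (Ψ (J m s - 1) + ((bb m s : ℝ) - 1) * X (J m s - 1)) -
    gg Ψ X m s := ⟨_, rfl⟩
  rw [← hI, ← hS]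
  have key : ∀ k ∈ Finset.range m, gg Ψ X m (br k s) - gg Ψ X m s =
      (if U m s k then cI else 0) + (if k = 0 then (if U m s 0 then cS - cI else 0) else 0) +
        (if k = m - 1 then (if U m s (m - 1) then cS - cI else 0) else 0) := by
    intro k hk
    rw [Finset.mem_range] at hk
    by_cases hU : U m s k
    · by_cases h0 : k = 0
      · have h1 : k ≠ m - 1 := by omega
        rw [GenB_br_side hm Ψ X s hk hU (Or.inl h0), if_pos hU, if_pos h0, if_neg h1, ← hS]
        rw [h0] at hU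
        rw [if_pos hU]
        ring
      · by_cases h1 : k = m - 1
        · rw [GenB_br_side hm Ψ X s hk hU (Or.inr h1), if_pos hU, if_neg h0, if_pos h1, ← hS]
          rw [h1] at hU
          rw [if_pos hU]
          ring
        · rw [GenB_br_int hm Ψ X s hk hU h0 h1, if_pos hU, if_neg h0, if_neg h1, ← hI]
          ring
    · rw [GenB_br_neg hm Ψ X s hk hU, if_neg hU]
      by_cases h0 : k = 0
      · have h1 : k ≠ m - 1 := by omega
        rw [if_pos h0, if_neg h1]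
        rw [h0] at hU
        rw [if_neg hU]
        ring
      · by_cases h1 : k = m - 1
        · rw [if_neg h0, if_pos h1]
          rw [h1] at hU
          rw [if_neg hU]
          ring
        · rw [if_neg h0, if_neg h1]
          ring
  rw [Finset.sum_congr rfl key, Finset.sum_add_distrib, Finset.sum_add_distrib,
    Finset.sum_ite_eq', Finset.sum_ite_eq', if_pos (Finset.mem_range.2 (by omega)),
    if_pos (Finset.mem_range.2 (by omega)), ← Finset.sum_filter, Finset.sum_const, nsmul_eq_mul]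
  have hJ : (((Finset.range m).filter (U m s)).card : ℝ) = (J m s : ℝ) := by
    unfold J
    rfl
  rw [hJ]
  have hb := GenB_bb_cast m s
  have e : (if U m s 0 then cS - cI else 0) + (if U m s (m - 1) then cS - cI else 0) =
      (bb m s : ℝ) * (cS - cI) := by
    rw [hb]
    split_ifs <;> ring
  linear_combination e

open Classical in
/-- The extra contribution of the bridges at the sides. -/
theorem GenB_sides {m : ℕ} (hm : 2 ≤ m) (Ψ X : ℕ → ℝ) (s : St) :
    (gg Ψ X m (br 0 s) - gg Ψ X m s) + (gg Ψ X m (br (m - 1) s) - gg Ψ X m s) =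
      (bb m s : ℝ) *
        ((Ψ (J m s - 1) + ((bb m s : ℝ) - 1) * X (J m s - 1)) - gg Ψ X m s) := by
  obtain ⟨cS, hS⟩ : ∃ c, c = (Ψ (J m s - 1) + ((bb m s : ℝ) - 1) * X (J m s - 1)) -
    gg Ψ X m s := ⟨_, rfl⟩
  rw [← hS]
  have h0 : gg Ψ X m (br 0 s) - gg Ψ X m s = if U m s 0 then cS else 0 := by
    by_cases hU : U m s 0
    · rw [GenB_br_side hm Ψ X s (by omega) hU (Or.inl rfl), if_pos hU, ← hS]
    · rw [GenB_br_neg hm Ψ X s (by omega) hU, if_neg hU]
      ring
  have h1 : gg Ψ X m (br (m - 1) s) - gg Ψ X m s = if U m s (m - 1) then cS else 0 := by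
    by_cases hU : U m s (m - 1)
    · rw [GenB_br_side hm Ψ X s (by omega) hU (Or.inr rfl), if_pos hU, ← hS]
    · rw [GenB_br_neg hm Ψ X s (by omega) hU, if_neg hU]
      ring
  rw [h0, h1, GenB_bb_cast m s]
  split_ifs <;> ring

open Classical in
/-- The contribution of the cuts. -/
theorem GenB_cuts {m : ℕ} (hm : 2 ≤ m) (Ψ X : ℕ → ℝ) (hΨ : ∀ i, 0 ≤ Ψ i) (hX : ∀ i, 0 ≤ X i)
    (s : St) :
    -((2 * J m s - bb m s) * gg Ψ X m s) ≤
      ∑ k ∈ Finset.range (m - 1), (gg Ψ X m (ct (k + 1) s) - gg Ψ X m s) := by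
  have hG := GenB_nonneg Ψ X hΨ hX m s
  have h1 : ∀ k ∈ Finset.range (m - 1), (if ¬ (U m s k ↔ U m s (k + 1)) then -gg Ψ X m s else 0) ≤
      gg Ψ X m (ct (k + 1) s) - gg Ψ X m s := by
    intro k hk
    rw [Finset.mem_range] at hk
    by_cases h : U m s k ↔ U m s (k + 1)
    · rw [if_neg (not_not.2 h), GenB_ct_eq Ψ X s (by omega) h]
      linarith
    · rw [if_pos h]
      have := GenB_nonneg Ψ X hΨ hX m (ct (k + 1) s)
      linarith
  refine le_trans ?_ (Finset.sum_le_sum h1)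
  rw [← Finset.sum_filter, Finset.sum_const, nsmul_eq_mul]
  have hc := card_mixed_le hm s
  have hc' : ((((Finset.range (m - 1)).filter (fun k => ¬ (U m s k ↔ U m s (k + 1)))).card : ℝ)) +
      bb m s ≤ 2 * J m s := by
    exact_mod_cast hc
  nlinarith [mul_nonneg (sub_nonneg.2 hc') hG]

/-- The generator with rate `3 / 2` for the bridges at the sides, on functions of `J` and of the
number of unstraddled side gaps. -/
theorem gen1 {m : ℕ} (hm : 2 ≤ m) (Ψ X : ℕ → ℝ) (hΨ : ∀ i, 0 ≤ Ψ i) (hX : ∀ i, 0 ≤ X i)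
    (s : St) :
    ((J m s : ℝ) - bb m s) * ((Ψ (J m s - 1) + bb m s * X (J m s - 1)) - gg Ψ X m s) +
      (3 / 2 : ℝ) * bb m s *
        ((Ψ (J m s - 1) + ((bb m s : ℝ) - 1) * X (J m s - 1)) - gg Ψ X m s) -
      (2 * J m s - bb m s) * gg Ψ X m s ≤
    ∑ j ∈ Finset.range (2 * m - 1), (gg Ψ X m (ev j s) - gg Ψ X m s) +
      (1 / 2 : ℝ) * (gg Ψ X m (ev 0 s) - gg Ψ X m s) +
      (1 / 2 : ℝ) * (gg Ψ X m (ev (2 * m - 2) s) - gg Ψ X m s) := by
  have hsum := sum_ev_split (m := m) (by omega) (fun j => gg Ψ X m (ev j s) - gg Ψ X m s)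
  rw [hsum]
  simp only [ev_even, ev_odd]
  have e0 : ev 0 s = br 0 s := ev_even 0 s
  have e1 : ev (2 * m - 2) s = br (m - 1) s := by
    have h2 : 2 * m - 2 = 2 * (m - 1) := by omega
    rw [h2, ev_even]
  rw [e0, e1]
  have h1 := GenB_bridges hm Ψ X s
  have h2 := GenB_sides hm Ψ X s
  have h3 := GenB_cuts hm Ψ X hΨ hX s
  rw [h1]
  linarith

end Pool.Agent.H29.STP
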