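import Pool.Agent.H29.STP.TL

/-!
# The rows of faces intertwine the two generators
-/

namespace Pool.Agent.H29.STP

section Abstract

variable {A : Type*} [Ring A] [Algebra ℝ A] (e : ℕ → A)

/-- `fa e j = (1 + e j) / 2`. -/
noncomputable def fa (j : ℕ) : A := (1 / 2 : ℝ) • (1 + e j)

/-- `fa 0 * ... * fa (m - 1)`. -/
noncomputable def upa : ℕ → A
  | 0 => 1
  | m + 1 => upa m * fa e m

/-- `fa (m - 1) * ... * fa 0`. -/
noncomputable def dna : ℕ → A
  | 0 => 1
  | m + 1 => fa e m * dna m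

theorem Inter_e_fa (h1 : ∀ j, e j * e j = e j) (j : ℕ) : e j * fa e j = e j := by
  rw [fa, mul_smul_comm, mul_add, mul_one, h1, ← two_smul ℝ (e j), smul_smul]
  norm_num

theorem Inter_two_fa (j : ℕ) : (2 : ℝ) • fa e j = 1 + e j := by
  rw [fa, smul_smul]
  norm_num

/-- `e (j + 1) F j F (j + 1) = F j F (j + 1) e j + (3/2) (F (j + 1) - F j)`. -/
theorem Inter_local (h1 : ∀ j, e j * e j = e j) (h2 : ∀ j, e j * e (j + 1) * e j = e j)
    (h3 : ∀ j, e (j + 1) * e j * e (j + 1) = e (j + 1)) (j : ℕ) :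
    e (j + 1) * (fa e j * fa e (j + 1)) =
      fa e j * fa e (j + 1) * e j + (3 / 2 : ℝ) • (fa e (j + 1) - fa e j) := by
  have a1 : e (j + 1) * ((1 + e j) * (1 + e (j + 1))) = (3 : ℝ) • e (j + 1) + e (j + 1) * e j := by
    have : e (j + 1) * ((1 + e j) * (1 + e (j + 1))) =
        e (j + 1) + e (j + 1) * e (j + 1) + e (j + 1) * e j + e (j + 1) * e j * e (j + 1) := by
      noncomm_ring
    rw [this, h1, h3]
    module
  have a2 : (1 + e j) * (1 + e (j + 1)) * e j = (3 : ℝ) • e j + e (j + 1) * e j := by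
    have : (1 + e j) * (1 + e (j + 1)) * e j =
        e j + e j * e j + e (j + 1) * e j + e j * e (j + 1) * e j := by
      noncomm_ring
    rw [this, h1, h2]
    module
  have a3 : fa e j * fa e (j + 1) = (1 / 4 : ℝ) • ((1 + e j) * (1 + e (j + 1))) := by
    rw [fa, fa, smul_mul_smul_comm]
    norm_num
  rw [a3, mul_smul_comm, a1, smul_mul_assoc, a2, fa, fa]
  module

/-- `e (j + 1) F j e (j + 1) = e (j + 1)`. -/
theorem Inter_mid (h1 : ∀ j, e j * e j = e j)
    (h3 : ∀ j, e (j + 1) * e j * e (j + 1) = e (j + 1)) (j : ℕ) :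
    e (j + 1) * fa e j * e (j + 1) = e (j + 1) := by
  rw [fa, mul_smul_comm, smul_mul_assoc, mul_add, mul_one, add_mul, h1, h3,
    ← two_smul ℝ (e (j + 1)), smul_smul]
  norm_num

theorem Inter_comm_fa {x : A} {j : ℕ} (h : x * e j = e j * x) : x * fa e j = fa e j * x := by
  rw [fa, mul_smul_comm, smul_mul_assoc, mul_add, add_mul, mul_one, one_mul, h]

theorem Inter_comm_upa {x : A} {m : ℕ} (h : ∀ j < m, x * e j = e j * x) :
    x * upa e m = upa e m * x := by
  induction m with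
  | zero => rw [upa, mul_one, one_mul]
  | succ m ih =>
    rw [upa, ← mul_assoc, ih fun j hj => h j (Nat.lt_succ_of_lt hj), mul_assoc,
      Inter_comm_fa e (h m (Nat.lt_succ_self m)), mul_assoc]

/-- `F 1 * ... * F m`. -/
noncomputable def Inter_b : ℕ → A
  | 0 => 1
  | m + 1 => Inter_b m * fa e (m + 1)

theorem Inter_upa_succ (m : ℕ) : upa e (m + 1) = fa e 0 * Inter_b e m := by
  induction m with
  | zero => rw [upa, upa, Inter_b, one_mul, mul_one]
  | succ m ih => rw [upa, ih, Inter_b, mul_assoc]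

theorem Inter_telescope (h1 : ∀ j, e j * e j = e j) (h2 : ∀ j, e j * e (j + 1) * e j = e j)
    (h3 : ∀ j, e (j + 1) * e j * e (j + 1) = e (j + 1))
    (h4 : ∀ i j, i + 2 ≤ j → e i * e j = e j * e i) (m : ℕ) :
    (∑ j ∈ Finset.range m, e (j + 1)) * upa e (m + 1) =
      upa e (m + 1) * (∑ j ∈ Finset.range m, e j) + (3 / 2 : ℝ) • (Inter_b e m - upa e m) := by
  induction m with
  | zero => simp [Inter_b, upa]
  | succ m ih =>
    have c1 : e (m + 1) * upa e m = upa e m * e (m + 1) :=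
      Inter_comm_upa e fun j hj => (h4 j (m + 1) (by omega)).symm
    have c2 : (∑ j ∈ Finset.range m, e j) * fa e (m + 1) =
        fa e (m + 1) * ∑ j ∈ Finset.range m, e j := by
      apply Inter_comm_fa
      rw [Finset.sum_mul, Finset.mul_sum]
      exact Finset.sum_congr rfl fun j hj => h4 j (m + 1) (by
        have := Finset.mem_range.1 hj
        omega)
    have c3 : e (m + 1) * (upa e (m + 1) * fa e (m + 1)) =
        upa e (m + 1) * fa e (m + 1) * e m +
          (3 / 2 : ℝ) • (upa e m * fa e (m + 1) - upa e m * fa e m) := by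
      have d1 : upa e (m + 1) * fa e (m + 1) = upa e m * (fa e m * fa e (m + 1)) := by
        rw [upa, mul_assoc]
      rw [d1, ← mul_assoc, c1, mul_assoc, Inter_local e h1 h2 h3 m, mul_add, mul_smul_comm,
        mul_sub, ← mul_assoc (upa e m) (fa e m * fa e (m + 1)) (e m)]
    rw [Finset.sum_range_succ, Finset.sum_range_succ, show upa e (m + 1 + 1) =
      upa e (m + 1) * fa e (m + 1) from rfl, add_mul, c3, ← mul_assoc, ih, add_mul,
      mul_assoc (upa e (m + 1)) (∑ j ∈ Finset.range m, e j), c2, Inter_b, smul_mul_assoc, sub_mul,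
      mul_add, show upa e m * fa e m = upa e (m + 1) from rfl, ← mul_assoc]
    module

/-- The intertwining relation for an arbitrary number of factors. -/
theorem Inter_gen (h1 : ∀ j, e j * e j = e j) (h2 : ∀ j, e j * e (j + 1) * e j = e j)
    (h3 : ∀ j, e (j + 1) * e j * e (j + 1) = e (j + 1))
    (h4 : ∀ i j, i + 2 ≤ j → e i * e j = e j * e i) (m : ℕ) :
    (∑ j ∈ Finset.range (m + 1 + 1), (1 - e j) + (1 / 2 : ℝ) • (1 - e 0) +
      (1 / 2 : ℝ) • (1 - e (m + 1))) * (upa e (m + 1) * e (m + 1)) =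
    (upa e (m + 1) * e (m + 1)) * ∑ j ∈ Finset.range m, (1 - e j) := by
  have t1 := Inter_telescope e h1 h2 h3 h4 m
  have c1 : e (m + 1) * upa e m = upa e m * e (m + 1) :=
    Inter_comm_upa e fun j hj => (h4 j (m + 1) (by omega)).symm
  have c2 : (∑ j ∈ Finset.range m, e j) * e (m + 1) =
      e (m + 1) * ∑ j ∈ Finset.range m, e j := by
    rw [Finset.sum_mul, Finset.mul_sum]
    exact Finset.sum_congr rfl fun j hj => h4 j (m + 1) (by
      have := Finset.mem_range.1 hj
      omega)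
  -- the three parts
  have p0 : e 0 * (upa e (m + 1) * e (m + 1)) =
      (2 : ℝ) • (upa e (m + 1) * e (m + 1)) - Inter_b e m * e (m + 1) := by
    rw [← mul_assoc, Inter_upa_succ, ← mul_assoc, Inter_e_fa e h1]
    have d1 : e 0 = (2 : ℝ) • fa e 0 - 1 := by rw [Inter_two_fa]; abel
    conv_lhs => rw [d1]
    rw [sub_mul, sub_mul, one_mul, smul_mul_assoc, smul_mul_assoc]
  have p1 : (∑ j ∈ Finset.range m, e (j + 1)) * (upa e (m + 1) * e (m + 1)) =
      (upa e (m + 1) * e (m + 1)) * (∑ j ∈ Finset.range m, e j) +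
        (3 / 2 : ℝ) • (Inter_b e m * e (m + 1) - upa e m * e (m + 1)) := by
    rw [← mul_assoc, t1, add_mul, mul_assoc, c2, ← mul_assoc, smul_mul_assoc, sub_mul]
  have p2 : e (m + 1) * (upa e (m + 1) * e (m + 1)) = upa e m * e (m + 1) := by
    have d1 : e (m + 1) * (upa e (m + 1) * e (m + 1)) =
        (e (m + 1) * upa e m) * fa e m * e (m + 1) := by
      rw [upa]; noncomm_ring
    rw [d1, c1, mul_assoc, mul_assoc, ← mul_assoc (e (m + 1)), Inter_mid e h1 h3]
  have s1 : (∑ j ∈ Finset.range (m + 1 + 1), (1 - e j)) * (upa e (m + 1) * e (m + 1)) =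
      ((m : ℝ) + 2) • (upa e (m + 1) * e (m + 1)) -
        (e 0 * (upa e (m + 1) * e (m + 1)) +
          (∑ j ∈ Finset.range m, e (j + 1)) * (upa e (m + 1) * e (m + 1)) +
          e (m + 1) * (upa e (m + 1) * e (m + 1))) := by
    have d1 : ∑ j ∈ Finset.range (m + 1 + 1), e j =
        e 0 + (∑ j ∈ Finset.range m, e (j + 1)) + e (m + 1) := by
      rw [Finset.sum_range_succ' (fun j => e j), Finset.sum_range_succ (fun j => e (j + 1))]
      abel
    have d2 : ∑ j ∈ Finset.range (m + 1 + 1), (1 - e j) =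
        ((m : ℝ) + 2) • (1 : A) - (e 0 + (∑ j ∈ Finset.range m, e (j + 1)) + e (m + 1)) := by
      rw [Finset.sum_sub_distrib, Finset.sum_const, Finset.card_range, d1,
        ← Nat.cast_smul_eq_nsmul ℝ]
      push_cast
      module
    rw [d2, sub_mul, add_mul, add_mul, smul_mul_assoc, one_mul]
  have s2 : (upa e (m + 1) * e (m + 1)) * ∑ j ∈ Finset.range m, (1 - e j) =
      (m : ℝ) • (upa e (m + 1) * e (m + 1)) -
        (upa e (m + 1) * e (m + 1)) * ∑ j ∈ Finset.range m, e j := by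
    rw [Finset.sum_sub_distrib, mul_sub, Finset.sum_const, Finset.card_range, mul_smul_comm,
      mul_one, ← Nat.cast_smul_eq_nsmul ℝ]
  rw [add_mul, add_mul, s1, s2, smul_mul_assoc, smul_mul_assoc, sub_mul, sub_mul, one_mul, p0, p1,
    p2]
  module

/-- Abstract form of the intertwining relation for the increasing product. -/
theorem inter_up (h1 : ∀ j, e j * e j = e j) (h2 : ∀ j, e j * e (j + 1) * e j = e j)
    (h3 : ∀ j, e (j + 1) * e j * e (j + 1) = e (j + 1))
    (h4 : ∀ i j, i + 2 ≤ j → e i * e j = e j * e i) {n : ℕ} (hn : 1 ≤ n) :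
    (∑ j ∈ Finset.range (2 * n + 1), (1 - e j) + (1 / 2 : ℝ) • (1 - e 0) +
      (1 / 2 : ℝ) • (1 - e (2 * n))) * (upa e (2 * n) * e (2 * n)) =
    (upa e (2 * n) * e (2 * n)) * ∑ j ∈ Finset.range (2 * n - 1), (1 - e j) := by
  obtain ⟨m, hm⟩ : ∃ m, 2 * n = m + 1 := ⟨2 * n - 1, by omega⟩
  rw [hm, Nat.add_sub_cancel]
  exact Inter_gen e h1 h2 h3 h4 m

open MulOpposite in
theorem Inter_op (m : ℕ) : upa (fun j => op (e j)) m = op (dna e m) := by
  induction m with
  | zero => rfl
  | succ m ih =>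
    rw [upa, ih, dna, op_mul]
    rfl

open MulOpposite in
/-- Abstract form of the intertwining relation for the decreasing product. -/
theorem inter_dn (h1 : ∀ j, e j * e j = e j) (h2 : ∀ j, e j * e (j + 1) * e j = e j)
    (h3 : ∀ j, e (j + 1) * e j * e (j + 1) = e (j + 1))
    (h4 : ∀ i j, i + 2 ≤ j → e i * e j = e j * e i) {n : ℕ} (hn : 1 ≤ n) :
    (e (2 * n) * dna e (2 * n)) * (∑ j ∈ Finset.range (2 * n + 1), (1 - e j) +
      (1 / 2 : ℝ) • (1 - e 0) + (1 / 2 : ℝ) • (1 - e (2 * n))) =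
    (∑ j ∈ Finset.range (2 * n - 1), (1 - e j)) * (e (2 * n) * dna e (2 * n)) := by
  have h := inter_up (A := Aᵐᵒᵖ) (fun j => op (e j))
    (fun j => by rw [← op_mul, h1])
    (fun j => by rw [← op_mul, ← op_mul, ← mul_assoc, h2])
    (fun j => by rw [← op_mul, ← op_mul, ← mul_assoc, h3])
    (fun i j hij => by rw [← op_mul, ← op_mul, h4 i j hij]) hn
  rw [Inter_op] at h
  have h' := congrArg unop h
  simpa only [unop_mul, unop_add, unop_smul, unop_sub, unop_one, unop_op, Finset.unop_sum] using h'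

end Abstract

lemma upa_E (m : ℕ) : upa E m = up m := by
  induction m with
  | zero => rfl
  | succ m ih => rw [upa, up, ih]; rfl

lemma dna_E (m : ℕ) : dna E m = dn m := by
  induction m with
  | zero => rfl
  | succ m ih => rw [dna, dn, ih]; rfl

theorem H1_R2 {n : ℕ} (hn : 1 ≤ n) : H1 n * R2 n = R2 n * H0 n := by
  have h := inter_up E E_idem E_tl1 E_tl2 (fun i j h => E_comm h) hn
  rw [upa_E] at h
  exact h

theorem H0_R1 {n : ℕ} (hn : 1 ≤ n) : H0 n * R1 n = R1 n * H1 n := by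
  have h := inter_dn E E_idem E_tl1 E_tl2 (fun i j h => E_comm h) hn
  rw [dna_E] at h
  have h5 : H0 n * E (2 * n + 1) = E (2 * n + 1) * H0 n := by
    rw [H0, Finset.sum_mul, Finset.mul_sum]
    refine Finset.sum_congr rfl fun j hj => ?_
    have hj' := Finset.mem_range.1 hj
    rw [sub_mul, mul_sub, one_mul, mul_one, E_comm (i := j) (j := 2 * n + 1) (by omega)]
  rw [R1, ← mul_assoc, h5, mul_assoc, mul_assoc]
  congr 1
  exact h.symm

theorem H0_DD {n : ℕ} (hn : 1 ≤ n) : H0 n * DD n = DD n * H0 n := by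
  rw [DD, ← mul_assoc, H0_R1 hn, mul_assoc, H1_R2 hn, mul_assoc]

theorem P_DD {n : ℕ} (hn : 1 ≤ n) (δ : ℝ) : P n δ * DD n = DD n * P n δ := by
  rw [P, sub_mul, mul_sub, one_mul, mul_one, smul_mul_assoc, mul_smul_comm, H0_DD hn]

end Pool.Agent.H29.STP
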