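import Pool.Agent.H29.STP.ULem

/-!
# The number of unstraddled gaps
-/

namespace Pool.Agent.H29.STP

variable {m k g : ℕ} {s : St}

theorem J_eq_zero_iff' : J m s = 0 ↔ ∀ g < m, ¬ U m s g := by
  classical
  unfold J
  rw [Finset.card_eq_zero, Finset.filter_eq_empty_iff]
  constructor
  · intro h g hg
    exact h (Finset.mem_range.mpr hg)
  · intro h g hg
    exact h g (Finset.mem_range.mp hg)

/-- The two sides are joined if and only if all gaps are straddled. -/
theorem J_eq_zero_iff (hm : 1 ≤ m) : J m s = 0 ↔ s.r 0 m := by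
  classical
  rw [J_eq_zero_iff']
  constructor
  · intro h
    -- the largest column joined to the column 0
    have hex : ∃ i, i ≤ m ∧ s.r 0 i ∧ ∀ i', i' ≤ m → s.r 0 i' → i' ≤ i := by
      have hne : ((Finset.range (m + 1)).filter (fun i => s.r 0 i)).Nonempty :=
        ⟨0, by rw [Finset.mem_filter, Finset.mem_range]; exact ⟨by omega, s.rfl' 0⟩⟩
      obtain ⟨i, hi, hmax⟩ := Finset.exists_max_image _ (fun i => i) hne
      rw [Finset.mem_filter, Finset.mem_range] at hi
      refine ⟨i, by omega, hi.2, fun i' h1 h2 => hmax i' ?_⟩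
      rw [Finset.mem_filter, Finset.mem_range]
      exact ⟨by omega, h2⟩
    obtain ⟨i, him, h0i, hmax⟩ := hex
    by_cases hi : i = m
    · rw [← hi]; exact h0i
    · exfalso
      have hg := h i (by omega)
      unfold U at hg
      push Not at hg
      obtain ⟨a, b, ha, hb, hbm, hab⟩ := hg
      have key : s.r 0 b := by
        rcases Nat.eq_zero_or_pos a with ha0 | ha0
        · rw [ha0] at hab; exact hab
        · rcases Nat.lt_or_ge a i with hai | hai
          · exact s.trans' _ _ _ (s.nc 0 a i b ha0 hai hb h0i hab) hab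
          · have hae : a = i := by omega
            rw [hae] at hab
            exact s.trans' _ _ _ h0i hab
      have := hmax b hbm key
      omega
  · intro h g hg hU
    exact hU 0 m (by omega) hg (le_refl m) h

theorem J_le : J m s ≤ m := by
  classical
  unfold J
  refine (Finset.card_filter_le _ _).trans ?_
  rw [Finset.card_range]

theorem J_br (hk : k < m) (h : U m s k) : J m (br k s) + 1 = J m s := by
  classical
  unfold J
  have e : (Finset.range m).filter (U m (br k s)) = ((Finset.range m).filter (U m s)).erase k := by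
    ext g
    rw [Finset.mem_erase, Finset.mem_filter, Finset.mem_filter, Finset.mem_range]
    constructor
    · rintro ⟨h1, h2⟩
      have h3 := (U_br hk h1).mp h2
      exact ⟨h3.2, h1, h3.1⟩
    · rintro ⟨h1, h2, h3⟩
      exact ⟨h2, (U_br hk h2).mpr ⟨h3, h1⟩⟩
  rw [e, Finset.card_erase_add_one]
  rw [Finset.mem_filter, Finset.mem_range]
  exact ⟨hk, h⟩

theorem J_br' (hk : k < m) (h : ¬ U m s k) : J m (br k s) = J m s := by
  classical
  unfold J
  congr 1
  ext g
  rw [Finset.mem_filter, Finset.mem_filter, Finset.mem_range]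
  constructor
  · rintro ⟨h1, h2⟩
    exact ⟨h1, ((U_br hk h1).mp h2).1⟩
  · rintro ⟨h1, h2⟩
    refine ⟨h1, (U_br hk h1).mpr ⟨h2, ?_⟩⟩
    rintro rfl
    exact h h2

theorem J_ct_mono : J m s ≤ J m (ct k s) := by
  classical
  unfold J
  apply Finset.card_le_card
  intro g
  rw [Finset.mem_filter, Finset.mem_filter]
  rintro ⟨h1, h2⟩
  exact ⟨h1, U_ct_mono h2⟩

theorem J_ct_eq (hk : k + 1 < m) (h : U m s k ↔ U m s (k + 1)) :
    J m (ct (k + 1) s) = J m s := by
  classical
  unfold J
  congr 1
  ext g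
  rw [Finset.mem_filter, Finset.mem_filter, Finset.mem_range]
  constructor
  · rintro ⟨h1, h2⟩
    exact ⟨h1, (U_ct_eq hk h1 h).mp h2⟩
  · rintro ⟨h1, h2⟩
    exact ⟨h1, (U_ct_eq hk h1 h).mpr h2⟩

theorem U_bot : U m bot g := by
  intro i j hi hj _ h
  have : i = j := h
  omega

theorem J_bot : J m bot = m := by
  classical
  unfold J
  rw [Finset.filter_true_of_mem (fun _ _ => U_bot), Finset.card_range]

/-- If both side gaps are unstraddled and `m` is at least two, there are at least two gaps. -/
theorem bb_le_J (hm : 2 ≤ m) : bb m s ≤ J m s := by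
  classical
  unfold bb J
  have h0 : U m s 0 → (0 : ℕ) ∈ (Finset.range m).filter (U m s) := by
    intro h
    rw [Finset.mem_filter, Finset.mem_range]
    exact ⟨by omega, h⟩
  have h1 : U m s (m - 1) → (m - 1 : ℕ) ∈ (Finset.range m).filter (U m s) := by
    intro h
    rw [Finset.mem_filter, Finset.mem_range]
    exact ⟨by omega, h⟩
  by_cases ha : U m s 0
  · by_cases hb : U m s (m - 1)
    · rw [if_pos ha, if_pos hb]
      have h2 : ({0, m - 1} : Finset ℕ) ⊆ (Finset.range m).filter (U m s) := by
        intro x hx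
        rw [Finset.mem_insert, Finset.mem_singleton] at hx
        rcases hx with rfl | rfl
        · exact h0 ha
        · exact h1 hb
      have h3 := Finset.card_le_card h2
      rw [Finset.card_pair (by omega)] at h3
      exact h3
    · rw [if_pos ha, if_neg hb]
      exact Finset.card_pos.mpr ⟨0, h0 ha⟩
  · by_cases hb : U m s (m - 1)
    · rw [if_neg ha, if_pos hb]
      exact Finset.card_pos.mpr ⟨_, h1 hb⟩
    · rw [if_neg ha, if_neg hb]
      exact Nat.zero_le _

theorem bb_le_two : bb m s ≤ 2 := by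
  classical
  unfold bb
  split_ifs <;> omega

/-- A state without unstraddled gaps keeps this property under the generators. -/
theorem J_ev_zero {j : ℕ} (hj : j < 2 * m - 1) (h : J m s = 0) : J m (ev j s) = 0 := by
  have hm : 1 ≤ m := by omega
  rw [J_eq_zero_iff hm] at h ⊢
  obtain ⟨i, hi | hi⟩ : ∃ i, j = 2 * i ∨ j = 2 * i + 1 := ⟨j / 2, by omega⟩
  · rw [hi, ev_even]
    exact Or.inl h
  · rw [hi, ev_odd]
    exact Or.inr ⟨by omega, by omega, h⟩

/-- Refinement order on states. -/
def Le (s s' : St) : Prop := ∀ x y, s.r x y → s'.r x y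

theorem Le_bot (s : St) : Le bot s := by
  intro x y h
  have : x = y := h
  rw [this]
  exact s.rfl' y

theorem Le_ev {s s' : St} (h : Le s s') (j : ℕ) : Le (ev j s) (ev j s') := by
  obtain ⟨i, hi | hi⟩ : ∃ i, j = 2 * i ∨ j = 2 * i + 1 := ⟨j / 2, by omega⟩
  · rw [hi, ev_even, ev_even]
    rintro x y (h1 | ⟨h1, h2⟩ | ⟨h1, h2⟩)
    · exact Or.inl (h _ _ h1)
    · exact Or.inr (Or.inl ⟨h _ _ h1, h _ _ h2⟩)
    · exact Or.inr (Or.inr ⟨h _ _ h1, h _ _ h2⟩)
  · rw [hi, ev_odd, ev_odd]
    rintro x y (h1 | ⟨h1, h2, h3⟩)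
    · exact Or.inl h1
    · exact Or.inr ⟨h1, h2, h _ _ h3⟩

theorem J_anti {s s' : St} (h : Le s s') : J m s' ≤ J m s := by
  classical
  unfold J
  apply Finset.card_le_card
  intro g
  rw [Finset.mem_filter, Finset.mem_filter]
  rintro ⟨h1, h2⟩
  exact ⟨h1, fun i j hi hj hm hr => h2 i j hi hj hm (h _ _ hr)⟩

end Pool.Agent.H29.STP
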