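import Pool.Agent.H29.STP.Pos

/-!
# The first row kills with probability at most `4 ^ (-J)`
-/

namespace Pool.Agent.H29.STP

open Classical in
/-- Number of unstraddled gaps below `k`. -/
noncomputable def Jlt (m : ℕ) (s : St) (k : ℕ) : ℕ :=
  ((Finset.range k).filter (U m s)).card

theorem Kill1_Jlt_zero (m : ℕ) (s : St) : Jlt m s 0 = 0 := by
  simp [Jlt]

theorem Kill1_Jlt_succ_pos {m k : ℕ} {s : St} (h : U m s k) :
    Jlt m s (k + 1) = Jlt m s k + 1 := by
  classical
  unfold Jlt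
  rw [Finset.range_add_one, Finset.filter_insert, if_pos h, Finset.card_insert_of_notMem]
  simp

theorem Kill1_Jlt_succ_neg {m k : ℕ} {s : St} (h : ¬ U m s k) :
    Jlt m s (k + 1) = Jlt m s k := by
  classical
  unfold Jlt
  rw [Finset.range_add_one, Finset.filter_insert, if_neg h]

theorem Kill1_Jlt_congr {m m' k : ℕ} {s s' : St} (h : ∀ g < k, (U m s g ↔ U m' s' g)) :
    Jlt m s k = Jlt m' s' k := by
  classical
  unfold Jlt
  congr 1
  apply Finset.filter_congr
  intro g hg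
  exact h g (Finset.mem_range.1 hg)

theorem Kill1_Jlt_mono {m k : ℕ} {s s' : St} (h : ∀ g < k, U m s g → U m s' g) :
    Jlt m s k ≤ Jlt m s' k := by
  classical
  unfold Jlt
  apply Finset.card_le_card
  intro g hg
  rw [Finset.mem_filter] at hg ⊢
  exact ⟨hg.1, h g (Finset.mem_range.1 hg.1) hg.2⟩

theorem Kill1_Jlt_br {m k : ℕ} (hk : k < m) (s : St) : Jlt m (br k s) k = Jlt m s k := by
  apply Kill1_Jlt_congr
  intro g hg
  rw [U_br hk (hg.trans hk)]
  exact ⟨fun h => h.1, fun h => ⟨h, hg.ne⟩⟩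

theorem Kill1_pow_anti {a b : ℕ} (h : a ≤ b) : (1 / 4 : ℝ) ^ b ≤ (1 / 4 : ℝ) ^ a :=
  pow_le_pow_of_le_one (by norm_num) (by norm_num) h

theorem Kill1_dn_step (k : ℕ) (f : St → ℝ) (s : St) :
    dn (2 * (k + 1)) f s =
      (dn (2 * k) f s + dn (2 * k) f (br k s) + dn (2 * k) f (ct (k + 1) s) +
        dn (2 * k) f (br k (ct (k + 1) s))) / 4 := by
  have h : dn (2 * (k + 1)) = F (2 * k + 1) * (F (2 * k) * dn (2 * k)) := rfl
  rw [h]
  rw [Module.End.mul_apply, F_apply, Module.End.mul_apply, F_apply, F_apply, ev_even, ev_even,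
    ev_odd]
  ring

/-- The faces `2 k - 1, ..., 0` of the first row. -/
theorem dn_al {m k : ℕ} (hk : k < m) (s : St) :
    1 - (1 / 4 : ℝ) ^ Jlt m s k ≤ dn (2 * k) (al m) s ∧
      ((∃ g, k ≤ g ∧ g < m ∧ U m s g) → dn (2 * k) (al m) s = 1) := by
  induction k generalizing s with
  | zero =>
    have h0 : dn (2 * 0) (al m) s = al m s := rfl
    rw [h0, Kill1_Jlt_zero]
    refine ⟨by simpa using al_nonneg m s, ?_⟩
    rintro ⟨g, _, hg, hU⟩
    have h1 : ¬ J m s = 0 := fun h => (J_eq_zero_iff'.1 h) g hg hU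
    simp [al, h1]
  | succ k ih =>
    have hkm : k < m := by omega
    have H2 : (∃ g, k + 1 ≤ g ∧ g < m ∧ U m s g) → dn (2 * (k + 1)) (al m) s = 1 := by
      rintro ⟨g, hkg, hg, hU⟩
      have hgk : g ≠ k := by omega
      have e1 := (ih hkm s).2 ⟨g, by omega, hg, hU⟩
      have e2 := (ih hkm (br k s)).2 ⟨g, by omega, hg, (U_br hkm hg).2 ⟨hU, hgk⟩⟩
      have e3 := (ih hkm (ct (k + 1) s)).2 ⟨g, by omega, hg, U_ct_mono hU⟩
      have e4 := (ih hkm (br k (ct (k + 1) s))).2
        ⟨g, by omega, hg, (U_br hkm hg).2 ⟨U_ct_mono hU, hgk⟩⟩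
      rw [Kill1_dn_step, e1, e2, e3, e4]
      norm_num
    refine ⟨?_, H2⟩
    by_cases hex : ∃ g, k + 1 ≤ g ∧ g < m ∧ U m s g
    · rw [H2 hex]
      have : (0 : ℝ) ≤ (1 / 4 : ℝ) ^ Jlt m s (k + 1) := by positivity
      linarith
    · rw [Kill1_dn_step]
      by_cases hU : U m s k
      · have e1 := (ih hkm s).2 ⟨k, le_refl _, hkm, hU⟩
        have e2 := (ih hkm (br k s)).1
        have e3 := (ih hkm (ct (k + 1) s)).2 ⟨k, le_refl _, hkm, U_ct_mono hU⟩
        have e4 := (ih hkm (br k (ct (k + 1) s))).2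
          ⟨k + 1, by omega, hk, (U_br hkm hk).2 ⟨U_ct_right hU, by omega⟩⟩
        rw [Kill1_Jlt_br hkm] at e2
        rw [e1, e3, e4, Kill1_Jlt_succ_pos hU, pow_succ]
        linarith
      · have e1 := (ih hkm s).1
        have e2 := (ih hkm (br k s)).1
        have e3 := (ih hkm (ct (k + 1) s)).1
        have e4 := (ih hkm (br k (ct (k + 1) s))).1
        rw [Kill1_Jlt_br hkm] at e2 e4
        have hm : Jlt m s k ≤ Jlt m (ct (k + 1) s) k :=
          Kill1_Jlt_mono (fun g _ h => U_ct_mono h)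
        have hp := Kill1_pow_anti hm
        rw [Kill1_Jlt_succ_neg hU]
        linarith

theorem kill1 {n : ℕ} (hn : 1 ≤ n) (s : St) : al n s - R1 n (al (n + 1)) s ≤ w1 n s := by
  by_cases hJ : J n s = 0
  · have h1 : al n s = 0 := by simp [al, hJ]
    have h2 : w1 n s = 0 := by simp [w1, hJ]
    have h3 := Pos.R1 n (al (n + 1)) (al_nonneg (n + 1)) s
    rw [h1, h2]
    linarith
  · have h1 : al n s = 1 := by simp [al, hJ]
    have h2 : w1 n s = (1 / 4) ^ J n s := by simp [w1, hJ]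
    have h3 : R1 n (al (n + 1)) s = dn (2 * n) (al (n + 1)) (br n (ct (n + 1) s)) := by
      have h : R1 n (al (n + 1)) s =
        dn (2 * n) (al (n + 1)) (ev (2 * n) (ev (2 * n + 1) s)) := rfl
      rw [h, ev_even, ev_odd]
    have h4 := (dn_al (Nat.lt_succ_self n) (br n (ct (n + 1) s))).1
    have h5 : Jlt (n + 1) (br n (ct (n + 1) s)) n = J n s := by
      have h6 : Jlt (n + 1) (br n (ct (n + 1) s)) n = Jlt n s n := by
        apply Kill1_Jlt_congr
        intro g hg
        rw [U_br (Nat.lt_succ_self n) (by omega)]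
        constructor
        · rintro ⟨hU, _⟩ i j hi hj hjn hr
          refine hU i j hi hj (by omega) (Or.inr ⟨by omega, by omega, hr⟩)
        · intro hU
          refine ⟨?_, by omega⟩
          intro i j hi hj hjn hr
          rcases hr with hr | ⟨hr1, hr2, hr3⟩
          · omega
          · exact hU i j hi hj (by omega) hr3
      rw [h6]
      rfl
    rw [Nat.succ_eq_add_one, h5] at h4
    rw [h1, h2, h3]
    linarith

end Pool.Agent.H29.STP
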