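import Pool.Agent.H29.STP.Pos

/-!
# The second row kills with probability at most `4 ^ (-J) * 2 ^ b`
-/

namespace Pool.Agent.H29.STP

/-- The last `i` faces of the second row. -/
noncomputable def Kill2_T (n : ℕ) : ℕ → St → ℝ
  | 0 => E (2 * n) (al n)
  | i + 1 => F (2 * n - 1 - i) (Kill2_T n i)

theorem Kill2_up (n i : ℕ) (hi : i ≤ 2 * n) :
    up (2 * n - i) (Kill2_T n i) = R2 n (al n) := by
  induction i with
  | zero => rfl
  | succ i ih =>
    rw [← ih (by omega)]
    have e : 2 * n - i = (2 * n - 1 - i) + 1 := by omega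
    have e' : 2 * n - (i + 1) = 2 * n - 1 - i := by omega
    rw [e, e']
    rfl

theorem Kill2_nonneg (n i : ℕ) (s : St) : 0 ≤ Kill2_T n i s := by
  induction i generalizing s with
  | zero => exact al_nonneg _ _
  | succ i ih =>
    change 0 ≤ F (2 * n - 1 - i) (Kill2_T n i) s
    rw [F_apply]
    have h1 := ih s
    have h2 := ih (ev (2 * n - 1 - i) s)
    linarith

open Classical in
/-- The bound for the probability that all unstraddled gaps from `k` on are killed. -/
noncomputable def Kill2_Q (n k : ℕ) (s : St) : ℝ :=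
  ∏ g ∈ Finset.Ico k (n + 1), if U (n + 1) s g then (if g < n then 1 / 4 else 1 / 2) else (1 : ℝ)

theorem Kill2_Q_mono {n k : ℕ} {s s' : St} (h : ∀ g, k ≤ g → U (n + 1) s g → U (n + 1) s' g) :
    Kill2_Q n k s' ≤ Kill2_Q n k s := by
  unfold Kill2_Q
  refine Finset.prod_le_prod (fun g _ => ?_) (fun g hg => ?_)
  · split_ifs <;> norm_num
  · by_cases h1 : U (n + 1) s g
    · rw [if_pos h1, if_pos (h g (Finset.mem_Ico.1 hg).1 h1)]
    · rw [if_neg h1]
      split_ifs <;> norm_num

theorem Kill2_Q_nonneg (n k : ℕ) (s : St) : 0 ≤ Kill2_Q n k s := by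
  unfold Kill2_Q
  refine Finset.prod_nonneg (fun g _ => ?_)
  split_ifs <;> norm_num

open Classical in
theorem Kill2_Q_step {n k : ℕ} (hk : k < n) (s : St) :
    Kill2_Q n k s = (if U (n + 1) s k then 1 / 4 else 1) * Kill2_Q n (k + 1) s := by
  unfold Kill2_Q
  rw [Finset.prod_eq_prod_Ico_succ_bot (by omega : k < n + 1)]
  rw [if_pos hk]

theorem Kill2_al {n g : ℕ} (hg : g < n) {s : St} (h : U (n + 1) s g) : al n s = 1 := by
  unfold al
  rw [if_neg]
  rw [J_eq_zero_iff']
  intro h'
  exact h' g hg (fun i j hi hj hm => h i j hi hj (by omega))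

theorem Kill2_main (n : ℕ) (i : ℕ) (hi : i < n) (s : St) :
    ((∃ g < n - i, U (n + 1) s g) → Kill2_T n (2 * i + 1) s = 1) ∧
      1 - Kill2_Q n (n - i) s ≤ Kill2_T n (2 * i + 1) s := by
  induction i generalizing s with
  | zero =>
    have e0 : Kill2_T n (2 * 0 + 1) s = (al n (br n s) + al n (br n (ct n s))) / 2 := by
      change F (2 * n - 1 - 0) (Kill2_T n 0) s = _
      rw [F_apply]
      have e1 : 2 * n - 1 - 0 = 2 * (n - 1) + 1 := by omega
      have e2 : n - 1 + 1 = n := by omega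
      rw [e1, ev_odd, e2]
      change (E (2 * n) (al n) s + E (2 * n) (al n) (ct n s)) / 2 = _
      rw [E_apply, E_apply, ev_even, ev_even]
    rw [e0]
    constructor
    · rintro ⟨g, hg, hU⟩
      have hg' : g < n := by omega
      rw [Kill2_al hg' ((U_br (by omega) (by omega)).2 ⟨hU, by omega⟩),
        Kill2_al hg' ((U_br (by omega) (by omega)).2 ⟨U_ct_mono hU, by omega⟩)]
      norm_num
    · have a1 := al_nonneg n (br n s)
      have a2 := al_nonneg n (br n (ct n s))
      have e3 : n - 0 = n := by omega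
      rw [e3]
      unfold Kill2_Q
      have e4 : Finset.Ico n (n + 1) = {n} := by simp
      rw [e4, Finset.prod_singleton, if_neg (lt_irrefl n)]
      by_cases hU : U (n + 1) s n
      · rw [if_pos hU]
        obtain ⟨k, rfl⟩ : ∃ k, n = k + 1 := ⟨n - 1, by omega⟩
        have h1 : U (k + 1 + 1) (br (k + 1) (ct (k + 1) s)) k :=
          (U_br (by omega) (by omega)).2 ⟨U_ct_left hU, by omega⟩
        rw [Kill2_al (by omega) h1]
        linarith
      · rw [if_neg hU]
        linarith
  | succ i ih =>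
    have ih := fun s => ih (by omega) s
    set k := n - (i + 1) with hk
    have hk1 : n - i = k + 1 := by omega
    rw [hk1] at ih
    set B := Kill2_T n (2 * i + 1) with hB
    have e0 : Kill2_T n (2 * (i + 1) + 1) s =
        (B s + B (br k s) + B (ct k s) + B (br k (ct k s))) / 4 := by
      change F (2 * n - 1 - (2 * i + 2)) (F (2 * n - 1 - (2 * i + 1)) B) s = _
      have e1 : 2 * n - 1 - (2 * i + 2) = 2 * (k - 1) + 1 := by omega
      have e2 : 2 * n - 1 - (2 * i + 1) = 2 * k := by omega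
      have e3 : k - 1 + 1 = k := by omega
      rw [e1, e2, F_apply, F_apply, F_apply, ev_even, ev_odd, ev_even, e3]
      ring
    rw [e0]
    constructor
    · rintro ⟨g, hg, hU⟩
      rw [(ih s).1 ⟨g, by omega, hU⟩,
        (ih (br k s)).1 ⟨g, by omega, (U_br (by omega) (by omega)).2 ⟨hU, by omega⟩⟩,
        (ih (ct k s)).1 ⟨g, by omega, U_ct_mono hU⟩,
        (ih (br k (ct k s))).1 ⟨g, by omega, (U_br (by omega) (by omega)).2
          ⟨U_ct_mono hU, by omega⟩⟩]
      norm_num
    · have hQ1 : Kill2_Q n (k + 1) (br k s) ≤ Kill2_Q n (k + 1) s := by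
        refine Kill2_Q_mono (fun g hg hU => ?_)
        by_cases hgn : g < n + 1
        · exact (U_br (by omega) hgn).2 ⟨hU, by omega⟩
        · intro i j h1 h2 h3; omega
      rw [Kill2_Q_step (by omega : k < n)]
      by_cases hU : U (n + 1) s k
      · rw [if_pos hU]
        rw [(ih s).1 ⟨k, by omega, hU⟩, (ih (ct k s)).1 ⟨k, by omega, U_ct_mono hU⟩]
        have h3 : B (br k (ct k s)) = 1 := by
          refine (ih _).1 ⟨k - 1, by omega, (U_br (by omega) (by omega)).2 ⟨?_, by omega⟩⟩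
          obtain ⟨k', hk'⟩ : ∃ k', k = k' + 1 := ⟨k - 1, by omega⟩
          rw [hk'] at hU ⊢
          exact U_ct_left hU
        rw [h3]
        have h4 := (ih (br k s)).2
        linarith
      · rw [if_neg hU]
        have hQ2 : Kill2_Q n (k + 1) (ct k s) ≤ Kill2_Q n (k + 1) s :=
          Kill2_Q_mono (fun g _ hU => U_ct_mono hU)
        have hQ3 : Kill2_Q n (k + 1) (br k (ct k s)) ≤ Kill2_Q n (k + 1) s := by
          refine Kill2_Q_mono (fun g hg hU => ?_)
          by_cases hgn : g < n + 1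
          · exact (U_br (by omega) hgn).2 ⟨U_ct_mono hU, by omega⟩
          · intro i j h1 h2 h3; omega
        have b1 := (ih s).2
        have b2 := (ih (br k s)).2
        have b3 := (ih (ct k s)).2
        have b4 := (ih (br k (ct k s))).2
        linarith

open Classical in
theorem Kill2_w {n : ℕ} (hn : 1 ≤ n) (s : St) :
    (1 / 4 : ℝ) ^ J (n + 1) s * 2 ^ bb (n + 1) s =
      (if U (n + 1) s 0 then 1 / 2 else 1) * Kill2_Q n 1 s := by
  have e1 : (1 / 4 : ℝ) ^ J (n + 1) s =
      ∏ g ∈ Finset.range (n + 1), if U (n + 1) s g then (1 / 4 : ℝ) else 1 := by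
    unfold J
    rw [← Finset.prod_filter, Finset.prod_const]
  have e2 : ∏ g ∈ Finset.range (n + 1), (if U (n + 1) s g then (1 / 4 : ℝ) else 1) =
      (if U (n + 1) s 0 then (1 / 4 : ℝ) else 1) *
        ((∏ g ∈ Finset.Ico 1 n, (if U (n + 1) s g then (1 / 4 : ℝ) else 1)) *
          (if U (n + 1) s n then (1 / 4 : ℝ) else 1)) := by
    rw [Finset.range_eq_Ico, Finset.prod_eq_prod_Ico_succ_bot (by omega : 0 < n + 1),
      Finset.prod_Ico_succ_top (by omega : 0 + 1 ≤ n)]
  have e3 : Kill2_Q n 1 s =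
      (∏ g ∈ Finset.Ico 1 n, (if U (n + 1) s g then (1 / 4 : ℝ) else 1)) *
          (if U (n + 1) s n then (1 / 2 : ℝ) else 1) := by
    unfold Kill2_Q
    rw [Finset.prod_Ico_succ_top hn, if_neg (lt_irrefl n)]
    congr 1
    refine Finset.prod_congr rfl (fun g hg => ?_)
    rw [if_pos (Finset.mem_Ico.1 hg).2]
  rw [e1, e2, e3]
  unfold bb
  have e4 : n + 1 - 1 = n := by omega
  rw [e4]
  generalize (∏ g ∈ Finset.Ico 1 n, (if U (n + 1) s g then (1 / 4 : ℝ) else 1)) = X
  split_ifs <;> ring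

theorem kill2 {n : ℕ} (hn : 1 ≤ n) (s : St) : al (n + 1) s - R2 n (al n) s ≤ w2 n s := by
  have hT : R2 n (al n) s =
      (Kill2_T n (2 * (n - 1) + 1) s + Kill2_T n (2 * (n - 1) + 1) (br 0 s)) / 2 := by
    rw [← Kill2_up n (2 * n) le_rfl]
    have e1 : 2 * n - 2 * n = 0 := by omega
    have e2 : 2 * n = (2 * (n - 1) + 1) + 1 := by omega
    have e3 : 2 * n - 1 - (2 * (n - 1) + 1) = 2 * 0 := by omega
    rw [e1]
    conv_lhs => rw [e2]
    change F (2 * n - 1 - (2 * (n - 1) + 1)) (Kill2_T n (2 * (n - 1) + 1)) s = _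
    rw [F_apply, e3, ev_even]
  have h0 := Kill2_nonneg n (2 * (n - 1) + 1) s
  have h1 := Kill2_nonneg n (2 * (n - 1) + 1) (br 0 s)
  by_cases hJ : J (n + 1) s = 0
  · have e1 : al (n + 1) s = 0 := by unfold al; rw [if_pos hJ]
    have e2 : w2 n s = 0 := by unfold w2; rw [if_pos hJ]
    rw [e1, e2, hT]
    linarith
  · have e1 : al (n + 1) s = 1 := by unfold al; rw [if_neg hJ]
    have e2 : w2 n s = (1 / 4 : ℝ) ^ J (n + 1) s * 2 ^ bb (n + 1) s := by
      unfold w2; rw [if_neg hJ]
    rw [e1, e2, hT, Kill2_w hn]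
    have m1 := Kill2_main n (n - 1) (by omega) s
    have m2 := Kill2_main n (n - 1) (by omega) (br 0 s)
    have e3 : n - (n - 1) = 1 := by omega
    rw [e3] at m1 m2
    have hQ : Kill2_Q n 1 (br 0 s) ≤ Kill2_Q n 1 s := by
      refine Kill2_Q_mono (fun g hg hU => ?_)
      by_cases hgn : g < n + 1
      · exact (U_br (by omega) hgn).2 ⟨hU, by omega⟩
      · intro i j h1 h2 h3; omega
    by_cases hU : U (n + 1) s 0
    · rw [if_pos hU, m1.1 ⟨0, by omega, hU⟩]
      linarith [m2.2]
    · rw [if_neg hU]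
      linarith [m1.2, m2.2]

end Pool.Agent.H29.STP
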