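import Pool.Agent.H29.STP.Model

/-!
# Measurability of the crossing event
-/

open MeasureTheory ProbabilityTheory

namespace Pool.Agent.H29.STP

/-- Chains of length `k` of a random relation. -/
def measRk {Ω S : Type*} (R : Ω → S → S → Prop) : ℕ → Ω → S → S → Prop
  | 0, _, x, y => x = y
  | k + 1, ω, x, y => ∃ w, measRk R k ω x w ∧ R ω w y

theorem measurable_measRk {Ω S : Type*} [MeasurableSpace Ω] [Countable S]
    {R : Ω → S → S → Prop} (hR : ∀ x y, Measurable fun ω => R ω x y) (k : ℕ) (x y : S) :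
    Measurable fun ω => measRk R k ω x y := by
  induction k generalizing y with
  | zero => exact measurable_const
  | succ k ih =>
    exact Measurable.exists fun w => (ih w).and (hR w y)

theorem reflTransGen_iff_measRk {Ω S : Type*} (R : Ω → S → S → Prop) (ω : Ω) (x y : S) :
    Relation.ReflTransGen (R ω) x y ↔ ∃ k, measRk R k ω x y := by
  constructor
  · intro h
    induction h with
    | refl => exact ⟨0, rfl⟩
    | tail _ hbc ih =>
      obtain ⟨k, hk⟩ := ih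
      exact ⟨k + 1, _, hk, hbc⟩
  · rintro ⟨k, hk⟩
    induction k generalizing y with
    | zero => exact hk ▸ Relation.ReflTransGen.refl
    | succ k ih =>
      obtain ⟨w, h1, h2⟩ := hk
      exact (ih w h1).tail h2

/-- The countable random relation that approximates the open paths. -/
def measR {Ω : Type*} (Ξ : Bool × ℤ → Ω → Set ℝ) (n : ℕ) (ω : Ω) (x y : ℤ × ℚ) : Prop :=
  ((0 ≤ x.1 ∧ x.1 ≤ n ∧ 0 ≤ x.2 ∧ x.2 ≤ n) ∧ (0 ≤ y.1 ∧ y.1 ≤ n ∧ 0 ≤ y.2 ∧ y.2 ≤ n)) ∧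
    ((x.1 = y.1 ∧
        (Ξ (false, x.1) ω ∩ Set.Ico ((min x.2 y.2 : ℚ) : ℝ) ((max x.2 y.2 : ℚ) : ℝ)).encard = 0) ∨
      (((y.1 = x.1 + 1 ∨ x.1 = y.1 + 1) ∧ x.2 < y.2) ∧
        ¬ (Ξ (true, min x.1 y.1) ω ∩ Set.Ico (x.2 : ℝ) (y.2 : ℝ)).encard = 0 ∧
        (Ξ (false, x.1) ω ∩ Set.Ico (x.2 : ℝ) (y.2 : ℝ)).encard = 0 ∧
        (Ξ (false, y.1) ω ∩ Set.Ico (x.2 : ℝ) (y.2 : ℝ)).encard = 0))

theorem measurable_measR {Ω : Type*} [MeasurableSpace Ω] {Pm : Measure Ω}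
    {Ξ : Bool × ℤ → Ω → Set ℝ} (hΞ : IsPoisson Pm Ξ) (n : ℕ) (x y : ℤ × ℚ) :
    Measurable fun ω => measR Ξ n ω x y := by
  have h0 : ∀ i a b, Measurable fun ω => (Ξ i ω ∩ Set.Ico a b).encard = 0 := by
    intro i a b
    exact measurableSet_setOfPred.1 (hΞ.meas i a b (measurableSet_singleton 0))
  unfold measR
  exact measurable_const.and ((measurable_const.and (h0 _ _ _)).or
    (measurable_const.and ((h0 _ _ _).not.and ((h0 _ _ _).and (h0 _ _ _)))))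

theorem meas_ne_zero_le {Ω : Type*} [MeasurableSpace Ω] {Pm : Measure Ω}
    [IsProbabilityMeasure Pm] {ι : Type*} {Ξ : ι → Ω → Set ℝ} (hΞ : IsPoisson Pm Ξ) (i : ι)
    (a b : ℝ) (hab : a ≤ b) :
    Pm {ω | (Ξ i ω ∩ Set.Ico a b).encard ≠ 0} ≤ ENNReal.ofReal (b - a) := by
  have hm : MeasurableSet {ω | (Ξ i ω ∩ Set.Ico a b).encard = 0} :=
    hΞ.meas i a b (measurableSet_singleton 0)
  have h1 : {ω | (Ξ i ω ∩ Set.Ico a b).encard ≠ 0} =
      {ω | (Ξ i ω ∩ Set.Ico a b).encard = 0}ᶜ := rfl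
  have h2 := hΞ.law i a b hab 0
  rw [h1, prob_compl_eq_one_sub hm]
  simp only [Nat.cast_zero] at h2
  rw [h2]
  simp only [pow_zero, mul_one, Nat.factorial_zero, Nat.cast_one, div_one]
  rw [← ENNReal.ofReal_one, ← ENNReal.ofReal_sub _ (Real.exp_pos _).le]
  apply ENNReal.ofReal_le_ofReal
  have := Real.add_one_le_exp (-(b - a))
  linarith

theorem meas_ae_no_point {Ω : Type*} [MeasurableSpace Ω] {Pm : Measure Ω}
    [IsProbabilityMeasure Pm] {ι : Type*} {Ξ : ι → Ω → Set ℝ} (hΞ : IsPoisson Pm Ξ) (i : ι)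
    (q : ℝ) : ∀ᵐ ω ∂Pm, q ∉ Ξ i ω := by
  rw [ae_iff]
  apply nonpos_iff_eq_zero.1
  apply ENNReal.le_of_forall_pos_le_add
  intro ε hε _
  rw [zero_add]
  have h1 := meas_ne_zero_le hΞ i q (q + ε) (by simp)
  have h2 : ENNReal.ofReal (q + ε - q) = ε := by
    rw [add_sub_cancel_left, ENNReal.ofReal_coe_nnreal]
  rw [h2] at h1
  refine le_trans (measure_mono ?_) h1
  intro ω hω
  simp only [Set.mem_ofPred_eq, not_not] at hω ⊢
  rw [Set.encard_ne_zero]
  exact ⟨q, hω, le_rfl, by simpa using hε⟩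

theorem meas_ae_finite {Ω : Type*} [MeasurableSpace Ω] {Pm : Measure Ω}
    [IsProbabilityMeasure Pm] {ι : Type*} {Ξ : ι → Ω → Set ℝ} (hΞ : IsPoisson Pm Ξ) (i : ι)
    (a b : ℝ) (hab : a ≤ b) : ∀ᵐ ω ∂Pm, (Ξ i ω ∩ Set.Ico a b).Finite := by
  have hm : ∀ k : ℕ, MeasurableSet {ω | (Ξ i ω ∩ Set.Ico a b).encard = k} := fun k =>
    hΞ.meas i a b (measurableSet_singleton (k : ℕ∞))
  have h1 : Pm (⋃ k : ℕ, {ω | (Ξ i ω ∩ Set.Ico a b).encard = k}) = 1 := by
    rw [measure_iUnion _ hm]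
    · simp_rw [hΞ.law i a b hab]
      have hnn : ∀ k : ℕ, 0 ≤ Real.exp (-(b - a)) * (b - a) ^ k / (k.factorial : ℝ) := by
        intro k
        have := sub_nonneg.2 hab
        positivity
      have hs : HasSum (fun k : ℕ => Real.exp (-(b - a)) * (b - a) ^ k / (k.factorial : ℝ)) 1 := by
        have h3 := (NormedSpace.expSeries_div_hasSum_exp (b - a)).mul_left (Real.exp (-(b - a)))
        rw [← Real.exp_eq_exp_ℝ, ← Real.exp_add, neg_add_cancel, Real.exp_zero] at h3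
        simpa only [mul_div_assoc] using h3
      rw [← ENNReal.ofReal_tsum_of_nonneg hnn hs.summable, hs.tsum_eq, ENNReal.ofReal_one]
    · intro j k hjk
      rw [Function.onFun, Set.disjoint_left]
      intro ω h1 h2
      simp only [Set.mem_ofPred_eq] at h1 h2
      rw [h1] at h2
      exact hjk (by exact_mod_cast h2)
  have h2 := (prob_compl_eq_zero_iff (MeasurableSet.iUnion hm)).2 h1
  rw [ae_iff]
  refine measure_mono_null ?_ h2
  intro ω hω
  simp only [Set.mem_ofPred_eq, Set.mem_compl_iff, Set.mem_iUnion, not_exists] at hω ⊢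
  intro k hk
  exact hω (Set.finite_of_encard_eq_coe hk)

theorem meas_ae_simul {Ω : Type*} [MeasurableSpace Ω] {Pm : Measure Ω}
    [IsProbabilityMeasure Pm] {ι : Type*} {Ξ : ι → Ω → Set ℝ} (hΞ : IsPoisson Pm Ξ) (i j : ι)
    (hij : i ≠ j) (M : ℕ) :
    ∀ᵐ ω ∂Pm, ∀ t ∈ Set.Ico (0 : ℝ) M, ¬ (t ∈ Ξ i ω ∧ t ∈ Ξ j ω) := by
  have key : ∀ m : ℕ, Pm {ω | ¬ ∀ t ∈ Set.Ico (0 : ℝ) M, ¬ (t ∈ Ξ i ω ∧ t ∈ Ξ j ω)} ≤
      ENNReal.ofReal (M / (m + 1 : ℝ)) := by
    intro m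
    have hm : (0 : ℝ) < m + 1 := by positivity
    set A : ι → ℕ → Set Ω := fun i c => {ω | (Ξ i ω ∩
      Set.Ico ((c : ℝ) / (m + 1)) (((c : ℝ) + 1) / (m + 1))).encard ≠ 0} with hA
    have hsub : {ω | ¬ ∀ t ∈ Set.Ico (0 : ℝ) M, ¬ (t ∈ Ξ i ω ∧ t ∈ Ξ j ω)} ⊆
        ⋃ c ∈ Finset.range ((m + 1) * M), A i c ∩ A j c := by
      intro ω hω
      simp only [Set.mem_ofPred_eq] at hω
      push Not at hω
      obtain ⟨t, ⟨ht0, htM⟩, hti, htj⟩ := hω
      have ht' : (0 : ℝ) ≤ t * (m + 1) := by positivity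
      have hc1 := Nat.floor_le ht'
      have hc2 := Nat.lt_floor_add_one (t * ((m : ℝ) + 1))
      have hmem : t ∈ Set.Ico ((⌊t * ((m : ℝ) + 1)⌋₊ : ℝ) / (m + 1))
          (((⌊t * ((m : ℝ) + 1)⌋₊ : ℝ) + 1) / (m + 1)) := by
        constructor
        · rwa [div_le_iff₀ hm]
        · rwa [lt_div_iff₀ hm]
      simp only [Set.mem_iUnion, Finset.mem_range, Set.mem_inter_iff]
      refine ⟨⌊t * ((m : ℝ) + 1)⌋₊, ?_, ?_, ?_⟩
      · rw [Nat.floor_lt ht']
        push_cast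
        nlinarith
      · simp only [hA, Set.mem_ofPred_eq]
        rw [Set.encard_ne_zero]
        exact ⟨t, hti, hmem⟩
      · simp only [hA, Set.mem_ofPred_eq]
        rw [Set.encard_ne_zero]
        exact ⟨t, htj, hmem⟩
    have hlen : ∀ c : ℕ, ((c : ℝ) + 1) / (m + 1) - (c : ℝ) / (m + 1) = 1 / (m + 1) := by
      intro c
      field_simp
      ring
    have hle : ∀ (i : ι) (c : ℕ), Pm (A i c) ≤ ENNReal.ofReal (1 / (m + 1)) := by
      intro i c
      have := meas_ne_zero_le hΞ i ((c : ℝ) / (m + 1)) (((c : ℝ) + 1) / (m + 1))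
        (by gcongr; linarith)
      rwa [hlen] at this
    have hind : ∀ c : ℕ, Pm (A i c ∩ A j c) = Pm (A i c) * Pm (A j c) := by
      intro c
      have h := hΞ.indep 2 ![i, j] (fun _ => (c : ℝ) / (m + 1)) (fun _ => ((c : ℝ) + 1) / (m + 1))
        (by
          intro x y hxy hxy'
          exfalso
          fin_cases x <;> fin_cases y <;> simp at hxy hxy'
          · exact hij hxy'
          · exact hij hxy'.symm)
      have h2 := h.indepFun (show (0 : Fin 2) ≠ 1 by decide)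
      have h3 := h2.measure_inter_preimage_eq_mul {0}ᶜ {0}ᶜ
        (measurableSet_singleton 0).compl (measurableSet_singleton 0).compl
      exact h3
    calc _ ≤ Pm (⋃ c ∈ Finset.range ((m + 1) * M), A i c ∩ A j c) := measure_mono hsub
      _ ≤ ∑ c ∈ Finset.range ((m + 1) * M), Pm (A i c ∩ A j c) :=
          measure_biUnion_finset_le _ _
      _ ≤ ∑ c ∈ Finset.range ((m + 1) * M), ENNReal.ofReal (1 / (m + 1) * (1 / (m + 1))) := by
          apply Finset.sum_le_sum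
          intro c _
          rw [hind, ENNReal.ofReal_mul (by positivity)]
          exact mul_le_mul' (hle i c) (hle j c)
      _ = ENNReal.ofReal (M / (m + 1 : ℝ)) := by
          rw [Finset.sum_const, Finset.card_range, nsmul_eq_mul,
            ← ENNReal.ofReal_natCast, ← ENNReal.ofReal_mul (by positivity)]
          congr 1
          push_cast
          field_simp
  rw [ae_iff]
  apply nonpos_iff_eq_zero.1
  have ht : Filter.Tendsto (fun m : ℕ => ENNReal.ofReal (M / (m + 1 : ℝ))) Filter.atTop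
      (nhds (ENNReal.ofReal 0)) := by
    apply ENNReal.tendsto_ofReal
    have := tendsto_one_div_add_atTop_nhds_zero_nat (𝕜 := ℝ)
    have h2 := this.const_mul (M : ℝ)
    simpa [div_eq_mul_inv] using h2
  rw [ENNReal.ofReal_zero] at ht
  exact ge_of_tendsto' ht key

/-- The good event. -/
def measGood {Ω : Type*} (Ξ : Bool × ℤ → Ω → Set ℝ) (n : ℕ) (ω : Ω) : Prop :=
  (∀ z : ℤ, (Ξ (false, z) ω ∩ Set.Ico (0 : ℝ) (n + 1 : ℕ)).Finite) ∧
    (∀ (i : Bool × ℤ) (q : ℚ), (q : ℝ) ∉ Ξ i ω) ∧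
    (∀ (z w : ℤ), ∀ t ∈ Set.Ico (0 : ℝ) (n + 1 : ℕ), ¬ (t ∈ Ξ (false, z) ω ∧ t ∈ Ξ (true, w) ω))

theorem ae_measGood {Ω : Type*} [MeasurableSpace Ω] {Pm : Measure Ω}
    [IsProbabilityMeasure Pm] {Ξ : Bool × ℤ → Ω → Set ℝ} (hΞ : IsPoisson Pm Ξ) (n : ℕ) :
    ∀ᵐ ω ∂Pm, measGood Ξ n ω := by
  refine Filter.Eventually.and ?_ (Filter.Eventually.and ?_ ?_)
  · rw [ae_all_iff]
    exact fun z => meas_ae_finite hΞ _ _ _ (by positivity)
  · rw [ae_all_iff]
    intro i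
    rw [ae_all_iff]
    exact fun q => meas_ae_no_point hΞ i q
  · rw [ae_all_iff]
    intro z
    rw [ae_all_iff]
    exact fun w => meas_ae_simul hΞ _ _ (by simp) _

section det

variable {Ω : Type*} {Ξ : Bool × ℤ → Ω → Set ℝ} {n : ℕ} {ω : Ω}

/-- One step of the countable relation gives an open path. -/
theorem pstep_of_measR (hG : measGood Ξ n ω) {x y : ℤ × ℚ} (h : measR Ξ n ω x y) :
    Relation.ReflTransGen (PStep (fun z => Ξ (false, z) ω) (fun z => Ξ (true, z) ω) (Box n))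
      (x.1, (x.2 : ℝ)) (y.1, (y.2 : ℝ)) := by
  obtain ⟨⟨⟨hx1, hx2, hx3, hx4⟩, hy1, hy2, hy3, hy4⟩, h⟩ := h
  have hx3' : (0 : ℝ) ≤ x.2 := by exact_mod_cast hx3
  have hx4' : (x.2 : ℝ) ≤ n := by exact_mod_cast hx4
  have hy3' : (0 : ℝ) ≤ y.2 := by exact_mod_cast hy3
  have hy4' : (y.2 : ℝ) ≤ n := by exact_mod_cast hy4
  rcases h with ⟨hxy, h0⟩ | ⟨⟨hxy, hlt⟩, hb, hc1, hc2⟩
  · apply Relation.ReflTransGen.single
    refine ⟨⟨hx1, hx2, hx3', hx4'⟩, ⟨hy1, hy2, hy3', hy4'⟩, Or.inl ⟨hxy, ?_⟩⟩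
    intro u hu hmem
    rw [Set.encard_eq_zero] at h0
    have hne : u ≠ ((max x.2 y.2 : ℚ) : ℝ) := by
      rintro rfl
      exact hG.2.1 _ _ hmem
    have : u ∈ (Ξ (false, x.1) ω ∩
        Set.Ico ((min x.2 y.2 : ℚ) : ℝ) ((max x.2 y.2 : ℚ) : ℝ)) := by
      refine ⟨hmem, ?_, lt_of_le_of_ne ?_ hne⟩
      · push_cast
        exact hu.1
      · push_cast
        exact hu.2
    rw [h0] at this
    exact this
  · rw [Set.encard_eq_zero] at hc1 hc2
    obtain ⟨t, htm, ht1, ht2⟩ := Set.encard_ne_zero.1 hb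
    have hlt' : (x.2 : ℝ) < y.2 := by exact_mod_cast hlt
    have hno : ∀ z : ℤ, (Ξ (false, z) ω ∩ Set.Ico (x.2 : ℝ) (y.2 : ℝ)) = ∅ →
        ∀ u ∈ Set.Icc (x.2 : ℝ) y.2, u ∉ Ξ (false, z) ω := by
      intro z hz u hu hmem
      have hne : u ≠ (y.2 : ℝ) := by
        rintro rfl
        exact hG.2.1 _ _ hmem
      have : u ∈ (Ξ (false, z) ω ∩ Set.Ico (x.2 : ℝ) (y.2 : ℝ)) :=
        ⟨hmem, hu.1, lt_of_le_of_ne hu.2 hne⟩
      rw [hz] at this
      exact this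
    have e1 : PStep (fun z => Ξ (false, z) ω) (fun z => Ξ (true, z) ω) (Box n)
        (x.1, (x.2 : ℝ)) (x.1, t) := by
      refine ⟨⟨hx1, hx2, hx3', hx4'⟩, ⟨hx1, hx2, by linarith, by linarith⟩, Or.inl ⟨rfl, ?_⟩⟩
      intro u hu
      simp only at hu ⊢
      rw [Set.uIcc_of_le ht1] at hu
      exact hno _ hc1 u ⟨hu.1, hu.2.trans ht2.le⟩
    have e2 : PStep (fun z => Ξ (false, z) ω) (fun z => Ξ (true, z) ω) (Box n)
        (x.1, t) (y.1, t) := by
      refine ⟨⟨hx1, hx2, by linarith, by linarith⟩, ⟨hy1, hy2, by linarith, by linarith⟩,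
        Or.inr ⟨rfl, ?_⟩⟩
      rcases hxy with hxy | hxy
      · left
        refine ⟨hxy, ?_⟩
        have : min x.1 y.1 = x.1 := by rw [hxy]; simp
        rw [this] at htm
        exact htm
      · right
        refine ⟨hxy, ?_⟩
        have : min x.1 y.1 = y.1 := by rw [hxy]; simp
        rw [this] at htm
        exact htm
    have e3 : PStep (fun z => Ξ (false, z) ω) (fun z => Ξ (true, z) ω) (Box n)
        (y.1, t) (y.1, (y.2 : ℝ)) := by
      refine ⟨⟨hy1, hy2, by linarith, by linarith⟩, ⟨hy1, hy2, hy3', hy4'⟩, Or.inl ⟨rfl, ?_⟩⟩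
      intro u hu
      simp only at hu ⊢
      rw [Set.uIcc_of_le ht2.le] at hu
      exact hno _ hc2 u ⟨ht1.trans hu.1, hu.2⟩
    exact ((Relation.ReflTransGen.single e1).tail e2).tail e3

/-- Rational neighbours: near a time `t` strictly inside `[0, n]` which is no cut of `z` and `w`
there are rational times `q₁ < t < q₂` with no cut in `[q₁, q₂]`. -/
theorem exists_rat_nbhd (hG : measGood Ξ n ω) {z w : ℤ} {t : ℝ} (ht0 : 0 < t) (htn : t < n)
    (hz : t ∉ Ξ (false, z) ω) (hw : t ∉ Ξ (false, w) ω) :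
    ∃ q₁ q₂ : ℚ, 0 ≤ q₁ ∧ (q₁ : ℝ) < t ∧ t < q₂ ∧ q₂ ≤ n ∧
      ∀ u ∈ Set.Icc (q₁ : ℝ) q₂, u ∉ Ξ (false, z) ω ∧ u ∉ Ξ (false, w) ω := by
  have hfin : ((Ξ (false, z) ω ∩ Set.Ico (0 : ℝ) (n + 1 : ℕ)) ∪
      (Ξ (false, w) ω ∩ Set.Ico (0 : ℝ) (n + 1 : ℕ))).Finite := (hG.1 z).union (hG.1 w)
  have hopen := hfin.isClosed.isOpen_compl
  have htm : t ∈ ((Ξ (false, z) ω ∩ Set.Ico (0 : ℝ) (n + 1 : ℕ)) ∪
      (Ξ (false, w) ω ∩ Set.Ico (0 : ℝ) (n + 1 : ℕ)))ᶜ := by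
    rintro (h | h)
    · exact hz h.1
    · exact hw h.1
  obtain ⟨ε, hε, hball⟩ := Metric.isOpen_iff.1 hopen t htm
  obtain ⟨q₁, h1, h2⟩ := exists_rat_btwn (show max 0 (t - ε) < t by
    rw [max_lt_iff]; exact ⟨ht0, by linarith⟩)
  obtain ⟨q₂, h3, h4⟩ := exists_rat_btwn (show t < min (n : ℝ) (t + ε) by
    rw [lt_min_iff]; exact ⟨htn, by linarith⟩)
  rw [max_lt_iff] at h1
  rw [lt_min_iff] at h4
  refine ⟨q₁, q₂, by exact_mod_cast h1.1.le, h2, h3, by exact_mod_cast h4.1.le, ?_⟩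
  intro u hu
  have hub : u ∈ Metric.ball t ε := by
    rw [Metric.mem_ball, Real.dist_eq, abs_lt]
    constructor <;> linarith [hu.1, hu.2, h1.2, h4.2]
  have hu' := hball hub
  have huI : u ∈ Set.Ico (0 : ℝ) (n + 1 : ℕ) := by
    refine ⟨h1.1.le.trans hu.1, ?_⟩
    push_cast
    linarith [hu.2, h4.1]
  constructor
  · intro h
    exact hu' (Or.inl ⟨h, huI⟩)
  · intro h
    exact hu' (Or.inr ⟨h, huI⟩)

/-- A vertical step of the countable relation. -/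
theorem measR_vert {z : ℤ} {q r : ℚ} {t : ℝ} (hz0 : 0 ≤ z) (hzn : z ≤ n) (hq0 : 0 ≤ q)
    (hqn : q ≤ n) (hr0 : 0 ≤ r) (hrn : r ≤ n)
    (h1 : ∀ u ∈ Set.uIcc (q : ℝ) t, u ∉ Ξ (false, z) ω)
    (h2 : ∀ u ∈ Set.uIcc t (r : ℝ), u ∉ Ξ (false, z) ω) :
    measR Ξ n ω (z, q) (z, r) := by
  refine ⟨⟨⟨hz0, hzn, hq0, hqn⟩, hz0, hzn, hr0, hrn⟩, Or.inl ⟨rfl, ?_⟩⟩
  rw [Set.encard_eq_zero, Set.eq_empty_iff_forall_notMem]
  rintro u ⟨hu, hu1, hu2⟩
  push_cast at hu1 hu2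
  have hmem : u ∈ Set.uIcc (q : ℝ) r := ⟨hu1, hu2.le⟩
  rcases Set.uIcc_subset_uIcc_union_uIcc (b := t) hmem with h | h
  · exact h1 u h hu
  · exact h2 u h hu

/-- An open path gives a chain of the countable relation. -/
theorem exists_chain (hG : measGood Ξ n ω) {p q : ℤ × ℝ}
    (h : Relation.ReflTransGen
      (PStep (fun z => Ξ (false, z) ω) (fun z => Ξ (true, z) ω) (Box n)) p q)
    (hp : p ∈ Box n) :
    (q = p ∨ q.2 ∉ Ξ (false, q.1) ω) ∧ (q.2 ∉ Ξ (false, q.1) ω →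
      ∃ a b : ℚ, (0 ≤ a ∧ a ≤ n ∧ 0 ≤ b ∧ b ≤ n) ∧
        Relation.ReflTransGen (measR Ξ n ω) (p.1, a) (q.1, b) ∧
          ∀ u ∈ Set.uIcc (b : ℝ) q.2, u ∉ Ξ (false, q.1) ω) := by
  have htime : ∀ (i : Bool × ℤ) (t : ℝ), 0 ≤ t → t ≤ n → t ∈ Ξ i ω → 0 < t ∧ t < n := by
    intro i t h0 h1 ht
    constructor
    · refine lt_of_le_of_ne h0 ?_
      rintro rfl
      exact hG.2.1 i 0 (by simpa using ht)
    · refine lt_of_le_of_ne h1 ?_
      rintro rfl
      exact hG.2.1 i n (by simpa using ht)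
  induction h with
  | refl =>
    refine ⟨Or.inl rfl, fun hc => ?_⟩
    obtain ⟨hp1, hp2, hp3, hp4⟩ := hp
    rcases hp3.eq_or_lt with h0 | h0
    · refine ⟨0, 0, ⟨le_rfl, by positivity, le_rfl, by positivity⟩,
        Relation.ReflTransGen.refl, ?_⟩
      intro u hu
      rw [← h0] at hu hc
      simp only [Rat.cast_zero, Set.uIcc_self, Set.mem_singleton_iff] at hu
      rw [hu]
      exact hc
    rcases hp4.eq_or_lt with h1 | h1
    · refine ⟨n, n, ⟨by positivity, le_rfl, by positivity, le_rfl⟩,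
        Relation.ReflTransGen.refl, ?_⟩
      intro u hu
      rw [h1] at hu hc
      simp only [Rat.cast_natCast, Set.uIcc_self, Set.mem_singleton_iff] at hu
      rw [hu]
      exact hc
    · obtain ⟨q₁, q₂, g1, g2, g3, g4, g5⟩ := exists_rat_nbhd hG h0 h1 hc hc
      have g2' : q₁ ≤ (n : ℚ) := by
        have : (q₁ : ℝ) ≤ n := by linarith
        exact_mod_cast this
      refine ⟨q₁, q₁, ⟨g1, g2', g1, g2'⟩, Relation.ReflTransGen.refl, ?_⟩
      intro u hu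
      rw [Set.uIcc_of_le g2.le] at hu
      exact (g5 u ⟨hu.1, hu.2.trans g3.le⟩).1
  | @tail x y _ hxy ih =>
    obtain ⟨hx, hy, hxy⟩ := hxy
    obtain ⟨hx1, hx2, hx3, hx4⟩ := hx
    obtain ⟨hy1, hy2, hy3, hy4⟩ := hy
    rcases hxy with ⟨h1, h2⟩ | ⟨h1, h2⟩
    · have hxc : x.2 ∉ Ξ (false, x.1) ω := h2 _ Set.left_mem_uIcc
      have hyc : y.2 ∉ Ξ (false, y.1) ω := h1 ▸ h2 _ Set.right_mem_uIcc
      refine ⟨Or.inr hyc, fun _ => ?_⟩
      obtain ⟨a, b, hab, hch, hno⟩ := ih.2 hxc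
      refine ⟨a, b, hab, h1 ▸ hch, ?_⟩
      intro u hu
      rw [← h1]
      rcases Set.uIcc_subset_uIcc_union_uIcc (b := x.2) hu with h | h
      · exact hno u h
      · exact h2 u h
    · have hbr : ∃ w, x.2 ∈ Ξ (true, w) ω := by
        rcases h2 with h2 | h2
        · exact ⟨_, h2.2⟩
        · exact ⟨_, h2.2⟩
      have hbr' : x.2 ∈ Ξ (true, min x.1 y.1) ω := by
        rcases h2 with h2 | h2
        · have : min x.1 y.1 = x.1 := by rw [h2.1]; simp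
          rw [this]
          exact h2.2
        · have : min x.1 y.1 = y.1 := by rw [h2.1]; simp
          rw [this]
          exact h2.2
      have hcut : ∀ z, x.2 ∉ Ξ (false, z) ω := by
        intro z hz
        obtain ⟨w, hw⟩ := hbr
        refine hG.2.2 z w x.2 ⟨hx3, ?_⟩ ⟨hz, hw⟩
        push_cast
        linarith
      obtain ⟨ht0, htn⟩ := htime _ _ hx3 hx4 hbr'
      refine ⟨Or.inr (h1 ▸ hcut _), fun _ => ?_⟩
      obtain ⟨a, b, hab, hch, hno⟩ := ih.2 (hcut _)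
      obtain ⟨q₁, q₂, g1, g2, g3, g4, g5⟩ := exists_rat_nbhd hG ht0 htn (hcut x.1) (hcut y.1)
      have hlt : q₁ < q₂ := by
        have : (q₁ : ℝ) < q₂ := g2.trans g3
        exact_mod_cast this
      have g2' : q₁ ≤ (n : ℚ) := hlt.le.trans g4
      have g3' : 0 ≤ q₂ := g1.trans hlt.le
      have s1 : measR Ξ n ω (x.1, b) (x.1, q₁) := by
        refine measR_vert (t := x.2) hx1 hx2 hab.2.2.1 hab.2.2.2 g1 g2' hno ?_
        intro u hu
        rw [Set.uIcc_of_ge g2.le] at hu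
        exact (g5 u ⟨hu.1, hu.2.trans g3.le⟩).1
      have s2 : measR Ξ n ω (x.1, q₁) (y.1, q₂) := by
        refine ⟨⟨⟨hx1, hx2, g1, g2'⟩, hy1, hy2, g3', g4⟩, Or.inr ⟨⟨?_, hlt⟩, ?_, ?_, ?_⟩⟩
        · rcases h2 with h2 | h2
          · exact Or.inl h2.1
          · exact Or.inr h2.1
        · exact Set.encard_ne_zero.2 ⟨x.2, hbr', g2.le, g3⟩
        · rw [Set.encard_eq_zero, Set.eq_empty_iff_forall_notMem]
          rintro u ⟨hu, hu1, hu2⟩
          exact (g5 u ⟨hu1, hu2.le⟩).1 hu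
        · rw [Set.encard_eq_zero, Set.eq_empty_iff_forall_notMem]
          rintro u ⟨hu, hu1, hu2⟩
          exact (g5 u ⟨hu1, hu2.le⟩).2 hu
      refine ⟨a, q₂, ⟨hab.1, hab.2.1, g3', g4⟩, (hch.tail s1).tail s2, ?_⟩
      intro u hu
      rw [← h1, Set.uIcc_of_ge g3.le] at hu
      exact (g5 u ⟨g2.le.trans hu.1, hu.2⟩).2

end det

theorem nullMeasurableSet_CEvent {Ω : Type*} [MeasurableSpace Ω] {Pm : Measure Ω}
    [IsProbabilityMeasure Pm] {Ξ : Bool × ℤ → Ω → Set ℝ} (hΞ : IsPoisson Pm Ξ) (n : ℕ) :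
    NullMeasurableSet (CEvent Ξ n) Pm := by
  rcases Nat.eq_zero_or_pos n with rfl | hn
  · have : CEvent Ξ 0 = Set.univ := by
      rw [Set.eq_univ_iff_forall]
      intro ω
      exact ⟨(0, 0), (0, 0), by simp [Box], by simp [Box], rfl, by simp,
        Relation.ReflTransGen.refl⟩
    rw [this]
    exact MeasurableSet.univ.nullMeasurableSet
  set E : Set Ω := {ω | ∃ a b : ℚ, (0 ≤ a ∧ a ≤ n ∧ 0 ≤ b ∧ b ≤ n) ∧
    Relation.ReflTransGen (measR Ξ n ω) (0, a) ((n : ℤ), b)} with hE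
  have hEm : MeasurableSet E := by
    apply measurableSet_setOfPred.2
    apply Measurable.exists
    intro a
    apply Measurable.exists
    intro b
    apply measurable_const.and
    simp_rw [reflTransGen_iff_measRk]
    apply Measurable.exists
    intro k
    exact measurable_measRk (fun x y => measurable_measR hΞ n x y) k _ _
  refine hEm.nullMeasurableSet.congr ?_
  filter_upwards [ae_measGood hΞ n] with ω hG
  apply propext
  constructor
  · rintro ⟨a, b, ⟨ha0, han, hb0, hbn⟩, hch⟩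
    have ha0' : (0 : ℝ) ≤ a := by exact_mod_cast ha0
    have han' : (a : ℝ) ≤ n := by exact_mod_cast han
    have hb0' : (0 : ℝ) ≤ b := by exact_mod_cast hb0
    have hbn' : (b : ℝ) ≤ n := by exact_mod_cast hbn
    refine ⟨(0, (a : ℝ)), ((n : ℤ), (b : ℝ)), ⟨le_rfl, by positivity, ha0', han'⟩,
      ⟨by positivity, le_rfl, hb0', hbn'⟩, rfl, rfl, ?_⟩
    have key : ∀ y : ℤ × ℚ, Relation.ReflTransGen (measR Ξ n ω) (0, a) y →
        Relation.ReflTransGen (PStep (fun z => Ξ (false, z) ω) (fun z => Ξ (true, z) ω) (Box n))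
          (0, (a : ℝ)) (y.1, (y.2 : ℝ)) := by
      intro y hy
      induction hy with
      | refl => exact Relation.ReflTransGen.refl
      | tail _ hbc ih => exact ih.trans (pstep_of_measR hG hbc)
    exact key _ hch
  · rintro ⟨p, q, hp, hq, hp0, hqn, hch⟩
    obtain ⟨h1, h2⟩ := exists_chain hG hch hp
    have hne : q ≠ p := by
      rintro rfl
      rw [hp0] at hqn
      have : n = 0 := by exact_mod_cast hqn.symm
      omega
    obtain ⟨a, b, hab, hch', _⟩ := h2 (h1.resolve_left hne)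
    rw [hp0, hqn] at hch'
    exact ⟨a, b, hab, hch'⟩

end Pool.Agent.H29.STP
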