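import Mathlib

/-!
# Critical space-time percolation on `ℤ × ℝ`
-/

open MeasureTheory ProbabilityTheory

namespace Pool.Agent.H29.STP

/-- The random sets `Ξ i`, `i : ι`, are independent Poisson processes of rate `1` on `ℝ`: the
number of points of `Ξ i` in `[a, b)` has the Poisson law with mean `b - a`, and the numbers of
points in finitely many such intervals, where intervals of the same process are disjoint, are
independent. -/
structure IsPoisson {ι Ω : Type*} [MeasurableSpace Ω] (Pm : Measure Ω) (Ξ : ι → Ω → Set ℝ) :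
    Prop where
  meas : ∀ i a b, Measurable fun ω => (Ξ i ω ∩ Set.Ico a b).encard
  law : ∀ i a b, a ≤ b → ∀ k : ℕ, Pm {ω | (Ξ i ω ∩ Set.Ico a b).encard = k} =
    ENNReal.ofReal (Real.exp (-(b - a)) * (b - a) ^ k / k.factorial)
  indep : ∀ (m : ℕ) (i : Fin m → ι) (a b : Fin m → ℝ),
    (∀ x y, x ≠ y → i x = i y → Disjoint (Set.Ico (a x) (b x)) (Set.Ico (a y) (b y))) →
      iIndepFun (fun x ω => (Ξ (i x) ω ∩ Set.Ico (a x) (b x)).encard) Pm

/-- One piece of an open path inside the set `S`: a vertical segment of the line `p.1` without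
cuts, or a bridge.  `Cu z` is the set of the times of the cuts on the line `z` and `Br z` the set
of the times of the bridges between the lines `z` and `z + 1`. -/
def PStep (Cu Br : ℤ → Set ℝ) (S : Set (ℤ × ℝ)) (p q : ℤ × ℝ) : Prop :=
  p ∈ S ∧ q ∈ S ∧
    ((p.1 = q.1 ∧ ∀ u ∈ Set.uIcc p.2 q.2, u ∉ Cu p.1) ∨
      (p.2 = q.2 ∧ ((q.1 = p.1 + 1 ∧ p.2 ∈ Br p.1) ∨ (p.1 = q.1 + 1 ∧ p.2 ∈ Br q.1))))

/-- The closed square `[0, n] × [0, n]`. -/
def Box (n : ℕ) : Set (ℤ × ℝ) := {p | 0 ≤ p.1 ∧ p.1 ≤ n ∧ 0 ≤ p.2 ∧ p.2 ≤ n}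

/-- The event `C_n(0)`: some open path inside `[0, n] × [0, n]` joins the left side to the right
side. -/
def Cross (Cu Br : ℤ → Set ℝ) (n : ℕ) : Prop :=
  ∃ p q : ℤ × ℝ, p ∈ Box n ∧ q ∈ Box n ∧ p.1 = 0 ∧ q.1 = n ∧
    Relation.ReflTransGen (PStep Cu Br (Box n)) p q

/-- The event `C_n(0)` for the processes `Ξ`: `Ξ (false, z)` is the set of the cuts on the line
`z` and `Ξ (true, z)` the set of the bridges between `z` and `z + 1`. -/
def CEvent {Ω : Type*} (Ξ : Bool × ℤ → Ω → Set ℝ) (n : ℕ) : Set Ω :=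
  {ω | Cross (fun z => Ξ (false, z) ω) (fun z => Ξ (true, z) ω) n}

end Pool.Agent.H29.STP
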