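import Pool.Agent.H29.STP.PoiPath

/-!
# The probability of a word
-/

open MeasureTheory ProbabilityTheory

namespace Pool.Agent.H29.STP

/-- Weight of a letter. -/
noncomputable def wt (n : ℕ) (δ : ℝ) : Option ℕ → ℝ
  | none => Real.exp (-((2 * n - 1 : ℕ) : ℝ) * δ)
  | some _ => δ * Real.exp (-((2 * n - 1 : ℕ) : ℝ) * δ)

/-- Extension of a word on `Fin L` to a word on `ℕ`. -/
def extW {L c : ℕ} (w : Fin L → Option (Fin c)) : ℕ → Option ℕ := fun i =>
  if h : i < L then (w ⟨i, h⟩).map Fin.val else none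

theorem PoiA_extW {L c : ℕ} (w : Fin L → Option (Fin c)) (i : Fin L) (j : Fin c) :
    extW w i = some (j : ℕ) ↔ w i = some j := by
  have e : extW w i = (w i).map Fin.val := by
    unfold extW
    rw [dif_pos i.2]
  rw [e]
  constructor
  · intro h
    rw [Option.map_eq_some_iff] at h
    obtain ⟨a, ha, hb⟩ := h
    rw [ha, Fin.ext hb]
  · intro h
    rw [h]
    rfl

theorem PoiA_proc {j k : ℕ} (h : proc j = proc k) : j = k := by
  unfold proc at h
  split_ifs at h with h1 h2 h2
  · have := (Prod.mk.inj h).2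
    have : j / 2 = k / 2 := by exact_mod_cast this
    omega
  · exact absurd (Prod.mk.inj h).1 (by decide)
  · exact absurd (Prod.mk.inj h).1 (by decide)
  · have := (Prod.mk.inj h).2
    have : (j + 1) / 2 = (k + 1) / 2 := by exact_mod_cast this
    omega

theorem measurableSet_wordOn {Ω : Type*} [MeasurableSpace Ω] {Pm : Measure Ω}
    {Ξ : Bool × ℤ → Ω → Set ℝ} (hΞ : IsPoisson Pm Ξ) (n : ℕ) (δ : ℝ) (L : ℕ)
    (w : ℕ → Option ℕ) : MeasurableSet {ω | WordOn (fun i => Ξ i ω) n δ L w} := by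
  unfold WordOn
  simp only [Set.ofPred_forall]
  refine MeasurableSet.iInter fun i => MeasurableSet.iInter fun _ =>
    MeasurableSet.iInter fun j => MeasurableSet.iInter fun _ => ?_
  exact (hΞ.meas (proc j) (i * δ) ((i + 1) * δ)) (measurableSet_singleton _)

theorem PoiA_letter (n : ℕ) (δ : ℝ) (u : Option (Fin (2 * n - 1))) :
    ∏ j : Fin (2 * n - 1), (Real.exp (-δ) * if u = some j then δ else 1) =
      wt n δ (u.map Fin.val) := by
  rw [Finset.prod_mul_distrib, Finset.prod_const, Finset.card_univ, Fintype.card_fin,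
    ← Real.exp_nat_mul]
  have e : ((2 * n - 1 : ℕ) : ℝ) * -δ = -((2 * n - 1 : ℕ) : ℝ) * δ := by ring
  rw [e]
  cases u with
  | none => simp [wt]
  | some k =>
    have e2 : ∏ j : Fin (2 * n - 1), (if some k = some j then δ else 1) = δ := by
      rw [Finset.prod_eq_single k]
      · simp
      · intro b _ hb
        rw [if_neg]
        intro h
        exact hb (Option.some.inj h).symm
      · intro h
        exact absurd (Finset.mem_univ k) h
    rw [e2]
    show _ = δ * _
    ring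

theorem prob_wordOn {Ω : Type*} [MeasurableSpace Ω] {Pm : Measure Ω} [IsProbabilityMeasure Pm]
    {Ξ : Bool × ℤ → Ω → Set ℝ} (hΞ : IsPoisson Pm Ξ) {n : ℕ} (hn : 1 ≤ n) {δ : ℝ} (hδ : 0 < δ)
    (L : ℕ) (w : Fin L → Option (Fin (2 * n - 1))) :
    Pm.real {ω | WordOn (fun i => Ξ i ω) n δ L (extW w)} =
      ∏ i : Fin L, wt n δ ((w i).map Fin.val) := by
  classical
  let e : Fin L × Fin (2 * n - 1) ≃ Fin (L * (2 * n - 1)) := finProdFinEquiv
  let I : Fin (L * (2 * n - 1)) → Bool × ℤ := fun x => proc (e.symm x).2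
  let a : Fin (L * (2 * n - 1)) → ℝ := fun x => ((e.symm x).1 : ℕ) * δ
  let b : Fin (L * (2 * n - 1)) → ℝ := fun x => (((e.symm x).1 : ℕ) + 1) * δ
  let k : Fin (L * (2 * n - 1)) → ℕ := fun x => if w (e.symm x).1 = some (e.symm x).2 then 1 else 0
  have hdisj : ∀ x y, x ≠ y → I x = I y →
      Disjoint (Set.Ico (a x) (b x)) (Set.Ico (a y) (b y)) := by
    intro x y hxy hI
    have h1 : ((e.symm x).2 : ℕ) = (e.symm y).2 := PoiA_proc hI
    have h2 : ((e.symm x).1 : ℕ) ≠ (e.symm y).1 := by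
      intro h
      apply hxy
      apply e.symm.injective
      exact Prod.ext (Fin.ext h) (Fin.ext h1)
    have key : ∀ p q : ℕ, p < q → Disjoint (Set.Ico ((p : ℝ) * δ) ((p + 1) * δ))
        (Set.Ico ((q : ℝ) * δ) ((q + 1) * δ)) := by
      intro p q hpq
      rw [Set.Ico_disjoint_Ico]
      have hpq' : (p : ℝ) + 1 ≤ q := by exact_mod_cast hpq
      have : ((p : ℝ) + 1) * δ ≤ q * δ := mul_le_mul_of_nonneg_right hpq' hδ.le
      exact (min_le_left _ _).trans (this.trans (le_max_right _ _))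
    rcases lt_or_gt_of_ne h2 with h | h
    · exact key _ _ h
    · exact (key _ _ h).symm
  have hind := hΞ.indep (L * (2 * n - 1)) I a b hdisj
  have hset : {ω | WordOn (fun i => Ξ i ω) n δ L (extW w)} =
      ⋂ x ∈ (Finset.univ : Finset (Fin (L * (2 * n - 1)))),
        (fun ω => (Ξ (I x) ω ∩ Set.Ico (a x) (b x)).encard) ⁻¹' {(k x : ℕ∞)} := by
    ext ω
    simp only [Set.mem_ofPred_eq, Finset.mem_univ, Set.iInter_true, Set.mem_iInter,
      Set.mem_preimage, Set.mem_singleton_iff]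
    constructor
    · intro h x
      have h1 := h (e.symm x).1 (e.symm x).1.2 (e.symm x).2 (e.symm x).2.2
      have h2 := PoiA_extW w (e.symm x).1 (e.symm x).2
      show (Ξ (proc (e.symm x).2) ω ∩ Set.Ico (((e.symm x).1 : ℕ) * δ)
        ((((e.symm x).1 : ℕ) + 1) * δ)).encard =
          (((if w (e.symm x).1 = some (e.symm x).2 then 1 else 0 : ℕ)) : ℕ∞)
      refine h1.trans ?_
      by_cases h3 : w (e.symm x).1 = some (e.symm x).2
      · rw [if_pos h3, if_pos (h2.2 h3)]; rfl
      · rw [if_neg h3, if_neg (fun h4 => h3 (h2.1 h4))]; rfl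
    · intro h i hi j hj
      have h1 := h (e (⟨i, hi⟩, ⟨j, hj⟩))
      have e1 : e.symm (e (⟨i, hi⟩, ⟨j, hj⟩)) = (⟨i, hi⟩, ⟨j, hj⟩) := e.symm_apply_apply _
      simp only [I, a, b, k, e1] at h1
      have h2 := PoiA_extW w ⟨i, hi⟩ ⟨j, hj⟩
      simp only at h2
      rw [h1]
      by_cases h3 : w ⟨i, hi⟩ = some ⟨j, hj⟩
      · rw [if_pos h3, if_pos (h2.2 h3)]; rfl
      · rw [if_neg h3, if_neg (fun h4 => h3 (h2.1 h4))]; rfl
  have hp : ∀ x : Fin (L * (2 * n - 1)),
      Pm ((fun ω => (Ξ (I x) ω ∩ Set.Ico (a x) (b x)).encard) ⁻¹' {(k x : ℕ∞)}) =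
        ENNReal.ofReal (Real.exp (-δ) * if w (e.symm x).1 = some (e.symm x).2 then δ else 1) := by
    intro x
    have h1 := hΞ.law (I x) (a x) (b x) (by
      show ((e.symm x).1 : ℕ) * δ ≤ (((e.symm x).1 : ℕ) + 1) * δ
      nlinarith) (k x)
    have h2 : b x - a x = δ := by
      show ((((e.symm x).1 : ℕ) : ℝ) + 1) * δ - ((e.symm x).1 : ℕ) * δ = δ
      ring
    rw [h2] at h1
    have h3 : Pm ((fun ω => (Ξ (I x) ω ∩ Set.Ico (a x) (b x)).encard) ⁻¹' {(k x : ℕ∞)}) =
        Pm {ω | (Ξ (I x) ω ∩ Set.Ico (a x) (b x)).encard = k x} := rfl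
    rw [h3, h1]
    congr 1
    show Real.exp (-δ) * δ ^ (if w (e.symm x).1 = some (e.symm x).2 then 1 else 0 : ℕ) /
      ((if w (e.symm x).1 = some (e.symm x).2 then 1 else 0 : ℕ).factorial : ℝ) = _
    split_ifs <;> simp
  have hnn : ∀ x : Fin (L * (2 * n - 1)),
      0 ≤ Real.exp (-δ) * (if w (e.symm x).1 = some (e.symm x).2 then δ else 1) := by
    intro x
    refine mul_nonneg (Real.exp_pos _).le ?_
    split_ifs
    · exact hδ.le
    · exact zero_le_one
  rw [measureReal_def, hset, hind.measure_inter_preimage_eq_mul Finset.univ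
    (fun _ _ => measurableSet_singleton _), Finset.prod_congr rfl (fun x _ => hp x),
    ← ENNReal.ofReal_prod_of_nonneg (fun x _ => hnn x),
    ENNReal.toReal_ofReal (Finset.prod_nonneg (fun x _ => hnn x))]
  rw [← Equiv.prod_comp e]
  simp only [Equiv.symm_apply_apply]
  rw [Fintype.prod_prod_type]
  exact Finset.prod_congr rfl (fun i _ => PoiA_letter n δ (w i))

/-- Different words exclude each other. -/
theorem wordOn_unique {Ξ : Bool × ℤ → Set ℝ} {n : ℕ} {δ : ℝ} {L : ℕ}
    {w w' : Fin L → Option (Fin (2 * n - 1))} (h : WordOn Ξ n δ L (extW w))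
    (h' : WordOn Ξ n δ L (extW w')) : w = w' := by
  funext i
  have key : ∀ j : Fin (2 * n - 1), w i = some j ↔ w' i = some j := by
    intro j
    have h1 := h i i.2 j j.2
    have h2 := h' i i.2 j j.2
    rw [h1] at h2
    rw [← PoiA_extW w, ← PoiA_extW w']
    constructor
    · intro h3
      rw [if_pos h3] at h2
      by_contra h4
      rw [if_neg h4] at h2
      exact one_ne_zero h2
    · intro h3
      rw [if_pos h3] at h2
      by_contra h4
      rw [if_neg h4] at h2
      exact zero_ne_one h2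
  exact Option.ext (fun j => by simpa [Option.mem_def] using key j)

end Pool.Agent.H29.STP
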