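import Pool.Agent.H29.STP.JLem

/-!
# Positive operators
-/

namespace Pool.Agent.H29.STP

/-- The operator `A` is positive. -/
def Pos (A : Op) : Prop := ∀ f : St → ℝ, (∀ s, 0 ≤ f s) → ∀ s, 0 ≤ A f s

theorem Pos.one : Pos 1 := fun _ h s => h s

theorem Pos.mul {A B : Op} (hA : Pos A) (hB : Pos B) : Pos (A * B) :=
  fun f h => hA _ (hB f h)

theorem Pos.pow {A : Op} (hA : Pos A) (n : ℕ) : Pos (A ^ n) := by
  induction n with
  | zero => exact Pos.one
  | succ n ih => rw [pow_succ]; exact ih.mul hA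

theorem Pos.E (j : ℕ) : Pos (E j) := fun _ h s => h (ev j s)

theorem Pos.F (j : ℕ) : Pos (F j) := by
  intro f h s
  rw [F_apply]
  have h1 := h s
  have h2 := h (ev j s)
  linarith

theorem Pos.up (m : ℕ) : Pos (up m) := by
  induction m with
  | zero => exact Pos.one
  | succ m ih => exact Pos.mul ih (Pos.F m)

theorem Pos.dn (m : ℕ) : Pos (dn m) := by
  induction m with
  | zero => exact Pos.one
  | succ m ih => exact Pos.mul (Pos.F m) ih

theorem Pos.R1 (n : ℕ) : Pos (R1 n) :=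
  (Pos.E _).mul ((Pos.E _).mul (Pos.dn _))

theorem Pos.R2 (n : ℕ) : Pos (R2 n) :=
  (Pos.up _).mul (Pos.E _)

theorem Pos.DD (n : ℕ) : Pos (DD n) := (Pos.R1 n).mul (Pos.R2 n)

theorem Pos_H0_apply (n : ℕ) (f : St → ℝ) (s : St) :
    H0 n f s = ∑ j ∈ Finset.range (2 * n - 1), (f s - f (ev j s)) := by
  unfold H0
  rw [LinearMap.sum_apply, Finset.sum_apply]
  rfl

theorem Pos.P {n : ℕ} {δ : ℝ} (h0 : 0 ≤ δ) (h1 : δ * ((2 * n - 1 : ℕ) : ℝ) ≤ 1) :
    Pos (P n δ) := by
  intro f hf s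
  have e1 : STP.P n δ f s = f s - δ * H0 n f s := by
    unfold STP.P
    rfl
  rw [e1, Pos_H0_apply, Finset.sum_sub_distrib, Finset.sum_const, Finset.card_range, nsmul_eq_mul]
  have h2 : 0 ≤ ∑ j ∈ Finset.range (2 * n - 1), f (ev j s) :=
    Finset.sum_nonneg (fun j _ => hf _)
  have h3 := mul_nonneg h0 h2
  have h4 := mul_nonneg (sub_nonneg.2 h1) (hf s)
  linarith

theorem Pos.mono {A : Op} (hA : Pos A) {f g : St → ℝ} (h : ∀ s, f s ≤ g s) (s : St) :
    A f s ≤ A g s := by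
  have := hA (g - f) (fun s => sub_nonneg.2 (h s)) s
  rw [map_sub] at this
  exact sub_nonneg.1 this

/-- Constants are preserved. -/
theorem E_one (j : ℕ) : E j (fun _ => (1 : ℝ)) = fun _ => 1 := rfl

theorem F_one (j : ℕ) : F j (fun _ => (1 : ℝ)) = fun _ => 1 := by
  funext s
  rw [F_apply]
  norm_num

theorem Pos_dn_one (m : ℕ) : dn m (fun _ => (1 : ℝ)) = fun _ => 1 := by
  induction m with
  | zero => rfl
  | succ m ih =>
    show F m (dn m (fun _ => (1 : ℝ))) = _
    rw [ih, F_one]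

theorem Pos_up_one (m : ℕ) : up m (fun _ => (1 : ℝ)) = fun _ => 1 := by
  induction m with
  | zero => rfl
  | succ m ih =>
    show up m (F m (fun _ => (1 : ℝ))) = _
    rw [F_one, ih]

theorem R1_one (n : ℕ) : R1 n (fun _ => (1 : ℝ)) = fun _ => 1 := by
  show E (2 * n + 1) (E (2 * n) (dn (2 * n) (fun _ => (1 : ℝ)))) = _
  rw [Pos_dn_one]
  rfl

theorem R2_one (n : ℕ) : R2 n (fun _ => (1 : ℝ)) = fun _ => 1 := by
  show up (2 * n) (E (2 * n) (fun _ => (1 : ℝ))) = _
  rw [E_one, Pos_up_one]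

theorem H0_one (n : ℕ) : H0 n (fun _ => (1 : ℝ)) = 0 := by
  funext s
  rw [Pos_H0_apply]
  simp

theorem al_nonneg (m : ℕ) (s : St) : 0 ≤ al m s := by
  unfold al
  split_ifs <;> norm_num

theorem al_le_one (m : ℕ) (s : St) : al m s ≤ 1 := by
  unfold al
  split_ifs <;> norm_num

/-- The generators can only kill. -/
theorem al_ev {m j : ℕ} (hj : j < 2 * m - 1) (s : St) : al m (ev j s) ≤ al m s := by
  by_cases h : J m s = 0
  · have h2 := J_ev_zero hj h
    unfold al
    rw [if_pos h, if_pos h2]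
  · have h3 : al m s = 1 := by
      unfold al
      rw [if_neg h]
    rw [h3]
    exact al_le_one m _

theorem H0_al_nonneg (n : ℕ) (s : St) : 0 ≤ H0 n (al n) s := by
  rw [Pos_H0_apply]
  apply Finset.sum_nonneg
  intro j hj
  rw [Finset.mem_range] at hj
  exact sub_nonneg.2 (al_ev hj s)

/-- Functions that vanish on the states with a crossing. -/
theorem Pos_F_zero {m j : ℕ} (hj : j < 2 * m - 1) {g : St → ℝ}
    (hg : ∀ s, J m s = 0 → g s = 0) : ∀ s, J m s = 0 → F j g s = 0 := by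
  intro s hs
  rw [F_apply, hg s hs, hg _ (J_ev_zero hj hs)]
  norm_num

theorem Pos_dn_zero {m k : ℕ} (hk : k ≤ 2 * m - 1) {g : St → ℝ}
    (hg : ∀ s, J m s = 0 → g s = 0) : ∀ s, J m s = 0 → dn k g s = 0 := by
  induction k with
  | zero => exact hg
  | succ k ih => exact Pos_F_zero (m := m) (j := k) (by omega) (ih (by omega))

theorem Pos_up_zero {m k : ℕ} (hk : k ≤ 2 * m - 1) {g : St → ℝ}
    (hg : ∀ s, J m s = 0 → g s = 0) : ∀ s, J m s = 0 → up k g s = 0 := by
  induction k generalizing g with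
  | zero => exact hg
  | succ k ih => exact ih (by omega) (Pos_F_zero (m := m) (j := k) (by omega) hg)

theorem Pos_al_zero {m : ℕ} {s : St} (h : J m s = 0) : al m s = 0 := by
  unfold al
  rw [if_pos h]

theorem Pos_al_one {m : ℕ} {s : St} (h : J m s ≠ 0) : al m s = 1 := by
  unfold al
  rw [if_neg h]

theorem R1_al_le {n : ℕ} (hn : 1 ≤ n) (s : St) : R1 n (al (n + 1)) s ≤ al n s := by
  by_cases h : J n s = 0
  · rw [Pos_al_zero h]
    apply le_of_eq
    show dn (2 * n) (al (n + 1)) (ev (2 * n) (ev (2 * n + 1) s)) = 0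
    apply Pos_dn_zero (m := n + 1) (by omega) (fun s hs => Pos_al_zero hs)
    rw [ev_even, ev_odd, J_eq_zero_iff (by omega)]
    rw [J_eq_zero_iff hn] at h
    refine Or.inr (Or.inl ⟨Or.inr ⟨by omega, by omega, h⟩, Or.inl rfl⟩)
  · rw [Pos_al_one h]
    have h1 := (Pos.R1 n).mono (f := al (n + 1)) (g := fun _ => (1 : ℝ))
      (fun s => al_le_one (n + 1) s) s
    rw [R1_one] at h1
    exact h1

theorem R2_al_le {n : ℕ} (hn : 1 ≤ n) (s : St) : R2 n (al n) s ≤ al (n + 1) s := by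
  by_cases h : J (n + 1) s = 0
  · rw [Pos_al_zero h]
    apply le_of_eq
    show up (2 * n) (E (2 * n) (al n)) s = 0
    apply Pos_up_zero (m := n + 1) (by omega) _ s h
    intro s' hs'
    rw [E_apply, ev_even]
    apply Pos_al_zero
    rw [J_eq_zero_iff hn]
    rw [J_eq_zero_iff (by omega)] at hs'
    exact Or.inr (Or.inr ⟨hs', s'.rfl' n⟩)
  · rw [Pos_al_one h]
    have h1 := (Pos.R2 n).mono (f := al n) (g := fun _ => (1 : ℝ))
      (fun s => al_le_one n s) s
    rw [R2_one] at h1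
    exact h1

theorem DD_al_le {n : ℕ} (hn : 1 ≤ n) (s : St) : DD n (al n) s ≤ al n s :=
  ((Pos.R1 n).mono (R2_al_le hn) s).trans (R1_al_le hn s)

end Pool.Agent.H29.STP
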