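import Pool.Agent.H29.STP.PoiA
import Pool.Agent.H29.STP.Pos

/-!
# Summing over all words
-/

open MeasureTheory ProbabilityTheory

namespace Pool.Agent.H29.STP

/-- One letter. -/
def PoiB_step (u : Option ℕ) (s : St) : St :=
  match u with
  | none => s
  | some j => ev j s

theorem PoiB_runW_succ (w : ℕ → Option ℕ) (L : ℕ) :
    runW w (L + 1) = PoiB_step (w L) (runW w L) := by
  show (match w L with
    | none => runW w L
    | some j => ev j (runW w L)) = _
  cases w L <;> rfl

theorem PoiB_runW_congr {w w' : ℕ → Option ℕ} (L : ℕ) (h : ∀ i < L, w i = w' i) :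
    runW w L = runW w' L := by
  induction L with
  | zero => rfl
  | succ L ih =>
    rw [PoiB_runW_succ, PoiB_runW_succ, ih (fun i hi => h i (by omega)), h L (by omega)]

theorem PoiB_op (n : ℕ) (δ : ℝ) (f : St → ℝ) (s : St) :
    (Real.exp (-((2 * n - 1 : ℕ) : ℝ) * δ) •
      ((1 : Op) + δ • ∑ j ∈ Finset.range (2 * n - 1), E j)) f s =
    ∑ u : Option (Fin (2 * n - 1)), wt n δ (u.map Fin.val) * f (PoiB_step (u.map Fin.val) s) := by
  rw [Fintype.sum_option, LinearMap.smul_apply, LinearMap.add_apply, LinearMap.smul_apply,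
    LinearMap.sum_apply, Pi.smul_apply, Pi.add_apply, Pi.smul_apply, Finset.sum_apply,
    Finset.sum_range]
  show Real.exp (-((2 * n - 1 : ℕ) : ℝ) * δ) * (f s + δ * ∑ i : Fin (2 * n - 1), f (ev i s)) =
    Real.exp (-((2 * n - 1 : ℕ) : ℝ) * δ) * f s +
      ∑ i : Fin (2 * n - 1), (δ * Real.exp (-((2 * n - 1 : ℕ) : ℝ) * δ)) * f (ev i s)
  rw [← Finset.mul_sum]
  ring

/-- Summing over all words gives the powers of the one-step operator. -/
theorem sum_words (n : ℕ) (δ : ℝ) (L : ℕ) (f : St → ℝ) :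
    ∑ w : Fin L → Option (Fin (2 * n - 1)),
      (∏ i : Fin L, wt n δ ((w i).map Fin.val)) * f (runW (extW w) L) =
    ((Real.exp (-((2 * n - 1 : ℕ) : ℝ) * δ) •
      ((1 : Op) + δ • ∑ j ∈ Finset.range (2 * n - 1), E j)) ^ L) f bot := by
  induction L generalizing f with
  | zero =>
    rw [pow_zero, Fintype.sum_unique, Finset.univ_eq_empty, Finset.prod_empty, one_mul]
    rfl
  | succ L ih =>
    rw [pow_succ]
    show _ = ((Real.exp (-((2 * n - 1 : ℕ) : ℝ) * δ) •
      ((1 : Op) + δ • ∑ j ∈ Finset.range (2 * n - 1), E j)) ^ L)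
      ((Real.exp (-((2 * n - 1 : ℕ) : ℝ) * δ) •
      ((1 : Op) + δ • ∑ j ∈ Finset.range (2 * n - 1), E j)) f) bot
    rw [← ih, ← Equiv.sum_comp (Fin.snocEquiv (fun _ : Fin (L + 1) => Option (Fin (2 * n - 1)))),
      Fintype.sum_prod_type, Finset.sum_comm]
    refine Finset.sum_congr rfl (fun w _ => ?_)
    rw [PoiB_op, Finset.mul_sum]
    refine Finset.sum_congr rfl (fun u _ => ?_)
    have e1 : ∀ i : Fin L, (Fin.snocEquiv (fun _ : Fin (L + 1) => Option (Fin (2 * n - 1))))
        (u, w) i.castSucc = w i := fun i => by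
      simp [Fin.snocEquiv]
    have e2 : (Fin.snocEquiv (fun _ : Fin (L + 1) => Option (Fin (2 * n - 1))))
        (u, w) (Fin.last L) = u := by
      simp [Fin.snocEquiv]
    rw [Fin.prod_univ_castSucc, e2, PoiB_runW_succ]
    have e3 : ∏ i : Fin L, wt n δ (((Fin.snocEquiv
        (fun _ : Fin (L + 1) => Option (Fin (2 * n - 1)))) (u, w) i.castSucc).map Fin.val) =
        ∏ i : Fin L, wt n δ ((w i).map Fin.val) :=
      Finset.prod_congr rfl (fun i _ => by rw [e1])
    have e4 : extW ((Fin.snocEquiv (fun _ : Fin (L + 1) => Option (Fin (2 * n - 1)))) (u, w)) L =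
        u.map Fin.val := by
      unfold extW
      rw [dif_pos (Nat.lt_succ_self L)]
      exact congrArg (Option.map Fin.val) e2
    have e5 : runW (extW ((Fin.snocEquiv
        (fun _ : Fin (L + 1) => Option (Fin (2 * n - 1)))) (u, w))) L = runW (extW w) L := by
      refine PoiB_runW_congr L (fun i hi => ?_)
      unfold extW
      rw [dif_pos (show i < L + 1 by omega), dif_pos hi]
      exact congrArg (Option.map Fin.val) (e1 ⟨i, hi⟩)
    rw [e3, e4, e5]
    ring

theorem step_eq (n : ℕ) {δ : ℝ} (hδ : 0 < δ) :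
    (Real.exp (-((2 * n - 1 : ℕ) : ℝ) * δ) •
      ((1 : Op) + δ • ∑ j ∈ Finset.range (2 * n - 1), E j)) =
    (Real.exp (-((2 * n - 1 : ℕ) : ℝ) * δ) * (1 + ((2 * n - 1 : ℕ) : ℝ) * δ)) •
      P n (δ / (1 + ((2 * n - 1 : ℕ) : ℝ) * δ)) := by
  have h0 : (0 : ℝ) < 1 + ((2 * n - 1 : ℕ) : ℝ) * δ := by positivity
  rw [mul_smul]
  congr 1
  apply LinearMap.ext
  intro f
  funext s
  unfold P H0
  rw [LinearMap.smul_apply, LinearMap.sub_apply, LinearMap.smul_apply, LinearMap.add_apply,
    LinearMap.smul_apply, LinearMap.sum_apply, LinearMap.sum_apply]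
  simp only [Pi.smul_apply, Pi.add_apply, Pi.sub_apply, Finset.sum_apply, smul_eq_mul,
    Module.End.one_apply, LinearMap.sub_apply, E_apply]
  rw [Finset.sum_sub_distrib, Finset.sum_const, Finset.card_range, nsmul_eq_mul]
  field_simp
  ring

end Pool.Agent.H29.STP
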