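import Pool.Agent.H29.STP.JLem
import Pool.Agent.H29.STP.Model

/-!
# From words of generators to open paths
-/

namespace Pool.Agent.H29.STP

/-- The process which corresponds to the generator `j`. -/
def proc (j : ℕ) : Bool × ℤ := if j % 2 = 0 then (true, (j / 2 : ℕ)) else (false, ((j + 1) / 2 : ℕ))

/-- The state after the letters `w 0, ..., w (L - 1)`. -/
def runW (w : ℕ → Option ℕ) : ℕ → St
  | 0 => bot
  | L + 1 => match w L with
    | none => runW w L
    | some j => ev j (runW w L)

/-- The cell `i` of length `δ` contains exactly one point of the process `proc j` if `w i = some j`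
and no point of the other processes. -/
def WordOn (Ξ : Bool × ℤ → Set ℝ) (n : ℕ) (δ : ℝ) (L : ℕ) (w : ℕ → Option ℕ) : Prop :=
  ∀ i < L, ∀ j < 2 * n - 1,
    (Ξ (proc j) ∩ Set.Ico (i * δ) ((i + 1) * δ)).encard = if w i = some j then 1 else 0

/-- One step of a path, where all points of the left side and all points of the right side are
joined to each other. -/
def PoiPath_G (Cu Br : ℤ → Set ℝ) (n : ℕ) (p q : ℤ × ℝ) : Prop :=
  PStep Cu Br (Box n) p q ∨ (p ∈ Box n ∧ q ∈ Box n ∧ p.1 = 0 ∧ q.1 = 0) ∨
    (p ∈ Box n ∧ q ∈ Box n ∧ p.1 = n ∧ q.1 = n)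

theorem PoiPath_step_symm {Cu Br : ℤ → Set ℝ} {S : Set (ℤ × ℝ)} {p q : ℤ × ℝ}
    (h : PStep Cu Br S p q) : PStep Cu Br S q p := by
  obtain ⟨h1, h2, h3⟩ := h
  refine ⟨h2, h1, ?_⟩
  rcases h3 with ⟨h3, h4⟩ | ⟨h3, h4⟩
  · refine Or.inl ⟨h3.symm, fun u hu => ?_⟩
    rw [← h3]
    exact h4 u (by rw [Set.uIcc_comm]; exact hu)
  · refine Or.inr ⟨h3.symm, ?_⟩
    rcases h4 with ⟨h4, h5⟩ | ⟨h4, h5⟩
    · exact Or.inr ⟨h4, by rw [← h3]; exact h5⟩
    · exact Or.inl ⟨h4, by rw [← h3]; exact h5⟩

theorem PoiPath_G_symm {Cu Br : ℤ → Set ℝ} {n : ℕ} {p q : ℤ × ℝ}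
    (h : PoiPath_G Cu Br n p q) : PoiPath_G Cu Br n q p := by
  rcases h with h | ⟨h1, h2, h3, h4⟩ | ⟨h1, h2, h3, h4⟩
  · exact Or.inl (PoiPath_step_symm h)
  · exact Or.inr (Or.inl ⟨h2, h1, h4, h3⟩)
  · exact Or.inr (Or.inr ⟨h2, h1, h4, h3⟩)

/-- Connection in the extended sense. -/
def PoiPath_C (Cu Br : ℤ → Set ℝ) (n : ℕ) : ℤ × ℝ → ℤ × ℝ → Prop :=
  Relation.ReflTransGen (PoiPath_G Cu Br n)

theorem PoiPath_C_symm {Cu Br : ℤ → Set ℝ} {n : ℕ} {p q : ℤ × ℝ}
    (h : PoiPath_C Cu Br n p q) : PoiPath_C Cu Br n q p := by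
  induction h with
  | refl => exact Relation.ReflTransGen.refl
  | tail _ h2 ih => exact Relation.ReflTransGen.head (PoiPath_G_symm h2) ih

theorem PoiPath_cross {Cu Br : ℤ → Set ℝ} {n : ℕ} {p q : ℤ × ℝ} (hp : p ∈ Box n) (hp0 : p.1 = 0)
    (hq : q ∈ Box n) (hqn : q.1 = n) (h : PoiPath_C Cu Br n p q) : Cross Cu Br n := by
  have key : ∀ q', PoiPath_C Cu Br n p q' → Cross Cu Br n ∨ ∃ p', p' ∈ Box n ∧ p'.1 = 0 ∧
      Relation.ReflTransGen (PStep Cu Br (Box n)) p' q' := by
    intro q' h'
    induction h' with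
    | refl => exact Or.inr ⟨p, hp, hp0, Relation.ReflTransGen.refl⟩
    | tail _ h2 ih =>
      rcases ih with ih | ⟨p', h3, h4, h5⟩
      · exact Or.inl ih
      · rcases h2 with h2 | ⟨h6, h7, h8, h9⟩ | ⟨h6, h7, h8, h9⟩
        · exact Or.inr ⟨p', h3, h4, h5.tail h2⟩
        · exact Or.inr ⟨_, h7, h9, Relation.ReflTransGen.refl⟩
        · exact Or.inl ⟨p', _, h3, h6, h4, h8, h5⟩
  rcases key q h with h1 | ⟨p', h3, h4, h5⟩
  · exact h1
  · exact ⟨p', q, h3, hq, h4, hqn, h5⟩

/-- The columns are joined to themselves at a later time. -/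
theorem PoiPath_up {Cu Br : ℤ → Set ℝ} {n : ℕ} {u v : ℝ} (hu : 0 ≤ u) (huv : u ≤ v) (hv : v ≤ n)
    {x : ℕ} (hx : x ≤ n) (hc : 1 ≤ x → x < n → ∀ t, u ≤ t → t ≤ v → t ∉ Cu x) :
    PoiPath_C Cu Br n ((x : ℤ), u) ((x : ℤ), v) := by
  have hb1 : ((x : ℤ), u) ∈ Box n := ⟨by simp, by simpa using hx, hu, huv.trans hv⟩
  have hb2 : ((x : ℤ), v) ∈ Box n := ⟨by simp, by simpa using hx, hu.trans huv, hv⟩
  apply Relation.ReflTransGen.single
  rcases Nat.eq_zero_or_pos x with h0 | h0
  · exact Or.inr (Or.inl ⟨hb1, hb2, by simp [h0], by simp [h0]⟩)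
  · rcases Nat.lt_or_ge x n with h1 | h1
    · refine Or.inl ⟨hb1, hb2, Or.inl ⟨rfl, fun t ht => ?_⟩⟩
      rw [Set.uIcc_of_le huv] at ht
      exact hc h0 h1 t ht.1 ht.2
    · have hxn : x = n := le_antisymm hx h1
      exact Or.inr (Or.inr ⟨hb1, hb2, by simp [hxn], by simp [hxn]⟩)

theorem cross_of_word {Ξ : Bool × ℤ → Set ℝ} {n : ℕ} (hn : 1 ≤ n) {δ : ℝ} (hδ : 0 < δ) {L : ℕ}
    (hL : L * δ ≤ n) {w : ℕ → Option ℕ} (hw : ∀ i < L, ∀ j, w i = some j → j < 2 * n - 1)
    (h : WordOn Ξ n δ L w) (hd : J n (runW w L) = 0) :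
    Cross (fun z => Ξ (false, z)) (fun z => Ξ (true, z)) n := by
  set Cu : ℤ → Set ℝ := fun z => Ξ (false, z) with hCu
  set Br : ℤ → Set ℝ := fun z => Ξ (true, z) with hBr
  have inv : ∀ i ≤ L, ∃ u : ℝ, 0 ≤ u ∧ u ≤ i * δ ∧
      (∀ x : ℕ, 1 ≤ x → x < n → ∀ t, u ≤ t → t < i * δ → t ∉ Cu x) ∧
      (∀ x y : ℕ, x ≤ n → y ≤ n → (runW w i).r x y →
        PoiPath_C Cu Br n ((x : ℤ), u) ((y : ℤ), u)) := by
    intro i
    induction i with
    | zero =>
      intro _
      refine ⟨0, le_rfl, by simp, ?_, ?_⟩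
      · intro x _ _ t h1 h2
        simp at h2
        linarith
      · intro x y _ _ hxy
        have hxy' : x = y := hxy
        rw [hxy']
        exact Relation.ReflTransGen.refl
    | succ i ih =>
      intro hi
      obtain ⟨u, hu0, hu1, hu2, hu3⟩ := ih (by omega)
      have hiL : i < L := by omega
      have hcast : ((i + 1 : ℕ) : ℝ) * δ = ((i : ℝ) + 1) * δ := by push_cast; ring
      have hle : ((i : ℝ) + 1) * δ ≤ n := by
        refine le_trans ?_ hL
        apply mul_le_mul_of_nonneg_right _ hδ.le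
        exact_mod_cast hi
      have hlt : (i : ℝ) * δ < ((i : ℝ) + 1) * δ := by nlinarith
      have hW := h i hiL
      -- the cells of the cuts
      have hcutproc : ∀ x : ℕ, 1 ≤ x → x < n → proc (2 * x - 1) = (false, (x : ℤ)) := by
        intro x h1 h2
        unfold proc
        rw [if_neg (by omega)]
        have : (2 * x - 1 + 1) / 2 = x := by omega
        rw [this]
      have hnocut : ∀ x : ℕ, 1 ≤ x → x < n → w i ≠ some (2 * x - 1) →
          ∀ t, u ≤ t → t < ((i : ℝ) + 1) * δ → t ∉ Cu x := by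
        intro x h1 h2 h3 t h4 h5 h6
        rcases lt_or_ge t (i * δ) with h7 | h7
        · exact hu2 x h1 h2 t h4 h7 h6
        · have h8 := hW (2 * x - 1) (by omega)
          rw [if_neg h3, hcutproc x h1 h2, Set.encard_eq_zero] at h8
          exact Set.eq_empty_iff_forall_notMem.1 h8 t ⟨h6, h7, h5⟩
      rw [hcast]
      cases hwi : w i with
      | none =>
        refine ⟨u, hu0, hu1.trans hlt.le, ?_, ?_⟩
        · intro x h1 h2
          exact hnocut x h1 h2 (by rw [hwi]; simp)
        · intro x y hx hy hxy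
          have hrun : runW w (i + 1) = runW w i := by
            simp only [runW, hwi]
          rw [hrun] at hxy
          exact hu3 x y hx hy hxy
      | some j =>
        have hj := hw i hiL j hwi
        have hpt := hW j hj
        rw [hwi, if_pos rfl, Set.encard_eq_one] at hpt
        obtain ⟨p, hp⟩ := hpt
        have hpm : p ∈ Ξ (proc j) ∩ Set.Ico (i * δ) (((i : ℝ) + 1) * δ) := by
          rw [hp]; exact Set.mem_singleton p
        obtain ⟨hp1, hp2, hp3⟩ := hpm
        have hrun : runW w (i + 1) = ev j (runW w i) := by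
          simp only [runW, hwi]
        rw [hrun]
        rcases Nat.even_or_odd' j with ⟨k, rfl | rfl⟩
        · -- a bridge
          have hprock : proc (2 * k) = (true, (k : ℤ)) := by
            unfold proc
            rw [if_pos (by omega)]
            have : 2 * k / 2 = k := by omega
            rw [this]
          rw [hprock] at hp1
          have hup : ∀ x : ℕ, x ≤ n → PoiPath_C Cu Br n ((x : ℤ), u) ((x : ℤ), p) := by
            intro x hx
            apply PoiPath_up hu0 (hu1.trans hp2) (hp3.le.trans hle) hx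
            intro h1 h2 t h3 h4
            apply hnocut x h1 h2 _ t h3 (lt_of_le_of_lt h4 hp3)
            rw [hwi]
            intro h5
            have := Option.some.inj h5
            omega
          refine ⟨p, hu0.trans (hu1.trans hp2), hp3.le, ?_, ?_⟩
          · intro x h1 h2 t h3 h4
            apply hnocut x h1 h2 _ t ((hu1.trans hp2).trans h3) h4
            rw [hwi]
            intro h5
            have := Option.some.inj h5
            omega
          · have hbase : ∀ x y : ℕ, x ≤ n → y ≤ n → (runW w i).r x y →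
                PoiPath_C Cu Br n ((x : ℤ), p) ((y : ℤ), p) := by
              intro x y hx hy hxy
              exact ((PoiPath_C_symm (hup x hx)).trans (hu3 x y hx hy hxy)).trans (hup y hy)
            have hk : k + 1 ≤ n := by omega
            have hbr : PoiPath_C Cu Br n ((k : ℤ), p) (((k + 1 : ℕ) : ℤ), p) := by
              apply Relation.ReflTransGen.single
              have hp0 : 0 ≤ p := hu0.trans (hu1.trans hp2)
              have hpn : p ≤ n := hp3.le.trans hle
              refine Or.inl ⟨⟨by simp, ?_, hp0, hpn⟩, ⟨by simp; omega, ?_, hp0, hpn⟩,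
                Or.inr ⟨rfl, Or.inl ⟨by push_cast; rfl, hp1⟩⟩⟩
              · change ((k : ℕ) : ℤ) ≤ (n : ℤ)
                exact_mod_cast (by omega : k ≤ n)
              · change (((k + 1 : ℕ)) : ℤ) ≤ (n : ℤ)
                exact_mod_cast hk
            intro x y hx hy hxy
            rw [ev_even] at hxy
            rcases hxy with hxy | ⟨h1, h2⟩ | ⟨h1, h2⟩
            · exact hbase x y hx hy hxy
            · exact ((hbase x k hx (by omega) h1).trans hbr).trans (hbase (k + 1) y hk hy h2)
            · exact ((hbase x (k + 1) hx hk h1).trans (PoiPath_C_symm hbr)).trans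
                (hbase k y (by omega) hy h2)
        · -- a cut
          have hprock : proc (2 * k + 1) = (false, ((k + 1 : ℕ) : ℤ)) := by
            unfold proc
            rw [if_neg (by omega)]
            have : (2 * k + 1 + 1) / 2 = k + 1 := by omega
            rw [this]
          set v : ℝ := (p + ((i : ℝ) + 1) * δ) / 2 with hv
          have hpv : p < v := by rw [hv]; linarith
          have hv1 : v < ((i : ℝ) + 1) * δ := by rw [hv]; linarith
          have huv : u ≤ v := (hu1.trans hp2).trans hpv.le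
          refine ⟨v, hu0.trans huv, hv1.le, ?_, ?_⟩
          · intro x h1 h2 t h3 h4 h5
            by_cases hxk : x = k + 1
            · have h6 : t ∈ Ξ (proc (2 * k + 1)) ∩ Set.Ico (i * δ) (((i : ℝ) + 1) * δ) := by
                rw [hprock, ← hxk]
                exact ⟨h5, hp2.trans (hpv.le.trans h3), h4⟩
              rw [hp, Set.mem_singleton_iff] at h6
              linarith
            · exact hnocut x h1 h2 (by
                rw [hwi]
                intro h6
                have := Option.some.inj h6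
                omega) t (huv.trans h3) h4 h5
          · intro x y hx hy hxy
            rw [ev_odd] at hxy
            rcases hxy with rfl | ⟨h1, h2, h3⟩
            · exact Relation.ReflTransGen.refl
            · have hup : ∀ x : ℕ, x ≤ n → x ≠ k + 1 →
                  PoiPath_C Cu Br n ((x : ℤ), u) ((x : ℤ), v) := by
                intro x hx hxk
                apply PoiPath_up hu0 huv (hv1.le.trans hle) hx
                intro h1 h2 t h3 h4
                apply hnocut x h1 h2 _ t h3 (lt_of_le_of_lt h4 hv1)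
                rw [hwi]
                intro h5
                have := Option.some.inj h5
                omega
              exact ((PoiPath_C_symm (hup x hx h1)).trans (hu3 x y hx hy h3)).trans (hup y hy h2)
  obtain ⟨u, hu0, hu1, -, hu3⟩ := inv L le_rfl
  have h0n := (J_eq_zero_iff hn).1 hd
  have hC := hu3 0 n (by omega) le_rfl h0n
  have hun : u ≤ n := hu1.trans hL
  exact PoiPath_cross (p := ((0 : ℕ), u)) (q := ((n : ℤ), u))
    ⟨by simp, by simp, hu0, hun⟩ (by simp) ⟨by simp, by simp, hu0, hun⟩ rfl hC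

end Pool.Agent.H29.STP
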