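import Pool.Agent.H29.STP.RotDef

/-!
# Duality in the rotated rectangle
-/

open MeasureTheory ProbabilityTheory unitInterval

namespace Pool.Agent.H29.STP

open Pool.Agent.H89.Perc

/-- A path from the level `≤ a` to the level `≥ b` contains a path between these levels. -/
theorem RotDual_cut {ω : Config} {S : Set Vert} {u v : Vert} {a b : ℤ} (f : Vert → ℤ)
    (hf : ∀ x y, Step ω S x y → f y ≤ f x + 1 ∧ f x ≤ f y + 1) (h : Conn ω S u v)
    (hu : f u ≤ a) (hv : b ≤ f v) (hab : a ≤ b) :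
    ∃ u' v' : Vert, f u' = a ∧ f v' = b ∧ Conn ω (S ∩ {w | a ≤ f w ∧ f w ≤ b}) u' v' := by
  have h1 : ∃ v' : Vert, f v' = b ∧ Conn ω (S ∩ {w | f w ≤ b}) u v' := by
    by_cases hub : f u = b
    · exact ⟨u, hub, Conn.refl ⟨h.mem_left, hub.le⟩⟩
    have hub' : ¬ b ≤ f u := by omega
    obtain ⟨w, w', h1, h2, h3, _⟩ := h.exists_hit (T := {w | b ≤ f w}) hub' hv
    have h5 := h1.mem_right.2
    simp only [Set.mem_ofPred_eq, not_le] at h3 h5
    have h6 := hf _ _ h2
    have h7 : f w' = b := by omega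
    refine ⟨w', h7, ?_⟩
    have h8 : Conn ω (S ∩ {w | f w ≤ b}) u w :=
      h1.mono_set fun x hx => ⟨hx.1, by
        have := hx.2
        simp only [Set.mem_ofPred_eq, not_le] at this ⊢
        omega⟩
    exact h8.tail ⟨h8.mem_right, ⟨h2.2.1, h7.le⟩, h2.2.2⟩
  obtain ⟨v', hv', hc⟩ := h1
  by_cases hab' : a = b
  · subst hab'
    exact ⟨v', v', hv', hv', Conn.refl ⟨hc.mem_right.1, hv'.ge, hv'.le⟩⟩
  have hlt : ¬ f v' ≤ a := by omega
  obtain ⟨w, w', h1, _, h3, h4⟩ := hc.exists_last (T := {w | f w ≤ a}) hu hlt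
  have h5 := h4.mem_left.2
  simp only [Set.mem_ofPred_eq, not_le] at h1 h5
  have h6 := hf _ _ (⟨h3.1.1, h3.2.1.1, h3.2.2⟩ : Step ω S w w')
  have h7 : f w = a := by omega
  refine ⟨w, v', h7, hv', ?_⟩
  have h8 : Conn ω (S ∩ {w | a ≤ f w ∧ f w ≤ b}) w' v' :=
    h4.mono_set fun x hx => ⟨hx.1.1, by
      have := hx.2
      have h9 := hx.1.2
      simp only [Set.mem_ofPred_eq, not_le] at this h9 ⊢
      omega⟩
  have h9 : Step ω (S ∩ {w | a ≤ f w ∧ f w ≤ b}) w w' :=
    ⟨⟨h3.1.1, by simp only [Set.mem_ofPred_eq]; omega⟩, h8.mem_left, h3.2.2⟩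
  exact h9.conn.trans h8

/-- A path stays in a set which no step leaves. -/
theorem RotDual_stay {ω : Config} {S T : Set Vert} {u v : Vert}
    (hT : ∀ x y, Step ω S x y → x ∈ T → y ∈ T) (h : Conn ω S u v) (hu : u ∈ T) :
    Conn ω (S ∩ T) u v := by
  refine h.induction_right (P := fun x => Conn ω (S ∩ T) u x) (Conn.refl ⟨h.mem_left, hu⟩) ?_
  intro a b _ hs ih
  exact ih.tail ⟨ih.mem_right, ⟨hs.2.1, hT a b hs ih.mem_right.2⟩, hs.2.2⟩

/-- Change of the configuration and of the set on a nontrivial path. -/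
theorem RotDual_map {ω ω' : Config} {S S' : Set Vert} {u v : Vert}
    (hST : ∀ x y, Step ω S x y → Step ω' S' x y) (h : Conn ω S u v) (huv : u ≠ v) :
    Conn ω' S' u v := by
  have h2 : Relation.ReflTransGen (Step ω' S') u v :=
    Relation.ReflTransGen.mono hST _ _ h.2
  rcases h2.cases_head with h3 | ⟨c, h3, _⟩
  · exact absurd h3 huv
  · exact ⟨h3.1, h2⟩

open Classical in
/-- The configuration with open corners `k ≤ 0`, `k ≥ 2 n`, and closed outside the rotated
rectangle otherwise. -/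
noncomputable def RotDual_conf (ω : Config) (n N : ℕ) : Config := fun e =>
  if ((src e).1 - (src e).2 ≤ 0 ∧ (tgt e).1 - (tgt e).2 ≤ 0) ∨
      (2 * (n : ℤ) ≤ (src e).1 - (src e).2 ∧ 2 * (n : ℤ) ≤ (tgt e).1 - (tgt e).2) then true
  else if src e ∈ RotR n N ∧ tgt e ∈ RotR n N then ω e else false

theorem RotDual_open {ω : Config} {n N : ℕ} {S : Set Vert} {x y : Vert}
    (h : Step (RotDual_conf ω n N) S x y) :
    (x.1 - x.2 ≤ 0 ∧ y.1 - y.2 ≤ 0) ∨ (2 * (n : ℤ) ≤ x.1 - x.2 ∧ 2 * (n : ℤ) ≤ y.1 - y.2) ∨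
      Step ω (RotR n N) x y := by
  obtain ⟨_, _, e, h3, h4⟩ := h
  unfold RotDual_conf at h4
  split_ifs at h4 with h5 h6
  · rcases h3 with ⟨rfl, rfl⟩ | ⟨rfl, rfl⟩
    · tauto
    · tauto
  · right; right
    rcases h3 with ⟨rfl, rfl⟩ | ⟨rfl, rfl⟩
    · exact ⟨h6.1, h6.2, e, Or.inl ⟨rfl, rfl⟩, h4⟩
    · exact ⟨h6.2, h6.1, e, Or.inr ⟨rfl, rfl⟩, h4⟩

/-- A dual step crosses a primal edge with the same values of `k = x - y`, and the values of
`x + y` are increased by one. -/
theorem RotDual_dual {ω : Config} {S : Set Vert} {x y : Vert} (h : Step (dual ω) S x y) :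
    ∃ e' e : Edge, Joins e' x y ∧ e = crossed e' ∧ ω e = false ∧
      (((src e).1 - (src e).2 = x.1 - x.2 ∧ (tgt e).1 - (tgt e).2 = y.1 - y.2) ∨
        ((src e).1 - (src e).2 = y.1 - y.2 ∧ (tgt e).1 - (tgt e).2 = x.1 - x.2)) ∧
      (((src e).1 + (src e).2 = x.1 + x.2 + 1 ∧ (tgt e).1 + (tgt e).2 = y.1 + y.2 + 1) ∨
        ((src e).1 + (src e).2 = y.1 + y.2 + 1 ∧ (tgt e).1 + (tgt e).2 = x.1 + x.2 + 1)) := by
  obtain ⟨_, _, e', h3, h4⟩ := h
  refine ⟨e', crossed e', h3, rfl, by simpa [dual] using h4, ?_, ?_⟩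
  · obtain ⟨p, q, b⟩ := e'
    cases b <;> rcases h3 with ⟨rfl, rfl⟩ | ⟨rfl, rfl⟩ <;> simp [src, tgt, crossed]
  · obtain ⟨p, q, b⟩ := e'
    cases b <;> rcases h3 with ⟨rfl, rfl⟩ | ⟨rfl, rfl⟩ <;> simp [src, tgt, crossed] <;> omega

theorem RotDual_step_k {ω : Config} {S : Set Vert} {u v : Vert} (h : Step ω S u v) :
    v.1 - v.2 = u.1 - u.2 + 1 ∨ v.1 - v.2 = u.1 - u.2 - 1 := by
  rcases h.cases with ⟨h1, h2 | h2⟩ | ⟨h1, h2 | h2⟩ <;> omega

theorem RotDual_step_m {ω : Config} {S : Set Vert} {u v : Vert} (h : Step ω S u v) :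
    v.1 + v.2 = u.1 + u.2 + 1 ∨ v.1 + v.2 = u.1 + u.2 - 1 := by
  rcases h.cases with ⟨h1, h2 | h2⟩ | ⟨h1, h2 | h2⟩ <;> omega

theorem rot_or_dual {ω : Config} {n N : ℕ} (hn : 1 ≤ n) (hN : 1 ≤ N) :
    RotCross ω n N ∨ ∃ a b : Vert, a.1 + a.2 = -1 ∧ b.1 + b.2 = 2 * N - 1 ∧
      Conn (dual ω) (RotD n N) a b := by
  rcases hcross_or_dual_vcross (ω := RotDual_conf ω n N) (a := 0) (b := n + N) (c := -n) (d := N)
    (by omega) (by omega) with h | h
  · left
    obtain ⟨u, v, hu, hv, huv⟩ := h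
    have hne : u ≠ v := by
      rintro rfl
      omega
    have hur := huv.mem_left
    have hvr := huv.mem_right
    simp only [rect, Set.mem_ofPred_eq] at hur hvr
    -- the first vertex
    have hku : u.1 - u.2 ≤ 0 := by
      by_contra hcon
      obtain ⟨w, w', h1, h2, h3, _⟩ := huv.exists_exit (T := {u}) rfl (by simpa using hne.symm)
      have hw : w = u := by simpa using h1.mem_right.2
      subst hw
      rcases RotDual_open h2 with h5 | h5 | h5
      · omega
      · omega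
      · have := h5.1
        simp only [RotR, Set.mem_ofPred_eq] at this
        omega
    have hkv : 2 * (n : ℤ) ≤ v.1 - v.2 := by
      by_contra hcon
      obtain ⟨w, w', h1, h2, h3, _⟩ := huv.symm.exists_exit (T := {v}) rfl (by simpa using hne)
      have hw : w = v := by simpa using h1.mem_right.2
      subst hw
      rcases RotDual_open h2 with h5 | h5 | h5
      · omega
      · omega
      · have := h5.1
        simp only [RotR, Set.mem_ofPred_eq] at this
        omega
    obtain ⟨a, b, ha, hb, hab⟩ := RotDual_cut (fun w => w.1 - w.2) (fun x y hxy => by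
      have := RotDual_step_k hxy
      constructor <;> omega) huv hku hkv (by omega)
    refine ⟨a, b, ha, hb, RotDual_map (fun x y hxy => ?_) hab ?_⟩
    · have h1 := hxy.1.2
      have h2 := hxy.2.1.2
      have h3 := RotDual_step_k hxy
      simp only [Set.mem_ofPred_eq] at h1 h2
      rcases RotDual_open hxy with h5 | h5 | h5
      · omega
      · omega
      · exact h5
    · rintro rfl
      omega
  · right
    obtain ⟨u, v, hu, hv, huv⟩ := h
    have hur := huv.mem_left
    have hvr := huv.mem_right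
    simp only [rect, Set.mem_ofPred_eq] at hur hvr
    -- dual steps do not cross `k = 0` downwards and `k = 2 n` upwards
    have hblock : ∀ (S : Set Vert) (x y : Vert), Step (dual (RotDual_conf ω n N)) S x y →
        ¬ (x.1 - x.2 ≤ 0 ∧ y.1 - y.2 ≤ 0) ∧
        ¬ (2 * (n : ℤ) ≤ x.1 - x.2 ∧ 2 * (n : ℤ) ≤ y.1 - y.2) ∧
        (x ∈ RotD n N → y ∈ RotD n N → Step (dual ω) (RotD n N) x y) := by
      intro S x y hxy
      obtain ⟨e', e, h3, h4, h5, h6, h7⟩ := RotDual_dual hxy
      unfold RotDual_conf at h5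
      split_ifs at h5 with h8 h9
      · refine ⟨by omega, by omega, fun hx hy => ⟨hx, hy, e', h3, ?_⟩⟩
        simp only [dual, ← h4, h5, Bool.not_false]
      · refine ⟨by omega, by omega, fun hx hy => ?_⟩
        exfalso
        apply h9
        simp only [RotD, RotR, Set.mem_ofPred_eq] at hx hy ⊢
        omega
    have hku : u.1 - u.2 ≤ 2 * n := by
      by_contra hcon
      obtain ⟨w, w', h1, h2, h3, _⟩ := huv.exists_exit (T := {w | 2 * (n : ℤ) + 1 ≤ w.1 - w.2})
        (by simp only [Set.mem_ofPred_eq]; omega) (by simp only [Set.mem_ofPred_eq]; omega)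
      have h4 := h1.mem_right.2
      simp only [Set.mem_ofPred_eq] at h3 h4
      have h5 := RotDual_step_k h2
      have h6 := (hblock _ _ _ h2).2.1
      omega
    have hkv : 0 ≤ v.1 - v.2 := by
      by_contra hcon
      obtain ⟨w, w', h1, h2, h3, _⟩ := huv.exists_exit (T := {w | 0 ≤ w.1 - w.2})
        (by simp only [Set.mem_ofPred_eq]; omega) (by simp only [Set.mem_ofPred_eq]; omega)
      have h4 := h1.mem_right.2
      simp only [Set.mem_ofPred_eq] at h3 h4
      have h5 := RotDual_step_k h2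
      have h6 := (hblock _ _ _ h2).1
      omega
    have hst := RotDual_stay (T := {w : Vert | 0 ≤ w.1 - w.2 ∧ w.1 - w.2 ≤ 2 * (n : ℤ)})
      (fun x y hxy hx => by
        have h5 := RotDual_step_k hxy
        have h6 := hblock _ _ _ hxy
        simp only [Set.mem_ofPred_eq] at hx ⊢
        omega) huv (by simp only [Set.mem_ofPred_eq]; omega)
    obtain ⟨a, b, ha, hb, hab⟩ := RotDual_cut (a := -1) (b := 2 * (N : ℤ) - 1)
      (fun w => w.1 + w.2) (fun x y hxy => by
      have := RotDual_step_m hxy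
      constructor <;> omega) hst (by omega) (by omega)
      (by omega)
    refine ⟨a, b, ha, hb, RotDual_map (fun x y hxy => ?_) hab ?_⟩
    · have h1 := hxy.1
      have h2 := hxy.2.1
      refine (hblock _ _ _ hxy).2.2 ?_ ?_
      · simp only [Set.mem_inter_iff, Set.mem_ofPred_eq] at h1
        simp only [RotD, Set.mem_ofPred_eq]
        omega
      · simp only [Set.mem_inter_iff, Set.mem_ofPred_eq] at h2
        simp only [RotD, Set.mem_ofPred_eq]
        omega
    · rintro rfl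
      omega

end Pool.Agent.H29.STP
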