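import Pool.Agent.H29.STP.Inter
import Pool.Agent.H29.STP.GenB
import Pool.Agent.H29.STP.Kill1
import Pool.Agent.H29.STP.Kill2
import Pool.Agent.H29.STP.Coup
import Pool.Agent.H29.STP.Cert

/-!
# The supersolution
-/

namespace Pool.Agent.H29.STP

/-- Part of the supersolution for the first row. -/
noncomputable def f0 (n : ℕ) : St → ℝ := fun s => 49 / 100 - psi (J n s)

/-- Part of the supersolution for the second row. -/
noncomputable def f1 (n : ℕ) : St → ℝ := fun s => 49 / 100 - gg psi chi (n + 1) s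

/-- The supersolution. -/
noncomputable def FF (n : ℕ) : St → ℝ := f0 n + R1 n (f1 n)

variable {n : ℕ}

/-- `H0` of a function which is a constant minus another one. -/
lemma H0_apply (f : St → ℝ) (s : St) :
    H0 n f s = ∑ j ∈ Finset.range (2 * n - 1), (f s - f (ev j s)) := by
  simp [H0, LinearMap.sum_apply, Finset.sum_apply]

lemma H1_apply (f : St → ℝ) (s : St) :
    H1 n f s = ∑ j ∈ Finset.range (2 * n + 1), (f s - f (ev j s)) +
      (1 / 2) * (f s - f (ev 0 s)) + (1 / 2) * (f s - f (ev (2 * n) s)) := by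
  simp [H1, LinearMap.sum_apply, Finset.sum_apply]
  ring

lemma bb_eq_zero {m : ℕ} (hm : 2 ≤ m) {s : St} (h : J m s = 0) : bb m s = 0 := by
  have := bb_le_J (s := s) hm
  omega

theorem H0_f0 (hn : 2 ≤ n) (s : St) :
    w1 n s + (1 / 4) * ((1 / 4 : ℝ) ^ J n s * bb n s) ≤ H0 n (f0 n) s := by
  have hsum : H0 n (f0 n) s =
      ∑ j ∈ Finset.range (2 * n - 1), (psi (J n (ev j s)) - psi (J n s)) := by
    rw [H0_apply]
    refine Finset.sum_congr rfl fun j _ => ?_
    simp only [f0]
    ring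
  have hg := gen0 hn psi psi_nonneg s
  rw [← hsum] at hg
  refine le_trans ?_ hg
  rcases Nat.eq_zero_or_pos (J n s) with h | h
  · have hb := bb_eq_zero hn h
    simp [w1, h, hb]
  · have hc := cert0 (i := J n s) (b := bb n s) h (bb_le_two) (bb_le_J hn)
    have hw : w1 n s = (1 / 4) ^ J n s := by
      simp only [w1, if_neg (by omega : ¬ J n s = 0)]
    rw [hw]
    refine le_trans (le_of_eq ?_) hc
    ring

theorem H1_f1 (hn : 2 ≤ n) (s : St) : w2 n s - (1 / 4) * t1 (n + 1) s ≤ H1 n (f1 n) s := by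
  have hm : 2 ≤ n + 1 := by omega
  have e1 : 2 * (n + 1) - 1 = 2 * n + 1 := by omega
  have e2 : 2 * (n + 1) - 2 = 2 * n := by omega
  have hsum : H1 n (f1 n) s =
      ∑ j ∈ Finset.range (2 * n + 1), (gg psi chi (n + 1) (ev j s) - gg psi chi (n + 1) s) +
      (1 / 2 : ℝ) * (gg psi chi (n + 1) (ev 0 s) - gg psi chi (n + 1) s) +
      (1 / 2 : ℝ) * (gg psi chi (n + 1) (ev (2 * n) s) - gg psi chi (n + 1) s) := by
    rw [H1_apply]
    simp only [f1]
    congr 1
    · congr 1
      · refine Finset.sum_congr rfl fun j _ => ?_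
        ring
      · ring
    · ring
  have hg := gen1 hm psi chi psi_nonneg chi_nonneg s
  rw [e1, e2, ← hsum] at hg
  refine le_trans ?_ hg
  rcases Nat.eq_zero_or_pos (J (n + 1) s) with h | h
  · have hb := bb_eq_zero hm h
    simp [w2, t1, h, hb]
  · have hc := cert1 (i := J (n + 1) s) (b := bb (n + 1) s) h (bb_le_two) (bb_le_J hm)
    have hw : w2 n s = (1 / 4) ^ J (n + 1) s * 2 ^ bb (n + 1) s := by
      simp only [w2, if_neg (by omega : ¬ J (n + 1) s = 0)]
    have ht : (1 / 4) * t1 (n + 1) s = if J (n + 1) s = 1 then (bb (n + 1) s : ℝ) / 4 else 0 := by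
      unfold t1
      split_ifs <;> ring
    rw [hw, ht]
    exact hc

theorem w1_nonneg (s : St) : 0 ≤ w1 n s := by
  unfold w1
  split_ifs <;> positivity

theorem w2_nonneg (s : St) : 0 ≤ w2 n s := by
  unfold w2
  split_ifs <;> positivity

theorem ww_nonneg (s : St) : 0 ≤ ww n s :=
  add_nonneg (w1_nonneg s) (Pos.R1 n _ w2_nonneg s)

theorem ww_le_H0 (hn : 2 ≤ n) (s : St) : ww n s ≤ H0 n (FF n) s := by
  have h1 : H0 n (FF n) s = H0 n (f0 n) s + R1 n (H1 n (f1 n)) s := by
    have : H0 n (R1 n (f1 n)) = R1 n (H1 n (f1 n)) := by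
      have h := H0_R1 (n := n) (by omega)
      exact congrArg (fun A : Op => A (f1 n)) h
    rw [FF, map_add, this]
    rfl
  have h2 := H0_f0 hn s
  have h3 : R1 n (w2 n) s - (1 / 4) * R1 n (t1 (n + 1)) s ≤ R1 n (H1 n (f1 n)) s := by
    have h := (Pos.R1 n).mono (f := w2 n - (1 / 4 : ℝ) • t1 (n + 1)) (g := H1 n (f1 n))
      (fun s => by simpa using H1_f1 hn s) s
    rw [map_sub, map_smul] at h
    simpa using h
  have h4 := coup hn s
  have h5 : ww n s = w1 n s + R1 n (w2 n) s := rfl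
  rw [h5, h1]
  linarith

lemma f0_nonneg (s : St) : 0 ≤ f0 n s := by
  unfold f0
  rcases Nat.eq_zero_or_pos (J n s) with h | h
  · rw [h, psi_zero]; norm_num
  · have := psi_chi_le' (i := J n s) (b := 0) h (by norm_num)
    simp at this
    linarith

lemma gg_le {m : ℕ} (hm : 2 ≤ m) (s : St) : gg psi chi m s ≤ 49 / 100 := by
  unfold gg
  rcases Nat.eq_zero_or_pos (J m s) with h | h
  · rw [h, psi_zero, bb_eq_zero hm h]; norm_num
  · exact psi_chi_le' h bb_le_two

lemma gg_nonneg (m : ℕ) (s : St) : 0 ≤ gg psi chi m s := by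
  have := psi_nonneg (J m s)
  have := chi_nonneg (J m s)
  unfold gg
  positivity

lemma f1_nonneg (hn : 2 ≤ n) (s : St) : 0 ≤ f1 n s :=
  sub_nonneg.2 (gg_le (by omega) s)

theorem FF_nonneg (hn : 2 ≤ n) (s : St) : 0 ≤ FF n s :=
  add_nonneg (f0_nonneg s) (Pos.R1 n _ (f1_nonneg hn) s)

lemma f0_le (s : St) : f0 n s ≤ 49 / 100 * al n s := by
  unfold f0 al
  rcases Nat.eq_zero_or_pos (J n s) with h | h
  · rw [h, psi_zero]; norm_num
  · rw [if_neg (by omega)]
    have := psi_nonneg (J n s)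
    linarith

lemma f1_le (hn : 2 ≤ n) (s : St) : f1 n s ≤ 49 / 100 * al (n + 1) s := by
  unfold f1 al
  rcases Nat.eq_zero_or_pos (J (n + 1) s) with h | h
  · rw [if_pos h]
    unfold gg
    rw [h, psi_zero, bb_eq_zero (by omega) h]
    norm_num
  · rw [if_neg (by omega)]
    have := gg_nonneg (n + 1) s
    linarith

theorem FF_le (hn : 2 ≤ n) (s : St) : FF n s ≤ 49 / 50 * al n s := by
  have h1 := f0_le (n := n) s
  have h2 : R1 n (f1 n) s ≤ 49 / 100 * R1 n (al (n + 1)) s := by
    have h := (Pos.R1 n).mono (f := f1 n) (g := (49 / 100 : ℝ) • al (n + 1))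
      (fun s => by simpa using f1_le hn s) s
    rw [map_smul] at h
    simpa using h
  have h3 := R1_al_le (n := n) (by omega) s
  have h4 : FF n s = f0 n s + R1 n (f1 n) s := rfl
  rw [h4]
  linarith

theorem le_FF (hn : 2 ≤ n) (s : St) : 49 / 50 * al n s - FF n s ≤ ww n s := by
  have h1 : 49 / 100 * al n s - f0 n s ≤ (1 / 2) * w1 n s := by
    unfold f0 al w1
    rcases Nat.eq_zero_or_pos (J n s) with h | h
    · rw [h, psi_zero]; norm_num
    · rw [if_neg (by omega), if_neg (by omega)]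
      have := psi_le (i := J n s)
      linarith
  have h2 : 49 / 100 * R1 n (al (n + 1)) s - R1 n (f1 n) s ≤ (1 / 2) * R1 n (w2 n) s := by
    have h := (Pos.R1 n).mono (f := (49 / 100 : ℝ) • al (n + 1) - f1 n)
      (g := (1 / 2 : ℝ) • w2 n) (fun s => by
        simp only [Pi.sub_apply, Pi.smul_apply, smul_eq_mul]
        unfold f1 al w2
        rcases Nat.eq_zero_or_pos (J (n + 1) s) with h | h
        · rw [if_pos h, if_pos h]
          unfold gg
          rw [h, psi_zero, bb_eq_zero (by omega) h]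
          norm_num
        · rw [if_neg (by omega), if_neg (by omega)]
          have := psi_chi_le (i := J (n + 1) s) (b := bb (n + 1) s) bb_le_two
          unfold gg
          linarith) s
    rw [map_sub, map_smul, map_smul] at h
    simpa using h
  have h3 := kill1 (n := n) (by omega) s
  have h4 : FF n s = f0 n s + R1 n (f1 n) s := rfl
  have h5 : ww n s = w1 n s + R1 n (w2 n) s := rfl
  have h6 := w1_nonneg (n := n) s
  have h7 := Pos.R1 n _ (w2_nonneg (n := n)) s
  rw [h4, h5]
  linarith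

theorem al_sub_DD_le (hn : 2 ≤ n) (s : St) : al n s - DD n (al n) s ≤ ww n s := by
  have h1 := kill1 (n := n) (by omega) s
  have h2 : R1 n (al (n + 1)) s - R1 n (R2 n (al n)) s ≤ R1 n (w2 n) s := by
    have h := (Pos.R1 n).mono (f := al (n + 1) - R2 n (al n)) (g := w2 n)
      (fun s => kill2 (n := n) (by omega) s) s
    rw [map_sub] at h
    simpa using h
  have h3 : DD n (al n) s = R1 n (R2 n (al n)) s := rfl
  have h5 : ww n s = w1 n s + R1 n (w2 n) s := rfl
  rw [h3, h5]
  linarith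

end Pool.Agent.H29.STP
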