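import Pool.Agent.H29.STP.Defs

/-!
# The Temperley-Lieb relations with loop weight one
-/

namespace Pool.Agent.H29.STP

lemma TL_cls (s : St) : ∃ c : ℕ → Set ℕ, ∀ x y, s.r x y ↔ c x = c y := by
  refine ⟨fun x => {z | s.r x z}, fun x y => ⟨fun h => ?_, fun h => ?_⟩⟩
  · ext z
    exact ⟨fun h' => s.trans' _ _ _ (s.symm' _ _ h) h', fun h' => s.trans' _ _ _ h h'⟩
  · have h1 : y ∈ {z | s.r y z} := s.rfl' y
    have h' : {z | s.r x z} = {z | s.r y z} := h
    have h2 : y ∈ {z | s.r x z} := by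
      rw [h']
      exact h1
    exact h2

lemma TL_ext {s t : St} (h : ∀ x y, s.r x y ↔ t.r x y) : s = t := by
  apply St.ext
  funext x y
  exact propext (h x y)

lemma TL_br_br (k : ℕ) (s : St) : br k (br k s) = br k s := by
  obtain ⟨c, hc⟩ := TL_cls s
  refine TL_ext fun x y => ?_
  simp only [br, hc]
  grind

lemma TL_ct_ct (k : ℕ) (s : St) : ct k (ct k s) = ct k s := by
  obtain ⟨c, hc⟩ := TL_cls s
  refine TL_ext fun x y => ?_
  simp only [ct, hc]
  grind

lemma TL_br_ct_br (k : ℕ) (s : St) : br k (ct (k + 1) (br k s)) = br k s := by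
  obtain ⟨c, hc⟩ := TL_cls s
  refine TL_ext fun x y => ?_
  simp only [ct, br, hc]
  grind

lemma TL_br_ct_br' (k : ℕ) (s : St) : br k (ct k (br k s)) = br k s := by
  obtain ⟨c, hc⟩ := TL_cls s
  refine TL_ext fun x y => ?_
  simp only [ct, br, hc]
  grind

lemma TL_ct_br_ct (k : ℕ) (s : St) : ct (k + 1) (br k (ct (k + 1) s)) = ct (k + 1) s := by
  obtain ⟨c, hc⟩ := TL_cls s
  refine TL_ext fun x y => ?_
  simp only [ct, br, hc]
  grind

lemma TL_ct_br_ct' (k : ℕ) (s : St) : ct k (br k (ct k s)) = ct k s := by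
  obtain ⟨c, hc⟩ := TL_cls s
  refine TL_ext fun x y => ?_
  simp only [ct, br, hc]
  grind

lemma TL_br_comm (k l : ℕ) (s : St) : br k (br l s) = br l (br k s) := by
  obtain ⟨c, hc⟩ := TL_cls s
  refine TL_ext fun x y => ?_
  simp only [br, hc]
  grind

lemma TL_br_ct_comm {k l : ℕ} (h1 : l ≠ k) (h2 : l ≠ k + 1) (s : St) :
    br k (ct l s) = ct l (br k s) := by
  obtain ⟨c, hc⟩ := TL_cls s
  refine TL_ext fun x y => ?_
  simp only [ct, br, hc]
  grind

lemma TL_ct_comm (k l : ℕ) (s : St) : ct k (ct l s) = ct l (ct k s) := by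
  obtain ⟨c, hc⟩ := TL_cls s
  refine TL_ext fun x y => ?_
  simp only [ct, hc]
  grind

lemma ev_idem (j : ℕ) (s : St) : ev j (ev j s) = ev j s := by
  obtain ⟨k, rfl | rfl⟩ := Nat.even_or_odd' j
  · simp only [ev_even, TL_br_br]
  · simp only [ev_odd, TL_ct_ct]

lemma ev_tl1 (j : ℕ) (s : St) : ev j (ev (j + 1) (ev j s)) = ev j s := by
  obtain ⟨k, rfl | rfl⟩ := Nat.even_or_odd' j
  · simp only [ev_even, ev_odd, TL_br_ct_br]
  · have e : 2 * k + 1 + 1 = 2 * (k + 1) := by ring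
    simp only [e, ev_even, ev_odd, TL_ct_br_ct']

lemma ev_tl2 (j : ℕ) (s : St) : ev (j + 1) (ev j (ev (j + 1) s)) = ev (j + 1) s := by
  obtain ⟨k, rfl | rfl⟩ := Nat.even_or_odd' j
  · simp only [ev_even, ev_odd, TL_ct_br_ct]
  · have e : 2 * k + 1 + 1 = 2 * (k + 1) := by ring
    simp only [e, ev_even, ev_odd, TL_br_ct_br']

lemma ev_comm {i j : ℕ} (h : i + 2 ≤ j) (s : St) : ev i (ev j s) = ev j (ev i s) := by
  obtain ⟨k, rfl | rfl⟩ := Nat.even_or_odd' i
  · obtain ⟨l, rfl | rfl⟩ := Nat.even_or_odd' j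
    · simp only [ev_even]
      exact TL_br_comm k l s
    · simp only [ev_even, ev_odd]
      exact TL_br_ct_comm (by omega) (by omega) s
  · obtain ⟨l, rfl | rfl⟩ := Nat.even_or_odd' j
    · simp only [ev_even, ev_odd]
      exact (TL_br_ct_comm (by omega) (by omega) s).symm
    · simp only [ev_odd]
      exact TL_ct_comm _ _ s

theorem E_idem (j : ℕ) : E j * E j = E j := by
  ext f s
  simp [ev_idem]

theorem E_tl1 (j : ℕ) : E j * E (j + 1) * E j = E j := by
  ext f s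
  simp [ev_tl1]

theorem E_tl2 (j : ℕ) : E (j + 1) * E j * E (j + 1) = E (j + 1) := by
  ext f s
  simp [ev_tl2]

theorem E_comm {i j : ℕ} (h : i + 2 ≤ j) : E i * E j = E j * E i := by
  ext f s
  simp [ev_comm h]

end Pool.Agent.H29.STP
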