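import Pool.Agent.H29.STP.Defs

/-!
# How the unstraddled gaps change under a bridge and under a cut
-/

namespace Pool.Agent.H29.STP

variable {m k g : ℕ} {s : St}

/-- A bridge in the gap `k` only changes the gap `k`. -/
theorem U_br (hk : k < m) (hg : g < m) : U m (br k s) g ↔ U m s g ∧ g ≠ k := by
  constructor
  · intro h
    refine ⟨fun i j hi hj hm hr => h i j hi hj hm (Or.inl hr), ?_⟩
    rintro rfl
    exact h g (g + 1) le_rfl (Nat.lt_succ_self g) hg (Or.inr (Or.inl ⟨s.rfl' _, s.rfl' _⟩))
  · rintro ⟨h, hne⟩ i j hi hj hm hr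
    rcases hr with hr | ⟨h1, h2⟩ | ⟨h1, h2⟩
    · exact h i j hi hj hm hr
    · rcases lt_or_gt_of_ne hne with hlt | hgt
      · exact h i k hi hlt hk.le h1
      · exact h (k + 1) j hgt hj hm h2
    · rcases lt_or_gt_of_ne hne with hlt | hgt
      · exact h i (k + 1) hi (by omega) hk h1
      · exact h k j hgt.le hj hm h2

theorem U_ct_mono (h : U m s g) : U m (ct k s) g := by
  intro i j hi hj hm hr
  rcases hr with hr | ⟨_, _, hr⟩
  · omega
  · exact h i j hi hj hm hr

theorem U_ct_right (h : U m s g) : U m (ct (g + 1) s) (g + 1) := by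
  intro i j hi hj hm hr
  rcases hr with hr | ⟨h1, h2, hr⟩
  · omega
  · exact h i j (by omega) (by omega) hm hr

theorem U_ct_left (h : U m s (g + 1)) : U m (ct (g + 1) s) g := by
  intro i j hi hj hm hr
  rcases hr with hr | ⟨h1, h2, hr⟩
  · omega
  · exact h i j (by omega) (by omega) hm hr

theorem ULem_not {m g : ℕ} {s : St} (h : ¬ U m s g) :
    ∃ i j, i ≤ g ∧ g < j ∧ j ≤ m ∧ s.r i j := by
  unfold U at h
  push Not at h
  obtain ⟨i, j, h1, h2, h3, h4⟩ := h
  exact ⟨i, j, h1, h2, h3, h4⟩

/-- If the two gaps next to the column `k + 1` are of the same kind, the cut changes nothing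
(this uses that the state is noncrossing). -/
theorem U_ct_eq (hk : k + 1 < m) (hg : g < m) (h : U m s k ↔ U m s (k + 1)) :
    U m (ct (k + 1) s) g ↔ U m s g := by
  refine ⟨fun hc => ?_, U_ct_mono⟩
  have hc' : ∀ i j, i ≤ g → g < j → j ≤ m → i ≠ k + 1 → j ≠ k + 1 → ¬ s.r i j :=
    fun i j h1 h2 h3 h4 h5 h6 => hc i j h1 h2 h3 (Or.inr ⟨h4, h5, h6⟩)
  intro i j hi hj hm hr
  by_cases hU : U m s k
  · have hU' := h.1 hU
    by_cases e1 : i = k + 1
    · subst e1
      exact hU' (k + 1) j le_rfl (by omega) hm hr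
    · by_cases e2 : j = k + 1
      · subst e2
        exact hU i (k + 1) (by omega) (by omega) hm hr
      · exact hc' i j hi hj hm e1 e2 hr
  · have hU' : ¬ U m s (k + 1) := fun h' => hU (h.2 h')
    by_cases e1 : i = k + 1
    · subst e1
      obtain ⟨i1, j1, a1, a2, a3, a4⟩ := ULem_not hU
      have key : ¬ s.r i1 (k + 1) := fun hh =>
        hc' i1 j (by omega) hj hm (by omega) (by omega) (s.trans' _ _ _ hh hr)
      by_cases e3 : j1 = k + 1
      · subst e3
        exact key a4
      · by_cases e4 : g < j1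
        · exact hc' i1 j1 (by omega) e4 a3 (by omega) e3 a4
        · exact key (s.nc i1 (k + 1) j1 j (by omega) (by omega) (by omega) a4 hr)
    · by_cases e2 : j = k + 1
      · subst e2
        obtain ⟨i2, j2, a1, a2, a3, a4⟩ := ULem_not hU'
        by_cases e3 : i2 = k + 1
        · subst e3
          exact hc' i j2 hi (by omega) a3 e1 (by omega) (s.trans' _ _ _ hr a4)
        · by_cases e4 : i2 ≤ g
          · exact hc' i2 j2 e4 (by omega) a3 e3 (by omega) a4
          · exact hc' i i2 hi (by omega) (by omega) e1 e3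
              (s.nc i i2 (k + 1) j2 (by omega) (by omega) (by omega) hr a4)
      · exact hc' i j hi hj hm e1 e2 hr

end Pool.Agent.H29.STP
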